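import Pool.Agent.Lib.MP_3b3418_ag.SpecB

/-!
# The operators `act A`
-/

set_option autoImplicit false

namespace MP3b

open Matrix

theorem Act_comm {m j : ℕ} (A A' : Module.End ℂ (Gl m)) (Ψ : Wm m j) :
    act A (act A' Ψ) - act A' (act A Ψ) = act (A' * A - A * A') Ψ := by
  classical
  refine MultilinearMap.ext fun x => ?_
  rw [_root_.sub_apply, act_apply, act_apply, act_apply]
  simp only [act_apply]
  have h1 : ∀ (A A' : Module.End ℂ (Gl m)), ∑ k, ∑ l, Ψ (Function.update (Function.update x k (A (x k))) l
      (A' (Function.update x k (A (x k)) l))) =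
      ∑ k, Ψ (Function.update x k (A' (A (x k)))) +
        ∑ k, ∑ l ∈ Finset.univ.erase k,
          Ψ (Function.update (Function.update x k (A (x k))) l (A' (x l))) := by
    intro A A'
    rw [← Finset.sum_add_distrib]
    refine Finset.sum_congr rfl fun k _ => ?_
    rw [← Finset.add_sum_erase _ _ (Finset.mem_univ k)]
    congr 1
    · rw [Function.update_self, Function.update_idem]
    · refine Finset.sum_congr rfl fun l hl => ?_
      rw [Function.update_of_ne (Finset.ne_of_mem_erase hl)]
  have h2 : ∑ k, ∑ l ∈ Finset.univ.erase k,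
      Ψ (Function.update (Function.update x k (A (x k))) l (A' (x l))) =
      ∑ k, ∑ l ∈ Finset.univ.erase k,
        Ψ (Function.update (Function.update x k (A' (x k))) l (A (x l))) := by
    have h3 : ∀ f : Fin j → Fin j → Pl m, ∑ k, ∑ l ∈ Finset.univ.erase k, f k l =
        ∑ k, ∑ l, if l ≠ k then f k l else 0 := by
      intro f
      refine Finset.sum_congr rfl fun k _ => ?_
      rw [← Finset.sum_filter]
      refine Finset.sum_congr ?_ fun _ _ => rfl
      ext l
      simp
    rw [h3, h3, Finset.sum_comm]
    refine Finset.sum_congr rfl fun l _ => Finset.sum_congr rfl fun k _ => ?_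
    by_cases h : l = k
    · rw [if_neg (by simp [h]), if_neg (by simp [h])]
    · rw [if_pos h, if_pos (Ne.symm h), Function.update_comm (Ne.symm h)]
  rw [h1, h1, h2, add_sub_add_right_eq_sub, ← Finset.sum_sub_distrib]
  refine Finset.sum_congr rfl fun k _ => ?_
  rw [← MultilinearMap.map_update_sub]
  rfl

theorem tAct : ActStmt := by
  classical
  intro m j
  refine ⟨Act_comm, ?_, ?_, ?_, ?_⟩
  · intro y A Ψ
    refine MultilinearMap.ext fun x => ?_
    rw [RW_apply, act_apply, act_apply, map_sum]
    rfl
  · intro A Ψ hΨ x g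
    rw [act_apply, map_sum]
    exact Finset.sum_eq_zero fun k _ => hΨ _ g
  · intro A hA Ψ hΨ x g k hk
    rw [act_apply, map_sum]
    refine Finset.sum_eq_zero fun l _ => ?_
    by_cases h : k = l
    · subst h
      refine hΨ _ g k ?_
      rw [Function.update_self]
      exact hA _ hk
    · refine hΨ _ g k ?_
      rw [Function.update_of_ne h]
      exact hk
  · intro A hA Ψ hΨ x g
    rw [act_apply, map_sum]
    refine Finset.sum_eq_zero fun l _ => hΨ _ g l ?_
    rw [Function.update_self]
    exact hA _

end MP3b
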