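import Pool.Agent.Lib.MP_3b3418_ag.SpecA

/-!
# Part A: all transvections
-/

set_option autoImplicit false

namespace MP3b

open Matrix

/-- `a ↦ tw B a w` as a linear map. -/
private def All_tw (hTwa : TwaStmt) {V : Type} [AddCommGroup V] [Module ℂ V]
    (B : V →ₗ[ℂ] V →ₗ[ℂ] ℂ) (hB : ∀ x y, B x y = -B y x) (w : V) : V →ₗ[ℂ] Module.End ℂ V where
  toFun a := tw B a w
  map_add' a b := (hTwa V B hB).2.2.2.2.1 a b w
  map_smul' c a := (hTwa V B hB).2.2.2.2.2 c a w

/-- The operators `A` with `(0, A) ∈ S`. -/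
private def All_I {m : ℕ} (S : Submodule ℂ (Gl m × Module.End ℂ (Gl m))) :
    Submodule ℂ (Module.End ℂ (Gl m)) :=
  S.comap (LinearMap.inr ℂ (Gl m) (Module.End ℂ (Gl m)))

private theorem All_mem {m : ℕ} {S : Submodule ℂ (Gl m × Module.End ℂ (Gl m))}
    {A : Module.End ℂ (Gl m)} : A ∈ All_I S ↔ ((0 : Gl m), A) ∈ S := Iff.rfl

/-- The operators which preserve `T`. -/
private def All_A (m : ℕ) (D : Module.End ℂ (Gl m)) : Set (Module.End ℂ (Gl m)) :=
  {A | A = D ∨ ∃ k, 1 ≤ k ∧ A = adm (ee m ^ k)}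

/-- The top component. -/
private def All_U (m : ℕ) : Submodule ℂ (Gl m) :=
  Submodule.span ℂ (Set.range fun i : Fin (2 * m - 2) => vv m (m - 1) (i : ℕ))

private theorem All_x0 (hEpw : EpwStmt) {m : ℕ} (hm : 3 ≤ m) :
    ∃ c : ℂ, Matrix.single ⟨m - 1, by omega⟩ ⟨0, by omega⟩ (1 : ℂ) = c • vv m (m - 1) 0 := by
  have h1 := (hEpw m (m - 1)).2
  have h2 : (ff m ^ (m - 1)) ⟨m - 1, by omega⟩ ⟨0, by omega⟩ ≠ 0 := by
    rw [h1]
    simp
  refine ⟨((ff m ^ (m - 1)) ⟨m - 1, by omega⟩ ⟨0, by omega⟩)⁻¹, ?_⟩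
  rw [vv_zero]
  ext i j
  rw [Matrix.smul_apply, smul_eq_mul, Matrix.single_apply]
  split_ifs with h3
  · obtain ⟨rfl, rfl⟩ := h3
    rw [inv_mul_cancel₀ h2]
  · have h4 : (ff m ^ (m - 1)) i j = 0 := by
      by_contra h5
      rw [← ne_eq, h1] at h5
      refine h3 ⟨?_, ?_⟩
      · ext
        simp only
        omega
      · ext
        simp only
        omega
    rw [h4, mul_zero]

theorem tAll (hEpw : EpwStmt) (hNz : NzStmt) (hBas : BasStmt) (hTau : TauStmt) (hBsk : BskStmt)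
    (hTwa : TwaStmt) (hLmt : LmtStmt) (hUtt : UttStmt) (hXd : XdStmt) : AllStmt := by
  intro m hm D hD S hS
  have hB := (hBsk m).1
  have hI : ∀ X ∈ All_I S, ∀ Y ∈ All_I S, X * Y - Y * X ∈ All_I S := by
    intro X hX Y hY
    have h := hS.brk _ hX _ hY
    simpa [All_mem] using h
  have hA : ∀ A ∈ All_A m D, Skew (Bf m) A ∧ ∀ X ∈ All_I S, A * X - X * A ∈ All_I S := by
    rintro A (rfl | ⟨k, hk, rfl⟩)
    · refine ⟨(hBsk m).2.2.1 A hD, fun X hX => ?_⟩
      have h := hS.brk _ hS.fp _ hX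
      simpa [All_mem] using h
    · refine ⟨(hBsk m).2.1 _ ?_, fun X hX => ?_⟩
      · rw [← pow_succ, ← pow_succ']
      · have h := hS.brk _ (hS.pow k hk) _ hX
        simpa [All_mem] using h
  have hvU : ∀ i, i < 2 * m - 2 → vv m (m - 1) i ∈ All_U m := fun i hi =>
    Submodule.subset_span ⟨⟨i, hi⟩, rfl⟩
  have hU0 : All_U m ≠ ⊥ := by
    intro h
    have h1 := hvU 0 (by omega)
    rw [h, Submodule.mem_bot] at h1
    exact hNz m (m - 1) 0 (by omega) (by omega) h1
  have hBv : ∀ i j, Bf m (vv m (m - 1) i) (vv m (m - 1) j) =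
      (vv m (m - 1) (i + 1) * vv m (m - 1) j).trace := by
    intro i j
    rw [Bf_apply, vv_succ, adm_apply]
  have hUn : ∀ w ∈ All_U m, w ≠ 0 → ∃ c ∈ All_U m, Bf m w c ≠ 0 := by
    intro w hw hw0
    obtain ⟨a, rfl⟩ := (Submodule.mem_span_range_iff_exists_fun ℂ).1 hw
    obtain ⟨k, hk⟩ : ∃ k, a k ≠ 0 := by
      by_contra h
      push Not at h
      refine hw0 (Finset.sum_eq_zero fun i _ => ?_)
      rw [h, zero_smul]
    have hk2 := k.2
    refine ⟨vv m (m - 1) (2 * m - 3 - k), hvU _ (by omega), ?_⟩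
    rw [map_sum, LinearMap.sum_apply, Finset.sum_eq_single k]
    · rw [map_smul, LinearMap.smul_apply, hBv, smul_eq_mul]
      refine mul_ne_zero hk ((hTau m (m - 1) _ (m - 1) _ (by omega) (by omega) (by omega)
        (by omega)).2 ⟨rfl, by omega⟩)
    · intro i _ hik
      have hi2 := i.2
      rw [map_smul, LinearMap.smul_apply, hBv]
      have h1 : (vv m (m - 1) ((i : ℕ) + 1) * vv m (m - 1) (2 * m - 3 - (k : ℕ))).trace = 0 := by
        by_contra h2
        have h3 := ((hTau m (m - 1) _ (m - 1) _ (by omega) (by omega) (by omega)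
          (by omega)).1 h2).2
        exact hik (Fin.ext (by omega))
      rw [h1, smul_zero]
    · intro h
      exact absurd (Finset.mem_univ _) h
  have hUU : ∀ u ∈ All_U m, ∀ w ∈ All_U m, tw (Bf m) u w ∈ All_I S := by
    have h1 : ∀ i, i < 2 * m - 2 → ∀ u ∈ All_U m, tw (Bf m) u (vv m (m - 1) i) ∈ All_I S := by
      intro i hi u hu
      have h2 : All_U m ≤ (All_I S).comap (All_tw hTwa (Bf m) hB (vv m (m - 1) i)) := by
        refine Submodule.span_le.2 ?_
        rintro _ ⟨k, rfl⟩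
        have hk2 := k.2
        exact hUtt m hm D hD S hS k i (by omega) (by omega)
      exact h2 hu
    intro u hu w hw
    have h2 : All_U m ≤ (All_I S).comap (All_tw hTwa (Bf m) hB u) := by
      refine Submodule.span_le.2 ?_
      rintro _ ⟨k, rfl⟩
      change tw (Bf m) (vv m (m - 1) k) u ∈ All_I S
      rw [(hTwa _ (Bf m) hB).1]
      exact h1 k k.2 u hu
    have h3 : tw (Bf m) w u ∈ All_I S := h2 hw
    rwa [(hTwa _ (Bf m) hB).1] at h3
  obtain ⟨T, hUT, hT1, hT2, hT3⟩ := hLmt (Gl m) (Bf m) hB (All_I S) hI (All_A m D) hA (All_U m)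
    hU0 hUn hUU
  have hcen : ∀ a : Gl m, ee m * a = a * ee m → a ∈ T := by
    intro a ha
    rw [hT1]
    intro w _
    refine hS.cen (tw (Bf m) a w) fun x => ?_
    rw [tw_apply, ((hBsk m).2.2.2.2 a ha x).2, zero_smul, zero_add, mul_smul_comm, ha,
      smul_mul_assoc]
  have hx0 : Matrix.single ⟨m - 1, by omega⟩ ⟨0, by omega⟩ (1 : ℂ) ∈ T := by
    obtain ⟨c, hc⟩ := All_x0 hEpw hm
    rw [hc]
    exact T.smul_mem _ (hUT (hvU 0 (by omega)))
  have hDA : D ∈ All_A m D := Or.inl rfl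
  have heA : ∀ k, 1 ≤ k → adm (ee m ^ k) ∈ All_A m D := fun k hk => Or.inr ⟨k, hk, rfl⟩
  have hmain : ∀ k d, 1 ≤ d → d < m → m - d = k → ∀ i, i ≤ 2 * d → vv m d i ∈ T := by
    intro k
    induction k using Nat.strong_induction_on with
    | _ k ih =>
      intro d hd1 hd2 hdk
      have h1 := hT2 _ (heA (m - d) (by omega)) _ hx0
      obtain ⟨c, a, hc, hca⟩ := hXd m d hd1 hd2 _ rfl
      rw [hca] at h1
      have h2 : (∑ d' : Fin m, if d < (d' : ℕ) then a d' • vv m (d' : ℕ) ((d' : ℕ) - d + 1)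
          else 0) ∈ T := by
        refine T.sum_mem fun d' _ => ?_
        split_ifs with h3
        · have h4 := d'.2
          exact T.smul_mem _ (ih (m - d') (by omega) d' (by omega) h4 rfl _ (by omega))
        · exact T.zero_mem
      have h3 : c • vv m d 1 ∈ T := (T.add_mem_iff_left h2).1 h1
      have h4 : vv m d 1 ∈ T := (T.smul_mem_iff hc).1 h3
      have h5 : ∀ i, vv m d (i + 1) ∈ T := by
        intro i
        induction i with
        | zero => exact h4
        | succ i ihi =>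
          rw [vv_succ]
          have := hT2 _ (heA 1 le_rfl) _ ihi
          rwa [pow_one] at this
      have h6 : vv m d 0 ∈ T := by
        have h7 := hT2 _ hDA _ h4
        have h8 := hD.succ d hd2 0 (by omega)
        rw [zero_add] at h8
        rw [h8] at h7
        refine (T.smul_mem_iff ?_).1 h7
        have h9 : (2 * (d : ℂ) - 1) ≠ 0 := by
          have h10 : ((2 * d - 1 : ℕ) : ℂ) ≠ 0 := Nat.cast_ne_zero.2 (by omega)
          rw [Nat.cast_sub (by omega)] at h10
          simpa using h10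
        simpa using h9
      intro i _
      cases i with
      | zero => exact h6
      | succ i => exact h5 i
  have htop : T = ⊤ := by
    rw [eq_top_iff, ← (hBas m).2]
    refine Submodule.span_le.2 ?_
    rintro _ ⟨⟨d, i⟩, rfl⟩
    by_cases hd : (d : ℕ) = 0
    · have hi : (i : ℕ) = 0 := by
        have := i.2
        omega
      have h1 : vv m (d : ℕ) (i : ℕ) = 1 := by
        rw [hi, hd, vv_zero, pow_zero]
      change vv m (d : ℕ) (i : ℕ) ∈ T
      rw [h1]
      exact hcen 1 (by rw [mul_one, one_mul])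
    · have hi := i.2
      exact hmain _ d (by omega) d.2 rfl i (by omega)
  intro a b
  exact hT3 a (htop ▸ Submodule.mem_top) b (htop ▸ Submodule.mem_top)

end MP3b
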