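import Pool.Agent.Lib.MP_3b3418_ag.SpecA

/-!
# MP_3b3418_ag, task Bas: the `v d i` are a basis of `gl_m`
-/

set_option autoImplicit false

namespace MP3b

open Matrix

/-- The operator which separates the `v d i`. -/
noncomputable def BasT (m : ℕ) : Module.End ℂ (Gl m) :=
  (2 * (m : ℂ)) • (adm (ff m) * adm (ee m) + (1 / 4 : ℂ) • (adm (hh m) * adm (hh m)) +
    (1 / 2 : ℂ) • adm (hh m)) + (1 / 2 : ℂ) • adm (hh m)

theorem BasT_apply (hStr : StrStmt) (m d i : ℕ) :
    BasT m (vv m d i) =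
      (2 * (m : ℂ) * ((d : ℂ) * ((d : ℂ) + 1)) + ((i : ℂ) - (d : ℂ))) • vv m d i := by
  have h1 := (hStr m d i).1
  have h2 := (hStr m d i).2.1
  unfold BasT
  rw [LinearMap.add_apply, LinearMap.smul_apply, LinearMap.smul_apply, LinearMap.add_apply,
    LinearMap.add_apply, LinearMap.smul_apply, LinearMap.smul_apply, Module.End.mul_apply,
    Module.End.mul_apply, ← vv_succ, h2, h1, map_smul, h1, smul_smul, smul_smul, smul_smul,
    ← add_smul, ← add_smul, smul_smul, ← add_smul]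
  congr 1
  ring

theorem Bas_lt (m d i d' i' : ℤ) (hd : 0 ≤ d) (hdd : d < d') (hd' : d' < m)
    (h : i ≤ 2 * d) (h' : 0 ≤ i') :
    2 * m * (d * (d + 1)) + (i - d) < 2 * m * (d' * (d' + 1)) + (i' - d') := by
  have h1 : d * (d + 1) + 2 ≤ d' * (d' + 1) := by nlinarith
  have h2 : 2 * m * (d * (d + 1)) + 4 * m ≤ 2 * m * (d' * (d' + 1)) := by nlinarith
  linarith

theorem Bas_inj (m : ℕ) : Function.Injective (fun p : Ix m =>
    (2 * (m : ℂ) * (((p.1 : ℕ) : ℂ) * (((p.1 : ℕ) : ℂ) + 1)) +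
      (((p.2 : ℕ) : ℂ) - ((p.1 : ℕ) : ℂ)))) := by
  rintro ⟨d, i⟩ ⟨d', i'⟩ h
  simp only at h
  have h1 : 2 * (m : ℤ) * (((d : ℕ) : ℤ) * (((d : ℕ) : ℤ) + 1)) +
      (((i : ℕ) : ℤ) - ((d : ℕ) : ℤ)) =
      2 * (m : ℤ) * (((d' : ℕ) : ℤ) * (((d' : ℕ) : ℤ) + 1)) +
      (((i' : ℕ) : ℤ) - ((d' : ℕ) : ℤ)) := by exact_mod_cast h
  have hd := d.2
  have hd' := d'.2
  have hi := i.2
  have hi' := i'.2
  have hdd : (d : ℕ) = (d' : ℕ) := by
    rcases lt_trichotomy (d : ℕ) (d' : ℕ) with hlt | heq | hgt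
    · have := Bas_lt m (d : ℕ) (i : ℕ) (d' : ℕ) (i' : ℕ) (by omega) (by omega) (by omega)
        (by omega) (by omega)
      omega
    · exact heq
    · have := Bas_lt m (d' : ℕ) (i' : ℕ) (d : ℕ) (i : ℕ) (by omega) (by omega) (by omega)
        (by omega) (by omega)
      omega
  have hdd' : d = d' := Fin.ext hdd
  subst hdd'
  have hii : (i : ℕ) = (i' : ℕ) := by omega
  have hii' : i = i' := Fin.ext hii
  rw [hii']

theorem Bas_card (m : ℕ) : ∑ d : Fin m, (2 * (d : ℕ) + 1) = m * m := by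
  induction m with
  | zero => rfl
  | succ m ih =>
    rw [Fin.sum_univ_castSucc]
    simp only [Fin.val_castSucc, Fin.val_last]
    rw [ih]
    ring

theorem tBas (hStr : StrStmt) (hNz : NzStmt) : BasStmt := by
  intro m
  have hli : LinearIndependent ℂ (fun p : Ix m => vv m (p.1 : ℕ) (p.2 : ℕ)) := by
    refine Module.End.eigenvectors_linearIndependent' (BasT m) _ (Bas_inj m) _ fun p => ?_
    refine ⟨?_, ?_⟩
    · rw [Module.End.mem_eigenspace_iff]
      exact BasT_apply hStr m _ _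
    · have h1 := p.2.2
      exact hNz m _ _ p.1.2 (by omega)
  refine ⟨hli, ?_⟩
  refine hli.span_eq_top_of_card_eq_finrank' ?_
  rw [Fintype.card_sigma, Module.finrank_matrix, Fintype.card_fin, Module.finrank_self, mul_one]
  simp only [Fintype.card_fin]
  exact Bas_card m

end MP3b
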