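import Pool.Agent.Lib.MP_3b3418_ag.SpecA

/-!
# MP_3b3418_ag, task Str: the action of `e`, `f`, `h` on the `v d i`
-/

set_option autoImplicit false

namespace MP3b

open Matrix

/-- Jacobi. -/
theorem Str_jac {m : ℕ} (x y z : Gl m) :
    adm x (adm y z) = adm y (adm x z) + adm (adm x y) z := by
  simp only [adm_apply]
  noncomm_ring

theorem Str_leib {m : ℕ} (x y z : Gl m) : adm x (y * z) = adm x y * z + y * adm x z := by
  simp only [adm_apply]
  noncomm_ring

theorem Str_smul {m : ℕ} (c : ℂ) (y z : Gl m) : adm (c • y) z = c • adm y z := by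
  rw [adm_apply, adm_apply, smul_mul_assoc, mul_smul_comm, smul_sub]

theorem Str_hf (hTri : TriStmt) (m d : ℕ) :
    adm (hh m) (ff m ^ d) = (-2 * (d : ℂ)) • ff m ^ d := by
  induction d with
  | zero => rw [pow_zero, adm_apply, mul_one, one_mul, sub_self, Nat.cast_zero, mul_zero, zero_smul]
  | succ d ih =>
    rw [pow_succ, Str_leib, ih, (hTri m).2.2.1, smul_mul_assoc, mul_smul_comm, ← add_smul]
    congr 1
    push_cast
    ring

theorem tStr (hTri : TriStmt) : StrStmt := by
  intro m d
  have hf0 : adm (ff m) (vv m d 0) = 0 := by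
    rw [vv_zero, adm_apply, ← pow_succ', ← pow_succ, sub_self]
  have hhv : ∀ i : ℕ, adm (hh m) (vv m d i) = (2 * (i : ℂ) - 2 * (d : ℂ)) • vv m d i := by
    intro i
    induction i with
    | zero =>
      rw [vv_zero, Str_hf hTri]
      congr 1
      push_cast
      ring
    | succ i ih =>
      rw [vv_succ, Str_jac, ih, (hTri m).2.1, map_smul, Str_smul, ← add_smul]
      congr 1
      push_cast
      ring
  have hfe : ∀ x : Gl m, adm (ff m) (adm (ee m) x) = adm (ee m) (adm (ff m) x) - adm (hh m) x := by
    intro x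
    have h1 : adm (ff m) (ee m) = -hh m := by
      rw [← (hTri m).1, adm_apply, adm_apply]
      abel
    rw [Str_jac, h1, sub_eq_add_neg]
    congr 1
    rw [adm_apply, adm_apply, neg_mul, mul_neg]
    abel
  have hfv : ∀ i : ℕ, adm (ff m) (vv m d (i + 1)) =
      (((i : ℂ) + 1) * (2 * (d : ℂ) - (i : ℂ))) • vv m d i := by
    intro i
    induction i with
    | zero =>
      rw [vv_succ, hfe, hf0, map_zero, hhv, zero_sub, ← neg_smul]
      congr 1
      push_cast
      ring
    | succ i ih =>
      rw [vv_succ, hfe, ih, map_smul, ← vv_succ, hhv, ← sub_smul]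
      congr 1
      push_cast
      ring
  intro i
  exact ⟨hhv i, hfv i, hf0⟩

end MP3b
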