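import Pool.Agent.Lib.MP_3b3418_ag.T.Tau
import Pool.Agent.Lib.MP_3b3418_ag.T.Str

/-!
# MP_3b3418_ag, task Bsk: properties of the form `Bf`
-/

set_option autoImplicit false

namespace MP3b

open Matrix

theorem Bsk_def {m : ℕ} (a b : Gl m) : Bf m a b = (adm (ee m) a * b).trace := rfl

theorem Bsk_def' {m : ℕ} (a b : Gl m) : Bf m a b = -(a * adm (ee m) b).trace := by
  rw [Bsk_def, Tau_inv]

theorem Bsk_eD {m : ℕ} {D : Module.End ℂ (Gl m)} (hD : IsFp m D) (d i : ℕ) (hd : d < m)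
    (hi : i ≤ 2 * d) : adm (ee m) (D (vv m d i)) =
      ((i : ℂ) * (2 * (d : ℂ) - (i : ℂ))) • vv m d i := by
  cases i with
  | zero => rw [hD.zero d hd, map_zero, Nat.cast_zero, zero_mul, zero_smul]
  | succ k =>
    rw [hD.succ d hd k (by omega), map_smul, ← vv_succ]
    push_cast
    rfl

theorem Bsk_three (hBas : BasStmt) (hTau : TauStmt) {m : ℕ} {D : Module.End ℂ (Gl m)}
    (hD : IsFp m D) : Skew (Bf m) D := by
  have h1 : (Bf m) ∘ₗ D = -((Bf m).compl₂ D) := by
    refine LinearMap.ext_on_range (hBas m).2 fun p => ?_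
    refine LinearMap.ext_on_range (hBas m).2 fun q => ?_
    rw [LinearMap.neg_apply, LinearMap.neg_apply, LinearMap.compl₂_apply, LinearMap.comp_apply,
      Bsk_def, Bsk_def', neg_neg]
    have hp := p.2.2
    have hq := q.2.2
    rw [Bsk_eD hD _ _ p.1.2 (by omega), Bsk_eD hD _ _ q.1.2 (by omega), smul_mul_assoc,
      mul_smul_comm, trace_smul, trace_smul, smul_eq_mul, smul_eq_mul]
    by_cases h0 : (vv m (p.1 : ℕ) (p.2 : ℕ) * vv m (q.1 : ℕ) (q.2 : ℕ)).trace = 0
    · rw [h0, mul_zero, mul_zero]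
    · obtain ⟨h2, h3⟩ := (hTau m _ _ _ _ p.1.2 q.1.2 (by omega) (by omega)).1 h0
      congr 1
      have h4 : ((q.2 : ℕ) : ℂ) = 2 * ((p.1 : ℕ) : ℂ) - ((p.2 : ℕ) : ℂ) := by
        have h5 : (((p.2 : ℕ) + (q.2 : ℕ) : ℕ) : ℂ) = ((2 * (p.1 : ℕ) : ℕ) : ℂ) := by rw [h3]
        push_cast at h5
        linear_combination h5
      rw [h4, ← h2]
      ring
  intro x y
  have h2 := LinearMap.congr_fun (LinearMap.congr_fun h1 x) y
  rw [LinearMap.neg_apply, LinearMap.neg_apply, LinearMap.compl₂_apply, LinearMap.comp_apply] at h2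
  exact h2

theorem tBsk (hBas : BasStmt) (hTau : TauStmt) : BskStmt := by
  intro m
  refine ⟨fun a b => ?_, fun y hy a b => ?_, fun D hD => Bsk_three hBas hTau hD,
    fun x hx => ?_, fun x hx a => ?_⟩
  · rw [Bsk_def', Bsk_def, Matrix.trace_mul_comm]
  · have h1 : adm (ee m) (adm y a) = adm y (adm (ee m) a) := by
      rw [Str_jac, adm_apply (ee m) y, hy, sub_self]
      rw [adm_apply (0 : Gl m), zero_mul, mul_zero, sub_zero, add_zero]
    rw [Bsk_def, h1, Tau_inv, Bsk_def]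
  · have h1 : adm (ee m) x = 0 := by
      ext i j
      have h2 := hx (Matrix.single j i 1)
      rw [Bsk_def', Matrix.trace_single_mul, neg_eq_zero] at h2
      simpa using h2
    rw [adm_apply] at h1
    exact sub_eq_zero.mp h1
  · have h1 : adm (ee m) x = 0 := by
      rw [adm_apply, hx, sub_self]
    refine ⟨?_, ?_⟩
    · rw [Bsk_def', h1, mul_zero, trace_zero, neg_zero]
    · rw [Bsk_def, h1, zero_mul, trace_zero]

end MP3b
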