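import Pool.Agent.Lib.MP_3b3418_ag.SpecA

/-!
# MP_3b3418_ag, task Cen: the centraliser of `e`
-/

set_option autoImplicit false

namespace MP3b

open Matrix

theorem Cen_exp (hBas : BasStmt) {m : ℕ} (x : Gl m) :
    ∃ c : Ix m → ℂ, x = ∑ p : Ix m, c p • vv m (p.1 : ℕ) (p.2 : ℕ) := by
  have h1 : x ∈ Submodule.span ℂ (Set.range fun p : Ix m => vv m (p.1 : ℕ) (p.2 : ℕ)) := by
    rw [(hBas m).2]
    trivial
  rw [Submodule.mem_span_range_iff_exists_fun] at h1
  obtain ⟨c, hc⟩ := h1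
  exact ⟨c, hc.symm⟩

theorem Cen_one (hStr : StrStmt) (hBas : BasStmt) {m : ℕ} (x : Gl m)
    (hx : ee m * x = x * ee m) :
    ∃ c : Fin m → ℂ, x = ∑ d, c d • vv m (d : ℕ) (2 * (d : ℕ)) := by
  obtain ⟨c, hc⟩ := Cen_exp hBas x
  have h0 : adm (ff m) (adm (ee m) x) = 0 := by
    rw [adm_apply (ee m), hx, sub_self, map_zero]
  rw [hc, map_sum, map_sum] at h0
  have h1 : ∑ p : Ix m, (c p * ((((p.2 : ℕ) : ℂ) + 1) * (2 * ((p.1 : ℕ) : ℂ) - ((p.2 : ℕ) : ℂ)))) •
      vv m (p.1 : ℕ) (p.2 : ℕ) = 0 := by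
    rw [← h0]
    refine Finset.sum_congr rfl fun p _ => ?_
    rw [map_smul, map_smul, ← vv_succ, (hStr m _ _).2.1, smul_smul]
  have h2 := Fintype.linearIndependent_iff.mp (hBas m).1 _ h1
  have h3 : ∀ p : Ix m, (p.2 : ℕ) ≠ 2 * (p.1 : ℕ) → c p = 0 := by
    intro p hp
    have h4 := h2 p
    rw [mul_eq_zero, mul_eq_zero] at h4
    rcases h4 with h4 | h4 | h4
    · exact h4
    · exfalso
      have h5 : (((p.2 : ℕ) + 1 : ℕ) : ℂ) = 0 := by
        push_cast
        exact h4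
      rw [Nat.cast_eq_zero] at h5
      omega
    · exfalso
      apply hp
      have h5 : (((p.2 : ℕ) : ℕ) : ℂ) = ((2 * (p.1 : ℕ) : ℕ) : ℂ) := by
        push_cast
        linear_combination -h4
      exact_mod_cast h5
  refine ⟨fun d => c ⟨d, Fin.last _⟩, ?_⟩
  rw [hc, Fintype.sum_sigma]
  refine Finset.sum_congr rfl fun d _ => ?_
  rw [Finset.sum_eq_single (Fin.last (2 * (d : ℕ)))]
  · rfl
  · intro i _ hi
    rw [h3 ⟨d, i⟩, zero_smul]
    intro h
    exact hi (Fin.ext h)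
  · intro h
    exact absurd (Finset.mem_univ _) h

theorem Cen_D {m : ℕ} {D : Module.End ℂ (Gl m)} (hD : IsFp m D) (d : ℕ) (hd : d < m) :
    D (vv m d (2 * d)) = 0 := by
  cases d with
  | zero => exact hD.zero 0 hd
  | succ d =>
    have h1 := hD.succ (d + 1) hd (2 * d + 1) (by omega)
    have h2 : 2 * (d + 1) = 2 * d + 1 + 1 := by ring
    rw [h2, h1]
    have h3 : ((((2 * d + 1 : ℕ) : ℂ) + 1) * (2 * ((d + 1 : ℕ) : ℂ) - (((2 * d + 1 : ℕ) : ℂ) + 1))) =
        0 := by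
      push_cast
      ring
    rw [h3, zero_smul]

theorem Cen_three (hTri : TriStmt) (hEpw : EpwStmt) (hStr : StrStmt) (hBas : BasStmt) (m d : ℕ)
    (hd : d < m) : ∃ c : ℂ, c ≠ 0 ∧ ee m ^ d = c • vv m d (2 * d) := by
  obtain ⟨c, hc⟩ := Cen_one hStr hBas (ee m ^ d) (by rw [← pow_succ', ← pow_succ])
  have h1 : adm (hh m) (ee m ^ d) = (2 * (d : ℂ)) • ee m ^ d := by
    ext i j
    rw [(hTri m).2.2.2, Matrix.smul_apply, (hEpw m d).1, smul_eq_mul]
    by_cases h : (j : ℕ) = (i : ℕ) + d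
    · rw [if_pos h, h]
      push_cast
      ring
    · rw [if_neg h, mul_zero, mul_zero]
  rw [hc, map_sum, Finset.smul_sum, ← sub_eq_zero, ← Finset.sum_sub_distrib] at h1
  have h2 : ∑ d' : Fin m, (c d' * (2 * (((d' : ℕ)) : ℂ) - 2 * (d : ℂ))) •
      vv m (d' : ℕ) (2 * (d' : ℕ)) = 0 := by
    rw [← h1]
    refine Finset.sum_congr rfl fun d' _ => ?_
    rw [map_smul, (hStr m _ _).1, smul_smul, smul_smul, ← sub_smul]
    congr 1
    push_cast
    ring
  have hinj : Function.Injective (fun d' : Fin m => (⟨d', Fin.last _⟩ : Ix m)) := by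
    intro a b hab
    exact congrArg Sigma.fst hab
  have hli := (hBas m).1.comp _ hinj
  have h3 := Fintype.linearIndependent_iff.mp hli _ h2
  have h4 : ∀ d' : Fin m, (d' : ℕ) ≠ d → c d' = 0 := by
    intro d' hne
    have h5 := h3 d'
    rw [mul_eq_zero] at h5
    rcases h5 with h5 | h5
    · exact h5
    · exfalso
      apply hne
      have h6 : (((d' : ℕ)) : ℂ) = (d : ℂ) := by linear_combination h5 / 2
      exact_mod_cast h6
  have h5 : ee m ^ d = c ⟨d, hd⟩ • vv m d (2 * d) := by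
    rw [hc, Finset.sum_eq_single ⟨d, hd⟩]
    · intro d' _ hne
      rw [h4 d' (fun h => hne (Fin.ext h)), zero_smul]
    · intro h
      exact absurd (Finset.mem_univ _) h
  refine ⟨c ⟨d, hd⟩, ?_, h5⟩
  intro h0
  rw [h0, zero_smul] at h5
  have h6 := (hEpw m d).1 ⟨0, by omega⟩ ⟨d, hd⟩
  rw [h5, if_pos (by simp)] at h6
  simp at h6

theorem tCen (hTri : TriStmt) (hEpw : EpwStmt) (hStr : StrStmt) (hBas : BasStmt) : CenStmt := by
  intro m
  refine ⟨fun x hx => Cen_one hStr hBas x hx, fun D hD x hx => ?_,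
    fun d hd => Cen_three hTri hEpw hStr hBas m d hd, fun x hx => ?_⟩
  · obtain ⟨c, hc⟩ := Cen_one hStr hBas x hx
    rw [hc, map_sum]
    refine Finset.sum_eq_zero fun d _ => ?_
    rw [map_smul, Cen_D hD _ d.2, smul_zero]
  · obtain ⟨c, hc⟩ := Cen_one hStr hBas x hx
    intro i j hij
    rw [hc, Matrix.sum_apply]
    refine Finset.sum_eq_zero fun d _ => ?_
    obtain ⟨a, ha, hae⟩ := Cen_three hTri hEpw hStr hBas m d d.2
    have h1 : vv m (d : ℕ) (2 * (d : ℕ)) = a⁻¹ • ee m ^ (d : ℕ) := by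
      rw [hae, smul_smul, inv_mul_cancel₀ ha, one_smul]
    have hij' : (j : ℕ) < (i : ℕ) := hij
    rw [h1, Matrix.smul_apply, Matrix.smul_apply, (hEpw m d).1, if_neg (by omega), smul_zero,
      smul_zero]

end MP3b
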