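import Pool.Agent.Lib.MP_3b3418_ag.SpecB

/-!
# Cnj: regular elements of `𝔫` are conjugate to `e` under `B`
-/

set_option autoImplicit false

namespace MP3b

open Matrix

theorem Cnj_mul_ee {m : ℕ} (B : Gl m) (i k : Fin m) (h : (k : ℕ) ≠ 0) :
    (B * ee m) i k = B i ⟨(k : ℕ) - 1, by have := k.2; omega⟩ := by
  rw [Matrix.mul_apply]
  rw [Finset.sum_eq_single (⟨(k : ℕ) - 1, by have := k.2; omega⟩ : Fin m)]
  · have h1 : (k : ℕ) = (k : ℕ) - 1 + 1 := by omega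
    simp [ee, ← h1]
  · intro l _ hl
    have hl' : ¬ ((k : ℕ) = (l : ℕ) + 1) := fun h' => hl (Fin.ext (by
      change (l : ℕ) = (k : ℕ) - 1
      omega))
    simp [ee, hl']
  · intro h'
    exact absurd (Finset.mem_univ _) h'

theorem Cnj_mul_ee_zero {m : ℕ} (B : Gl m) (i k : Fin m) (h : (k : ℕ) = 0) :
    (B * ee m) i k = 0 := by
  rw [Matrix.mul_apply]
  refine Finset.sum_eq_zero fun l _ => ?_
  have hl' : ¬ ((k : ℕ) = (l : ℕ) + 1) := by omega
  simp [ee, hl']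

theorem Cnj_pow_zero {m : ℕ} (ν : Gl m) (hν : ν ∈ nil m) (r : ℕ) :
    ∀ i l : Fin m, ¬ ((i : ℕ) + r ≤ l) → (ν ^ r) i l = 0 := by
  induction r with
  | zero =>
    intro i l h
    rw [pow_zero, Matrix.one_apply_ne]
    intro hil
    subst hil
    omega
  | succ r ih =>
    intro i l h
    rw [pow_succ, Matrix.mul_apply]
    refine Finset.sum_eq_zero fun k _ => ?_
    by_cases h1 : (i : ℕ) + r ≤ k
    · rw [hν k l (by rw [Fin.le_def]; omega), mul_zero]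
    · rw [ih i k h1, zero_mul]

theorem Cnj_pow_ne {m : ℕ} (ν : Gl m) (hν : ν ∈ nil m)
    (hr : ∀ i j : Fin m, (j : ℕ) = (i : ℕ) + 1 → ν i j ≠ 0) (r : ℕ) :
    ∀ i l : Fin m, (l : ℕ) = (i : ℕ) + r → (ν ^ r) i l ≠ 0 := by
  induction r with
  | zero =>
    intro i l h
    have hil : i = l := Fin.ext (by omega)
    subst hil
    rw [pow_zero, Matrix.one_apply_eq]
    exact one_ne_zero
  | succ r ih =>
    intro i l h
    rw [pow_succ, Matrix.mul_apply]
    rw [Finset.sum_eq_single (⟨(i : ℕ) + r, by have := l.2; omega⟩ : Fin m)]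
    · exact mul_ne_zero (ih _ _ rfl) (hr _ _ (by change (l : ℕ) = (i : ℕ) + r + 1; omega))
    · intro k _ hk
      by_cases h1 : (i : ℕ) + r ≤ k
      · have h2 : (k : ℕ) ≠ (i : ℕ) + r := fun h' => hk (Fin.ext h')
        rw [hν k l (by rw [Fin.le_def]; omega), mul_zero]
      · rw [Cnj_pow_zero ν hν r i k h1, zero_mul]
    · intro h'
      exact absurd (Finset.mem_univ _) h'

theorem tCnj : CnjStmt := by
  intro m hm ν hr
  let ℓ : Fin m := ⟨m - 1, by omega⟩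
  let b₀ : Gl m := Matrix.of fun i k => ((ν : Gl m) ^ (m - 1 - (k : ℕ))) i ℓ
  have hb₀ : ∀ i k : Fin m, b₀ i k = ((ν : Gl m) ^ (m - 1 - (k : ℕ))) i ℓ := fun _ _ => rfl
  have hup : Upper b₀ := by
    intro i k hik
    rw [hb₀]
    refine Cnj_pow_zero _ ν.2 _ _ _ ?_
    change ¬ ((i : ℕ) + (m - 1 - (k : ℕ)) ≤ m - 1)
    have h1 : (k : ℕ) < i := hik
    have := i.2
    omega
  have hdet : b₀.det ≠ 0 := by
    rw [Matrix.det_of_isUpperTriangular hup.blockTriangular]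
    refine Finset.prod_ne_zero_iff.2 fun i _ => ?_
    rw [hb₀]
    refine Cnj_pow_ne _ ν.2 hr _ _ _ ?_
    change m - 1 = (i : ℕ) + (m - 1 - (i : ℕ))
    have := i.2
    omega
  have hcomm : (ν : Gl m) * b₀ = b₀ * ee m := by
    ext i k
    have h1 : ((ν : Gl m) * b₀) i k = ((ν : Gl m) ^ (m - 1 - (k : ℕ) + 1)) i ℓ := by
      rw [pow_succ', Matrix.mul_apply, Matrix.mul_apply]
      rfl
    rw [h1]
    by_cases hk : (k : ℕ) = 0
    · rw [Cnj_mul_ee_zero _ _ _ hk]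
      refine Cnj_pow_zero _ ν.2 _ _ _ ?_
      change ¬ ((i : ℕ) + (m - 1 - (k : ℕ) + 1) ≤ m - 1)
      omega
    · rw [Cnj_mul_ee _ _ _ hk, hb₀]
      have h2 : m - 1 - (k : ℕ) + 1 = m - 1 - ((k : ℕ) - 1) := by
        have := k.2
        omega
      rw [h2]
  obtain ⟨κ, hκ⟩ := IsAlgClosed.exists_pow_nat_eq (b₀.det)⁻¹ (n := m) (by omega)
  let b : SLm m := ⟨κ • b₀, by
    rw [Matrix.det_smul, Fintype.card_fin, hκ, inv_mul_cancel₀ hdet]⟩
  have hb : (b : Gl m) = κ • b₀ := rfl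
  refine ⟨b, ?_, ?_⟩
  · intro i j hij
    rw [hb, Matrix.smul_apply, hup i j hij, smul_zero]
  · have h1 : (ν : Gl m) * (b : Gl m) = (b : Gl m) * ee m := by
      rw [hb, mul_smul_comm, smul_mul_assoc, hcomm]
    rw [cj_apply, h1, ← mul_assoc, inv_mul_coe, one_mul]

end MP3b
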