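import Pool.Agent.Lib.MP_3b3418_ag.SpecB

/-!
# A polynomial with vanishing derivatives is constant on `SL_m`
-/

set_option autoImplicit false

namespace MP3b

open Matrix

theorem Con_curve (hDev : DevStmt) {m : ℕ} {P : Pl m}
    (hP : ∀ y : Gl m, y.trace = 0 → ∀ g : SLm m, evm (g : Gl m) (Rd y P) = 0)
    (γ : ℂ → SLm m) (y : Gl m) (hy : y.trace = 0)
    (hγ : ∀ (t₀ : ℂ) (i j : Fin m),
      HasDerivAt (fun t => (γ t : Gl m) i j) (((γ t₀ : Gl m) * y) i j) t₀) :
    evm (γ 1 : Gl m) P = evm (γ 0 : Gl m) P := by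
  have h : ∀ t₀, HasDerivAt (fun t => evm (γ t : Gl m) P) 0 t₀ := by
    intro t₀
    have h1 := hDev m P (fun t => (γ t : Gl m)) y t₀ (hγ t₀)
    rwa [hP y hy (γ t₀)] at h1
  exact is_const_of_deriv_eq_zero (fun t => (h t).differentiableAt) (fun t => (h t).deriv) 1 0

/-- The right translation by `x` does not change the values of `P`. -/
def Con_Inv {m : ℕ} (P : Pl m) (x : SLm m) : Prop :=
  ∀ g : SLm m, evm ((g * x : SLm m) : Gl m) P = evm (g : Gl m) P

theorem Con_Inv.mul {m : ℕ} {P : Pl m} {x y : SLm m} (hx : Con_Inv P x) (hy : Con_Inv P y) :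
    Con_Inv P (x * y) := fun g => by rw [← mul_assoc, hy, hx]

theorem Con_Inv.one {m : ℕ} (P : Pl m) : Con_Inv P 1 := fun g => by rw [mul_one]

theorem Con_transvec (hDev : DevStmt) {m : ℕ} {P : Pl m}
    (hP : ∀ y : Gl m, y.trace = 0 → ∀ g : SLm m, evm (g : Gl m) (Rd y P) = 0)
    {i j : Fin m} (hij : i ≠ j) (c : ℂ) (x : SLm m)
    (hx : (x : Gl m) = Matrix.transvection i j c) : Con_Inv P x := by
  intro g
  let E : Gl m := Matrix.single i j c
  have hE : E * E = 0 := Matrix.single_mul_single_of_ne _ _ _ _ hij.symm _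
  let γ : ℂ → SLm m := fun t => g *
    ⟨Matrix.transvection i j (t * c), Matrix.det_transvection_of_ne i j hij (t * c)⟩
  have hγ : ∀ t, (γ t : Gl m) = (g : Gl m) + t • ((g : Gl m) * E) := by
    intro t
    change (g : Gl m) * (1 + Matrix.single i j (t * c)) = _
    rw [mul_add, mul_one, ← smul_eq_mul t c, ← Matrix.smul_single, mul_smul_comm]
  have h := Con_curve hDev hP γ E (Matrix.trace_single_eq_of_ne i j c hij) (fun t₀ a b => by
    have h1 : (γ t₀ : Gl m) * E = (g : Gl m) * E := by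
      rw [hγ, add_mul, smul_mul_assoc, mul_assoc, hE, mul_zero, smul_zero, add_zero]
    rw [h1]
    have h2 : (fun t => (γ t : Gl m) a b) = fun t => (g : Gl m) a b + t * ((g : Gl m) * E) a b := by
      funext t
      rw [hγ, Matrix.add_apply, Matrix.smul_apply, smul_eq_mul]
    rw [h2]
    have h3 := ((hasDerivAt_id t₀).mul_const (((g : Gl m) * E) a b)).const_add ((g : Gl m) a b)
    rw [one_mul] at h3
    exact h3)
  have h0 : γ 0 = g := by
    refine Subtype.ext ?_
    rw [hγ, zero_smul, add_zero]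
  have h1 : γ 1 = g * x := by
    refine Subtype.ext ?_
    rw [hγ, one_smul, Matrix.SpecialLinearGroup.coe_mul, hx]
    change _ = (g : Gl m) * (1 + E)
    rw [mul_add, mul_one]
  rw [h0, h1] at h
  exact h

theorem Con_log {m : ℕ} (d : Fin m → ℂ) (hd : ∏ i, d i = 1) :
    ∃ a : Fin m → ℂ, (∀ i, Complex.exp (a i) = d i) ∧ ∑ i, a i = 0 := by
  have hne : ∀ i, d i ≠ 0 := by
    intro i h0
    have : ∏ i, d i = 0 := Finset.prod_eq_zero (Finset.mem_univ i) h0
    rw [hd] at this
    exact one_ne_zero this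
  rcases m with _ | m
  · exact ⟨fun _ => 0, fun i => i.elim0, by simp⟩
  · have h1 : Complex.exp (∑ i, Complex.log (d i)) = 1 := by
      rw [Complex.exp_sum, ← hd]
      exact Finset.prod_congr rfl fun i _ => Complex.exp_log (hne i)
    obtain ⟨k, hk⟩ := Complex.exp_eq_one_iff.1 h1
    refine ⟨Function.update (fun i => Complex.log (d i)) 0
      (Complex.log (d 0) - k * (2 * Real.pi * Complex.I)), fun i => ?_, ?_⟩
    · by_cases h : i = 0
      · subst h
        rw [Function.update_self, Complex.exp_sub, Complex.exp_log (hne 0),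
          Complex.exp_eq_one_iff.2 ⟨k, rfl⟩, div_one]
      · rw [Function.update_of_ne h, Complex.exp_log (hne i)]
    · rw [Fin.sum_univ_succ, Function.update_self]
      have h2 : ∀ i : Fin m, Function.update (fun i => Complex.log (d i)) 0
          (Complex.log (d 0) - k * (2 * Real.pi * Complex.I)) i.succ = Complex.log (d i.succ) :=
        fun i => Function.update_of_ne (Fin.succ_ne_zero i) _ _
      rw [Finset.sum_congr rfl fun i _ => h2 i, sub_add_eq_add_sub, ← Fin.sum_univ_succ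
        (fun i => Complex.log (d i)), hk, sub_self]

theorem Con_diag (hDev : DevStmt) {m : ℕ} {P : Pl m}
    (hP : ∀ y : Gl m, y.trace = 0 → ∀ g : SLm m, evm (g : Gl m) (Rd y P) = 0)
    (x : SLm m) (d : Fin m → ℂ) (hx : (x : Gl m) = Matrix.diagonal d) : Con_Inv P x := by
  intro g
  have hd : ∏ i, d i = 1 := by
    rw [← Matrix.det_diagonal, ← hx]
    exact x.2
  obtain ⟨a, ha, ha0⟩ := Con_log d hd
  let γ : ℂ → SLm m := fun t => g * ⟨Matrix.diagonal fun i => Complex.exp (t * a i), by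
    rw [Matrix.det_diagonal, ← Complex.exp_sum, ← Finset.mul_sum, ha0, mul_zero, Complex.exp_zero]⟩
  have hγ : ∀ t i j, (γ t : Gl m) i j = (g : Gl m) i j * Complex.exp (t * a j) := by
    intro t i j
    change ((g : Gl m) * Matrix.diagonal fun i => Complex.exp (t * a i)) i j = _
    rw [Matrix.mul_diagonal]
  have h := Con_curve hDev hP γ (Matrix.diagonal a) (by rw [Matrix.trace_diagonal, ha0])
    (fun t₀ i j => by
      rw [Matrix.mul_diagonal, hγ]
      have h2 : (fun t => (γ t : Gl m) i j) =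
          fun t => (g : Gl m) i j * Complex.exp (t * a j) := funext fun t => hγ t i j
      rw [h2]
      have h3 := (((hasDerivAt_id t₀).mul_const (a j)).cexp).const_mul ((g : Gl m) i j)
      rw [one_mul, ← mul_assoc] at h3
      exact h3)
  have h0 : γ 0 = g := by
    refine Subtype.ext (Matrix.ext fun i j => ?_)
    rw [hγ, zero_mul, Complex.exp_zero, mul_one]
  have h1 : γ 1 = g * x := by
    refine Subtype.ext (Matrix.ext fun i j => ?_)
    rw [hγ, one_mul, ha]
    change _ = ((g : Gl m) * (x : Gl m)) i j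
    rw [hx, Matrix.mul_diagonal]
  rw [h0, h1] at h
  exact h

theorem Con_list (hDev : DevStmt) {m : ℕ} {P : Pl m}
    (hP : ∀ y : Gl m, y.trace = 0 → ∀ g : SLm m, evm (g : Gl m) (Rd y P) = 0)
    (L : List (Matrix.TransvectionStruct (Fin m) ℂ)) :
    ∃ x : SLm m, (x : Gl m) = (L.map Matrix.TransvectionStruct.toMatrix).prod ∧ Con_Inv P x := by
  induction L with
  | nil => exact ⟨1, rfl, Con_Inv.one P⟩
  | cons T L ih =>
    obtain ⟨x, hx, hx'⟩ := ih
    let y : SLm m := ⟨T.toMatrix, T.det⟩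
    have hy : (y : Gl m) = T.toMatrix := rfl
    have hy' : Con_Inv P y := Con_transvec hDev hP T.hij T.c y hy
    refine ⟨y * x, ?_, hy'.mul hx'⟩
    rw [List.map_cons, List.prod_cons, ← hx, ← hy, Matrix.SpecialLinearGroup.coe_mul]

theorem Con_all (hDev : DevStmt) {m : ℕ} {P : Pl m}
    (hP : ∀ y : Gl m, y.trace = 0 → ∀ g : SLm m, evm (g : Gl m) (Rd y P) = 0)
    (x : SLm m) : Con_Inv P x := by
  obtain ⟨L, L', d, hd⟩ :=
    Matrix.Pivot.exists_list_transvec_mul_diagonal_mul_list_transvec (x : Gl m)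
  obtain ⟨y, hy, hy'⟩ := Con_list hDev hP L
  obtain ⟨z, hz, hz'⟩ := Con_list hDev hP L'
  rw [← hy, ← hz] at hd
  have h1 : ((y⁻¹ * x * z⁻¹ : SLm m) : Gl m) = Matrix.diagonal d := by
    change ((y⁻¹ : SLm m) : Gl m) * (x : Gl m) * ((z⁻¹ : SLm m) : Gl m) = _
    rw [hd]
    have e1 := inv_mul_coe y
    have e2 := mul_inv_coe z
    calc ((y⁻¹ : SLm m) : Gl m) * ((y : Gl m) * Matrix.diagonal d * (z : Gl m)) *
          ((z⁻¹ : SLm m) : Gl m)
        = (((y⁻¹ : SLm m) : Gl m) * (y : Gl m)) * Matrix.diagonal d *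
          ((z : Gl m) * ((z⁻¹ : SLm m) : Gl m)) := by simp only [mul_assoc]
      _ = Matrix.diagonal d := by rw [e1, e2, one_mul, mul_one]
  have h2 := (hy'.mul (Con_diag hDev hP _ d h1)).mul hz'
  have h3 : y * (y⁻¹ * x * z⁻¹) * z = x := by group
  rwa [h3] at h2

theorem tCon (hDev : DevStmt) : ConStmt := by
  intro m P hP g g'
  have h : ∀ x : SLm m, evm (x : Gl m) P = evm ((1 : SLm m) : Gl m) P := by
    intro x
    have h1 := Con_all hDev hP x 1
    rwa [one_mul] at h1
  rw [h g, h g']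

end MP3b
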