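import Pool.Agent.Lib.MP_3b3418_ag.SpecB

/-!
# The functionals `cov ξ`
-/

set_option autoImplicit false

namespace MP3b

open Matrix

theorem Cov_rep {m : ℕ} (l : Gl m →ₗ[ℂ] ℂ) : ∃ α : Gl m, ∀ y, (α * y).trace = l y := by
  classical
  refine ⟨Matrix.of fun i j => l (Matrix.single j i 1), fun y => ?_⟩
  conv_rhs => rw [Matrix.matrix_eq_sum_single y]
  rw [map_sum, Finset.sum_congr rfl fun i _ => map_sum l _ _, Finset.sum_comm]
  unfold Matrix.trace
  refine Finset.sum_congr rfl fun i _ => ?_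
  rw [Matrix.diag_apply, Matrix.mul_apply]
  refine Finset.sum_congr rfl fun j _ => ?_
  rw [Matrix.of_apply]
  have h : Matrix.single j i (y j i) = y j i • Matrix.single j i (1 : ℂ) := by
    rw [Matrix.smul_single, smul_eq_mul, mul_one]
  rw [h, map_smul, smul_eq_mul, mul_comm]

theorem Cov_ext {m : ℕ} (S : Submodule ℂ (Gl m)) (l : S →ₗ[ℂ] ℂ) :
    ∃ α : Gl m, ∀ y : S, (α * (y : Gl m)).trace = l y := by
  obtain ⟨l', hl'⟩ := LinearMap.exists_extend l
  obtain ⟨α, hα⟩ := Cov_rep l'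
  refine ⟨α, fun y => ?_⟩
  rw [hα, ← hl']
  rfl

theorem Cov_cj {m : ℕ} (b : SLm m) (α y : Gl m) : (cj b⁻¹ α * y).trace = (α * cj b y).trace := by
  rw [cj_apply, cj_apply, inv_inv, mul_assoc, Matrix.trace_mul_comm]
  simp only [mul_assoc]

theorem tCov : CovStmt := by
  intro m
  refine ⟨fun l => ?_, fun b hb ξ p => ?_, fun c ξ p => ?_⟩
  · obtain ⟨α, hα⟩ := Cov_ext (slm m) (l ∘ₗ LinearMap.inl ℂ (slm m) (nil m))
    obtain ⟨β, hβ⟩ := Cov_ext (nil m) (l ∘ₗ LinearMap.inr ℂ (slm m) (nil m))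
    refine ⟨(α, β), LinearMap.ext fun p => ?_⟩
    rw [cov_apply, hα, hβ, LinearMap.comp_apply, LinearMap.comp_apply, ← map_add]
    congr 1
    simp
  · rw [cov_apply, cov_apply, Cov_cj, Cov_cj]
    rfl
  · rw [cov_apply, cov_apply]
    change (ξ.1 * (p.1 : Gl m)).trace + ((c • ξ.2) * (p.2 : Gl m)).trace =
      (ξ.1 * (p.1 : Gl m)).trace + (ξ.2 * (c • (p.2 : Gl m))).trace
    rw [smul_mul_assoc, mul_smul_comm]

end MP3b
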