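import Pool.Agent.Lib.MP_3b3418_ag.SpecB

/-!
# `Φ` is constant on `SL_m`
-/

set_option autoImplicit false

namespace MP3b

open Matrix

private theorem Cst_act_zero {m j : ℕ} (Ψ : Wm m j) : act (0 : Module.End ℂ (Gl m)) Ψ = 0 := by
  have h := act_smul (0 : ℂ) (0 : Module.End ℂ (Gl m)) Ψ
  rwa [zero_smul, zero_smul] at h

private theorem Cst_RW_zero {m j : ℕ} (Ψ : Wm m j) : RW (0 : Gl m) Ψ = 0 :=
  MultilinearMap.ext fun _ => Rd_zero _

private theorem Cst_mem {m j : ℕ} {Φ : Wm m j} {A : Module.End ℂ (Gl m)}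
    (h : act A Φ ∈ JJ m j) : ((0 : Gl m), A) ∈ SS Φ := by
  refine ⟨trace_zero _ _, ?_⟩
  change RW (0 : Gl m) Φ - act A Φ ∈ JJ m j
  rw [Cst_RW_zero, zero_sub]
  exact (JJ m j).neg_mem h

theorem tCst (hEpw : EpwStmt) (hEfp : EfpStmt) (hGen : GenStmt) (hAA : AAStmt) (hAct : ActStmt)
    (hLia : LiaStmt) (hPow : PowStmt) (hFff : FffStmt) (hCon : ConStmt) (hMtw : MtwStmt) :
    CstStmt := by
  intro m j hm Φ hΦ x g g'
  obtain ⟨D, hD⟩ := hEfp m
  have hW0 : Φ.toMultilinearMap ∈ W0 m j := by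
    intro x g k hk
    change evm (g : Gl m) (Φ x) = 0
    rw [hΦ.cen x k hk, map_zero]
  have hS : IsS m D (SS Φ.toMultilinearMap) := by
    refine ⟨hLia m j Φ.toMultilinearMap, hPow m j Φ hΦ, hFff m j Φ hΦ D hD, fun A hA => ?_⟩
    exact Cst_mem ((hAct m j).2.2.2.2 A hA _ hW0)
  have key : ∀ y : Gl m, y.trace = 0 →
      (y, (0 : Module.End ℂ (Gl m))) ∈ SS Φ.toMultilinearMap := by
    rcases Nat.lt_or_ge 2 m with h3 | h2
    · exact hAA m h3 D hD _ hS
    · have h4 : m = 2 := by omega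
      subst h4
      obtain ⟨m1, m2⟩ := hMtw j Φ hΦ D hD
      refine hGen 2 (by omega) _ hS.brk (fun k hk => ?_) ?_
      · rcases Nat.lt_or_ge 1 k with hk2 | hk1
        · have h5 : ee 2 ^ k = 0 := by
            ext a b
            rw [(hEpw 2 k).1, if_neg (by omega)]
            rfl
          rw [h5]
          exact Submodule.zero_mem _
        · have h5 : k = 1 := by omega
          subst h5
          have h6 := Submodule.sub_mem _ (hS.pow 1 le_rfl) (Cst_mem m1)
          rw [Prod.mk_sub_mk, sub_zero] at h6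
          have h7 : adm (ee 2 ^ 1) - adm (ee 2) = 0 := by rw [pow_one, sub_self]
          rw [h7] at h6
          exact h6
      · have h6 := Submodule.sub_mem _ hS.fp (Cst_mem m2)
        rw [Prod.mk_sub_mk, sub_zero, sub_self] at h6
        exact h6
  refine hCon m (Φ x) (fun y hy g => ?_) g g'
  have h1 := (key y hy).2 x g
  change evm (g : Gl m) ((RW y Φ.toMultilinearMap - act 0 Φ.toMultilinearMap) x) = 0 at h1
  rw [Cst_act_zero, sub_zero] at h1
  exact h1

end MP3b
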