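import Pool.Agent.Lib.MP_3b3418_ag.SpecB

/-!
# Derivative of a multilinear form along curves
-/

set_option autoImplicit false

namespace MP3b

open Matrix

/-- expansion of a multilinear form in matrix entries -/
theorem Dml_expand {m j : ℕ} (M : MultilinearMap ℂ (fun _ : Fin j => Gl m) ℂ) (x : Fin j → Gl m) :
    M x = ∑ r : Fin j → Fin m × Fin m, (∏ k, x k (r k).1 (r k).2) *
      M (fun k => Matrix.single (r k).1 (r k).2 1) := by
  classical
  have h1 : x = fun k => ∑ q : Fin m × Fin m, x k q.1 q.2 • Matrix.single q.1 q.2 (1 : ℂ) := by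
    funext k
    conv_lhs => rw [Matrix.matrix_eq_sum_single (x k)]
    rw [Fintype.sum_prod_type]
    refine Finset.sum_congr rfl fun a _ => Finset.sum_congr rfl fun b _ => ?_
    rw [Matrix.smul_single, smul_eq_mul, mul_one]
  conv_lhs => rw [h1]
  rw [MultilinearMap.map_sum]
  refine Finset.sum_congr rfl fun r _ => ?_
  rw [MultilinearMap.map_smul_univ, smul_eq_mul]

theorem tDml : DmlStmt := by
  classical
  intro m j M γ δ t₀ h
  have h1 : (fun t => M fun k => γ k t) = fun t => ∑ r : Fin j → Fin m × Fin m,
      (∏ k, γ k t (r k).1 (r k).2) * M (fun k => Matrix.single (r k).1 (r k).2 1) := by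
    funext t
    exact Dml_expand M _
  have h2 : (∑ k, M (Function.update (fun l => γ l t₀) k (δ k))) =
      ∑ r : Fin j → Fin m × Fin m,
        (∑ k, (∏ l ∈ Finset.univ.erase k, γ l t₀ (r l).1 (r l).2) * δ k (r k).1 (r k).2) *
          M (fun k => Matrix.single (r k).1 (r k).2 1) := by
    rw [Finset.sum_congr rfl fun k _ => Dml_expand M (Function.update (fun l => γ l t₀) k (δ k)),
      Finset.sum_comm]
    refine Finset.sum_congr rfl fun r _ => ?_
    rw [Finset.sum_mul]
    refine Finset.sum_congr rfl fun k _ => ?_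
    congr 1
    rw [← Finset.mul_prod_erase _ _ (Finset.mem_univ k), Function.update_self, mul_comm]
    congr 1
    refine Finset.prod_congr rfl fun l hl => ?_
    rw [Function.update_of_ne (Finset.ne_of_mem_erase hl)]
  rw [h1, h2]
  refine HasDerivAt.fun_sum fun r _ => ?_
  refine HasDerivAt.mul_const ?_ _
  have h3 := HasDerivAt.fun_finsetProd (u := Finset.univ) (x := t₀)
    (f := fun k t => γ k t (r k).1 (r k).2) (f' := fun k => δ k (r k).1 (r k).2)
    fun k _ => h k (r k).1 (r k).2
  simpa only [smul_eq_mul] using h3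

end MP3b
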