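import Pool.Agent.Lib.MP_3b3418_ag.SpecB

/-!
# From the fibre over `e` to the whole Springer resolution
-/

set_option autoImplicit false

namespace MP3b

open Matrix

private theorem Dns_congr {m j : ℕ} {k : ℤ} {Q : (Gl m × Gl m) [⋀^Fin j]→ₗ[ℂ] Pl2 m}
    (hQ : IsPD k Q) (ξ ξ' : Fin j → Gl m × Gl m) (h : ∀ i, cov (ξ i) = cov (ξ' i)) :
    Q ξ = Q ξ' := by
  classical
  have key : ∀ s : Finset (Fin j), Q (s.piecewise ξ' ξ) = Q ξ := by
    intro s
    induction s using Finset.induction_on with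
    | empty => rw [Finset.piecewise_empty]
    | insert a s ha ih =>
      rw [Finset.piecewise_insert]
      have h1 : s.piecewise ξ' ξ = Function.update (s.piecewise ξ' ξ) a (ξ a) := by
        rw [← Finset.piecewise_eq_of_notMem s ξ' ξ ha, Function.update_eq_self]
      rw [← ih]
      conv_rhs => rw [h1]
      rw [← sub_eq_zero, ← AlternatingMap.map_update_sub]
      apply hQ.zero _ a
      rw [Function.update_self, map_sub, h a, sub_self]
  rw [← key Finset.univ, Finset.piecewise_univ]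

private theorem Dns_cj_cj {m : ℕ} (b : SLm m) (y : Gl m) : cj b⁻¹ (cj b y) = y := by
  rw [cj_apply, cj_apply, inv_inv]
  calc (b : Gl m) * (((b⁻¹ : SLm m) : Gl m) * (y * (b : Gl m)) * ((b⁻¹ : SLm m) : Gl m))
      = ((b : Gl m) * ((b⁻¹ : SLm m) : Gl m)) * y * ((b : Gl m) * ((b⁻¹ : SLm m) : Gl m)) := by
        simp only [mul_assoc]
    _ = y := by rw [mul_inv_coe, one_mul, mul_one]

private theorem Dns_trace {m : ℕ} (b : SLm m) (x y : Gl m) :
    (cj b x * y).trace = (x * cj b⁻¹ y).trace := by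
  rw [cj_apply, cj_apply, inv_inv]
  calc (((b⁻¹ : SLm m) : Gl m) * (x * (b : Gl m)) * y).trace
      = (((b⁻¹ : SLm m) : Gl m) * (x * (b : Gl m) * y)).trace := by rw [mul_assoc]
    _ = (x * (b : Gl m) * y * ((b⁻¹ : SLm m) : Gl m)).trace := Matrix.trace_mul_comm _ _
    _ = (x * ((b : Gl m) * (y * ((b⁻¹ : SLm m) : Gl m)))).trace := by simp only [mul_assoc]

private theorem Dns_van {m : ℕ} (b : SLm m) (hb : Upper (b : Gl m)) (ν : nil m)
    (ξ : Gl m × Gl m) (h : Van ν ξ) : Van (cjN b hb ν) (cj b ξ.1, cj b ξ.2) := by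
  intro p hp
  have h1 := orb_le_cjT b⁻¹ hb.inv (cjN b hb ν) hp
  have h2 : cjN b⁻¹ hb.inv (cjN b hb ν) = ν := by
    apply Subtype.ext
    rw [coe_cjN, coe_cjN, Dns_cj_cj]
  rw [Submodule.mem_comap, h2] at h1
  have h3 := h _ h1
  rw [cov_apply] at h3 ⊢
  rw [Dns_trace, Dns_trace]
  exact h3

/-- The regular case. -/
private theorem Dns_reg (hPhi : PhiStmt) (hReg : RegStmt) (hCnj : CnjStmt) {m j : ℕ} (hm : 1 ≤ m)
    {Q : (Gl m × Gl m) [⋀^Fin j]→ₗ[ℂ] Pl2 m} (hQ : IsPD (-(j : ℤ)) Q)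
    (hc : ∀ (x : Fin j → Gl m) (g g' : SLm m),
      evm (g : Gl m) (phi Q x) = evm (g' : Gl m) (phi Q x)) (g g' : SLm m) (ν : nil m)
    (hν : ∀ i j : Fin m, (j : ℕ) = (i : ℕ) + 1 → (ν : Gl m) i j ≠ 0)
    (ξ : Fin j → Gl m × Gl m) (hξ : ∀ i, Van ν (ξ i)) :
    ev2 (g : Gl m) (ν : Gl m) (Q ξ) = ev2 (g' : Gl m) (ν : Gl m) (Q ξ) := by
  obtain ⟨b, hb, hbe⟩ := hCnj m hm ν hν
  have hξ' : ∀ i, Van (cjN b hb ν) (cj b (ξ i).1, cj b (ξ i).2) := fun i =>
    Dns_van b hb ν (ξ i) (hξ i)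
  have hR : ∀ i, ∃ x : Gl m, cov (cj b (ξ i).1, cj b (ξ i).2) = cov (adm (ee m) x, x) := fun i =>
    hReg m (cjN b hb ν) hbe _ (hξ' i)
  choose x hx using hR
  have key : ∀ g : SLm m, ev2 (g : Gl m) (ν : Gl m) (Q ξ) =
      evm ((g * b : SLm m) : Gl m) (phi Q x) := by
    intro g
    have h1 := hQ.equi b hb g ν (fun i => (cj b (ξ i).1, cj b (ξ i).2)) hξ'
    have h2 : (fun i => (cj b⁻¹ (cj b (ξ i).1), cj b⁻¹ (cj b (ξ i).2))) = ξ := by
      funext i
      rw [Dns_cj_cj, Dns_cj_cj]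
    rw [(hPhi m j Q hQ).2, ← Dns_congr hQ _ _ hx, ← hbe, h1]
    change _ = ev2 (g : Gl m) (ν : Gl m)
      (Q fun i => (cj b⁻¹ (cj b (ξ i).1), cj b⁻¹ (cj b (ξ i).2)))
    rw [h2]
  rw [key g, key g', hc x]

private theorem Dns_ee (m : ℕ) : ee m ∈ nil m := by
  intro i j hij
  unfold ee
  rw [Matrix.of_apply, if_neg]
  have h1 : (j : ℕ) ≤ (i : ℕ) := hij
  omega

private theorem Dns_cont {m : ℕ} (g : SLm m) (ν : nil m) (P : Pl2 m) :
    Continuous fun t : ℂ => ev2 (g : Gl m) ((ν : Gl m) + t • ee m) P := by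
  have h1 : ∀ t : ℂ, ev2 (g : Gl m) ((ν : Gl m) + t • ee m) P =
      MvPolynomial.eval (Sum.elim (fun q : Fin m × Fin m => (g : Gl m) q.1 q.2)
        fun q : Fin m × Fin m => ((ν : Gl m) + t • ee m) q.1 q.2) P := by
    intro t
    rfl
  simp only [h1]
  refine (MvPolynomial.continuous_eval P).comp (continuous_pi fun q => ?_)
  rcases q with q | q
  · exact continuous_const
  · change Continuous fun t : ℂ => (ν : Gl m) q.1 q.2 + t * ee m q.1 q.2
    fun_prop

private theorem Dns_cont2 {m j : ℕ} (g : SLm m) (ν : nil m)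
    (Q : (Gl m × Gl m) [⋀^Fin j]→ₗ[ℂ] Pl2 m) (ξ δ : Fin j → Gl m × Gl m) :
    Continuous fun t : ℂ => ev2 (g : Gl m) ((ν : Gl m) + t • ee m) (Q (t • δ + ξ)) := by
  classical
  have h1 : ∀ t : ℂ, ev2 (g : Gl m) ((ν : Gl m) + t • ee m) (Q (t • δ + ξ)) =
      ∑ s : Finset (Fin j), t ^ s.card *
        ev2 (g : Gl m) ((ν : Gl m) + t • ee m) (Q (s.piecewise δ ξ)) := by
    intro t
    have h2 : Q (t • δ + ξ) = ∑ s : Finset (Fin j), t ^ s.card • Q (s.piecewise δ ξ) := by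
      have h3 := MultilinearMap.map_add_univ Q.toMultilinearMap (t • δ) ξ
      change Q (t • δ + ξ) = ∑ s : Finset (Fin j), Q (s.piecewise (t • δ) ξ) at h3
      rw [h3]
      refine Finset.sum_congr rfl fun s _ => ?_
      have h4 := MultilinearMap.map_piecewise_smul Q.toMultilinearMap (fun _ => t)
        (s.piecewise δ ξ) s
      rw [Finset.prod_const] at h4
      have h5 : (s.piecewise (fun i => t • s.piecewise δ ξ i) (s.piecewise δ ξ)) =
          s.piecewise (t • δ) ξ := by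
        funext i
        by_cases hi : i ∈ s
        · rw [Finset.piecewise_eq_of_mem _ _ _ hi, Finset.piecewise_eq_of_mem _ _ _ hi,
            Finset.piecewise_eq_of_mem _ _ _ hi, Pi.smul_apply]
        · rw [Finset.piecewise_eq_of_notMem _ _ _ hi, Finset.piecewise_eq_of_notMem _ _ _ hi,
            Finset.piecewise_eq_of_notMem _ _ _ hi]
      rw [h5] at h4
      exact h4
    rw [h2, map_sum]
    refine Finset.sum_congr rfl fun s _ => ?_
    rw [map_smul, smul_eq_mul]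
  simp only [h1]
  refine continuous_finsetSum _ fun s _ => ?_
  exact (continuous_id.pow _).mul (Dns_cont g ν _)

theorem tDns (hPhi : PhiStmt) (hReg : RegStmt) (hCnj : CnjStmt) : DnsStmt := by
  intro m j hm Q hQ hc g g' ν ξ hξ
  let δ : Fin j → Gl m × Gl m := fun i => (adm (ee m) (ξ i).2, 0)
  have hvan : ∀ (t : ℂ) (i : Fin j), Van (ν + t • (⟨ee m, Dns_ee m⟩ : nil m)) ((t • δ + ξ) i) := by
    rintro t i ⟨y, μ⟩ ⟨hy, hμ⟩
    have h1 : (⟨y, ⟨(ν : Gl m) * (y : Gl m) - (y : Gl m) * (ν : Gl m),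
        (nil m).sub_mem (nil_mul_upper ν.2 hy) (upper_mul_nil ν.2 hy)⟩⟩ : slm m × nil m) ∈
        orb m ν := ⟨hy, rfl⟩
    have h2 := hξ i _ h1
    rw [cov_apply] at h2 ⊢
    change ((ξ i).1 * (y : Gl m)).trace + ((ξ i).2 * ((ν : Gl m) * (y : Gl m) -
      (y : Gl m) * (ν : Gl m))).trace = 0 at h2
    change (μ : Gl m) = ((ν : Gl m) + t • ee m) * (y : Gl m) -
      (y : Gl m) * ((ν : Gl m) + t • ee m) at hμ
    change ((t • (ee m * (ξ i).2 - (ξ i).2 * ee m) + (ξ i).1) * (y : Gl m)).trace +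
      ((t • (0 : Gl m) + (ξ i).2) * (μ : Gl m)).trace = 0
    rw [hμ, smul_zero, zero_add]
    simp only [add_mul, mul_add, sub_mul, mul_sub, smul_mul_assoc, mul_smul_comm, trace_add,
      trace_sub, trace_smul, smul_eq_mul] at h2 ⊢
    have e1 : ((ξ i).2 * ((y : Gl m) * ee m)).trace = (ee m * (ξ i).2 * (y : Gl m)).trace := by
      rw [← mul_assoc, Matrix.trace_mul_comm, mul_assoc]
    rw [e1]
    simp only [mul_assoc] at h2 ⊢
    linear_combination h2
  have hS : (Set.range fun p : Fin m × Fin m => -(ν : Gl m) p.1 p.2).Countable :=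
    (Set.finite_range _).countable
  have hd := hS.dense_compl ℂ
  have hEq := Continuous.ext_on hd (Dns_cont2 g ν Q ξ δ) (Dns_cont2 g' ν Q ξ δ) (fun t ht => by
    refine Dns_reg hPhi hReg hCnj hm hQ hc g g' (ν + t • (⟨ee m, Dns_ee m⟩ : nil m))
      (fun i j hij h0 => ht ⟨(i, j), ?_⟩) (t • δ + ξ) (hvan t)
    change (ν : Gl m) i j + t * ee m i j = 0 at h0
    have h1 : ee m i j = 1 := by
      unfold ee
      rw [Matrix.of_apply, if_pos hij]
    rw [h1, mul_one] at h0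
    change -(ν : Gl m) i j = t
    linear_combination -h0)
  have h0 := congrFun hEq 0
  simpa using h0

end MP3b
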