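import Pool.Agent.Lib.MP_3b3418_ag.SpecA

/-!
# Part A: skew operators are combinations of transvections
-/

set_option autoImplicit false

namespace MP3b

open Matrix

/-- The index set of a basis of `gl_m` modulo the centraliser of `e`. -/
private abbrev Dua_P (m : ℕ) : Type := Σ d : Fin m, Fin (2 * (d : ℕ))

/-- The basis. -/
private def Dua_u (m : ℕ) (p : Dua_P m) : Gl m := vv m (p.1 : ℕ) (p.2 : ℕ)

/-- The dual basis. -/
private noncomputable def Dua_v (m : ℕ) (p : Dua_P m) : Gl m :=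
  ((vv m (p.1 : ℕ) (2 * (p.1 : ℕ) - (p.2 : ℕ)) * vv m (p.1 : ℕ) (p.2 : ℕ)).trace)⁻¹ •
    vv m (p.1 : ℕ) (2 * (p.1 : ℕ) - 1 - (p.2 : ℕ))

private theorem Dua_Bf (m d i : ℕ) (y : Gl m) : Bf m (vv m d i) y = (vv m d (i + 1) * y).trace := by
  rw [Bf_apply, vv_succ, adm_apply]

private theorem Dua_dual (hTau : TauStmt) (m : ℕ) (p : Dua_P m) (d i : ℕ) (hd : d < m)
    (hi : i ≤ 2 * d) : Bf m (Dua_v m p) (vv m d i) = if (p.1 : ℕ) = d ∧ (p.2 : ℕ) = i then 1 else 0 := by
  obtain ⟨e, j⟩ := p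
  have he := e.2
  have hj := j.2
  unfold Dua_v
  simp only
  rw [map_smul, LinearMap.smul_apply, Dua_Bf, smul_eq_mul,
    show 2 * (e : ℕ) - 1 - (j : ℕ) + 1 = 2 * (e : ℕ) - (j : ℕ) by omega]
  split_ifs with h
  · obtain ⟨h1, h2⟩ := h
    subst h2
    rw [← h1]
    refine inv_mul_cancel₀ ((hTau m _ _ _ _ he he (by omega) (by omega)).2 ⟨rfl, by omega⟩)
  · have h1 : (vv m (e : ℕ) (2 * (e : ℕ) - (j : ℕ)) * vv m d i).trace = 0 := by
      by_contra h2
      obtain ⟨h3, h4⟩ := (hTau m _ _ _ _ he hd (by omega) hi).1 h2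
      exact h ⟨h3, by omega⟩
    rw [h1, mul_zero]

/-- The projection to the centraliser. -/
private noncomputable def Dua_R (m : ℕ) : Module.End ℂ (Gl m) :=
  LinearMap.id - ∑ p : Dua_P m, (Bf m (Dua_v m p)).smulRight (Dua_u m p)

private theorem Dua_R_apply (m : ℕ) (x : Gl m) :
    Dua_R m x = x - ∑ p : Dua_P m, Bf m (Dua_v m p) x • Dua_u m p := by
  unfold Dua_R
  rw [LinearMap.sub_apply, LinearMap.sum_apply]
  rfl

private theorem Dua_com (hVan : VanStmt) (hBas : BasStmt) (hTau : TauStmt) (hBsk : BskStmt)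
    (m : ℕ) (x : Gl m) : ee m * Dua_R m x = Dua_R m x * ee m := by
  have h1 : (⊤ : Submodule ℂ (Gl m)) ≤ LinearMap.ker (adm (ee m) ∘ₗ Dua_R m) := by
    rw [← (hBas m).2]
    refine Submodule.span_le.2 ?_
    rintro _ ⟨⟨d, i⟩, rfl⟩
    change adm (ee m) (Dua_R m (vv m (d : ℕ) (i : ℕ))) = 0
    have hd := d.2
    have hi := i.2
    rcases Nat.lt_or_ge (i : ℕ) (2 * (d : ℕ)) with h | h
    · have h2 : Dua_R m (vv m (d : ℕ) (i : ℕ)) = 0 := by
        rw [Dua_R_apply, Finset.sum_eq_single (⟨d, ⟨(i : ℕ), h⟩⟩ : Dua_P m)]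
        · rw [Dua_dual hTau m _ _ _ hd (by omega), if_pos ⟨rfl, rfl⟩, one_smul]
          exact sub_self _
        · rintro ⟨e, j⟩ _ hne
          rw [Dua_dual hTau m _ _ _ hd (by omega), if_neg, zero_smul]
          rintro ⟨h3, h4⟩
          have h5 : e = d := Fin.ext h3
          subst h5
          have h6 : j = ⟨(i : ℕ), h⟩ := Fin.ext h4
          subst h6
          exact hne rfl
        · intro h3
          exact absurd (Finset.mem_univ _) h3
      rw [h2, map_zero]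
    · have h2 : (i : ℕ) = 2 * (d : ℕ) := by omega
      have h3 : adm (ee m) (vv m (d : ℕ) (i : ℕ)) = 0 := by
        rw [← vv_succ, h2]
        exact hVan m d
      have h4 : ee m * vv m (d : ℕ) (i : ℕ) = vv m (d : ℕ) (i : ℕ) * ee m := by
        rw [adm_apply, sub_eq_zero] at h3
        exact h3
      have h5 : Dua_R m (vv m (d : ℕ) (i : ℕ)) = vv m (d : ℕ) (i : ℕ) := by
        rw [Dua_R_apply, Finset.sum_eq_zero, sub_zero]
        intro p _
        rw [((hBsk m).2.2.2.2 _ h4 _).1, zero_smul]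
      rw [h5, h3]
  have h2 : adm (ee m) (Dua_R m x) = 0 := h1 Submodule.mem_top
  rw [adm_apply, sub_eq_zero] at h2
  exact h2

/-- Completeness. -/
private theorem Dua_exp (hVan : VanStmt) (hBas : BasStmt) (hTau : TauStmt) (hBsk : BskStmt)
    (m : ℕ) (w x : Gl m) :
    ∑ p : Dua_P m, Bf m (Dua_v m p) x * Bf m w (Dua_u m p) = Bf m w x := by
  have h1 := ((hBsk m).2.2.2.2 _ (Dua_com hVan hBas hTau hBsk m x) w).1
  rw [Dua_R_apply, map_sub, sub_eq_zero, map_sum] at h1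
  rw [h1]
  refine Finset.sum_congr rfl fun p _ => ?_
  rw [map_smul, smul_eq_mul]

theorem tDua (hVan : VanStmt) (hBas : BasStmt) (hTau : TauStmt) (hBsk : BskStmt) : DuaStmt := by
  intro m D hD S hS hall A hA
  have hB := (hBsk m).1
  let N : Module.End ℂ (Gl m) :=
    (2 : ℂ) • A - ∑ p : Dua_P m, tw (Bf m) (Dua_v m p) (A (Dua_u m p))
  have hN : ∀ w x, Bf m w (N x) = 0 := by
    intro w x
    have e1 : N x = (2 : ℂ) • A x - ∑ p : Dua_P m, (Bf m (Dua_v m p) x • A (Dua_u m p) +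
        Bf m (A (Dua_u m p)) x • Dua_v m p) := by
      change ((2 : ℂ) • A - ∑ p : Dua_P m, tw (Bf m) (Dua_v m p) (A (Dua_u m p))) x = _
      rw [LinearMap.sub_apply, LinearMap.sum_apply, LinearMap.smul_apply]
      rfl
    have e2 : ∑ p : Dua_P m, Bf m (Dua_v m p) x * Bf m w (A (Dua_u m p)) = Bf m w (A x) := by
      have h1 := Dua_exp hVan hBas hTau hBsk m (A w) x
      rw [hA w x] at h1
      rw [← neg_inj, ← h1, ← Finset.sum_neg_distrib]
      refine Finset.sum_congr rfl fun p _ => ?_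
      rw [hA w (Dua_u m p)]
      ring
    have e3 : ∑ p : Dua_P m, Bf m (A (Dua_u m p)) x * Bf m w (Dua_v m p) = Bf m w (A x) := by
      have h1 := Dua_exp hVan hBas hTau hBsk m (A x) w
      rw [hB (A x) w] at h1
      rw [← neg_inj, ← h1, ← Finset.sum_neg_distrib]
      refine Finset.sum_congr rfl fun p _ => ?_
      rw [hB w (Dua_v m p), hA (Dua_u m p) x, hB (Dua_u m p) (A x)]
      ring
    rw [e1, map_sub, map_smul, map_sum, smul_eq_mul]
    have e4 : ∑ p : Dua_P m, Bf m w (Bf m (Dua_v m p) x • A (Dua_u m p) +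
        Bf m (A (Dua_u m p)) x • Dua_v m p) = Bf m w (A x) + Bf m w (A x) := by
      conv_rhs => rw [← e2]
      conv_rhs => rhs; rw [e2, ← e3]
      rw [← Finset.sum_add_distrib]
      refine Finset.sum_congr rfl fun p _ => ?_
      rw [map_add, map_smul, map_smul, smul_eq_mul, smul_eq_mul]
    rw [e4]
    ring
  have h1 : ((0 : Gl m), N) ∈ S :=
    hS.cen N fun x => (hBsk m).2.2.2.1 (N x) fun a => hN a x
  have h2 : ((0 : Gl m), ∑ p : Dua_P m, tw (Bf m) (Dua_v m p) (A (Dua_u m p))) ∈ S := by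
    have h3 : ∀ p ∈ (Finset.univ : Finset (Dua_P m)), tw (Bf m) (Dua_v m p) (A (Dua_u m p)) ∈
        S.comap (LinearMap.inr ℂ (Gl m) (Module.End ℂ (Gl m))) := fun p _ => hall _ _
    exact Submodule.sum_mem _ h3
  have h3 := S.add_mem h1 h2
  rw [Prod.mk_add_mk, add_zero, sub_add_cancel] at h3
  have h4 := S.smul_mem ((2 : ℂ)⁻¹) h3
  rw [Prod.smul_mk, smul_zero, smul_smul, inv_mul_cancel₀ two_ne_zero, one_smul] at h4
  exact h4

end MP3b
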