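import Pool.Agent.Lib.MP_3b3418_ag.SpecA

/-!
# MP_3b3418_ag, task Efp: the operator `f'` exists
-/

set_option autoImplicit false

namespace MP3b

open Matrix

theorem tEfp (hBas : BasStmt) : EfpStmt := by
  intro m
  obtain ⟨hli, hsp⟩ := hBas m
  let b : Module.Basis (Ix m) ℂ (Gl m) := Module.Basis.mk hli (le_of_eq hsp.symm)
  have hb : ∀ p : Ix m, b p = vv m (p.1 : ℕ) (p.2 : ℕ) := fun p => by
    rw [Module.Basis.mk_apply]
  let D : Module.End ℂ (Gl m) := b.constr ℂ fun p : Ix m =>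
    (((p.2 : ℕ) : ℂ) * (2 * ((p.1 : ℕ) : ℂ) - ((p.2 : ℕ) : ℂ))) •
      vv m (p.1 : ℕ) ((p.2 : ℕ) - 1)
  have hD : ∀ (d i : ℕ) (hd : d < m) (hi : i < 2 * d + 1), D (vv m d i) =
      ((i : ℂ) * (2 * (d : ℂ) - (i : ℂ))) • vv m d (i - 1) := by
    intro d i hd hi
    have h1 : vv m d i = b ⟨⟨d, hd⟩, ⟨i, hi⟩⟩ :=
      (hb ⟨⟨d, hd⟩, ⟨i, hi⟩⟩).symm
    rw [h1]
    exact b.constr_basis ℂ _ _
  refine ⟨D, ⟨fun d hd => ?_, fun d hd i hi => ?_⟩⟩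
  · rw [hD d 0 hd (by omega), Nat.cast_zero, zero_mul, zero_smul]
  · rw [hD d (i + 1) hd (by omega), Nat.add_sub_cancel]
    push_cast
    rfl

end MP3b
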