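import Pool.Agent.Lib.MP_3b3418_ag.SpecA

/-!
# MP_3b3418_ag, task Epw: powers of `e` and `f`
-/

set_option autoImplicit false

namespace MP3b

open Matrix

theorem Epw_ee_apply {m : ℕ} (i j : Fin m) :
    ee m i j = if (j : ℕ) = (i : ℕ) + 1 then 1 else 0 := rfl

theorem Epw_ff_apply {m : ℕ} (i j : Fin m) :
    ff m i j = if (i : ℕ) = (j : ℕ) + 1 then ((i : ℕ) : ℂ) * ((m : ℂ) - ((i : ℕ) : ℂ)) else 0 := rfl

theorem tEpw : EpwStmt := by
  intro m k
  induction k with
  | zero =>
    refine ⟨fun i j => ?_, fun i j => ?_⟩
    · rw [pow_zero, Matrix.one_apply, add_zero]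
      by_cases h : i = j
      · rw [if_pos h, if_pos (by rw [h])]
      · rw [if_neg h, if_neg (fun h' => h (Fin.ext h'.symm))]
    · rw [pow_zero, Matrix.one_apply, add_zero]
      by_cases h : i = j
      · rw [if_pos h, h]
        exact ⟨fun _ => rfl, fun _ => one_ne_zero⟩
      · rw [if_neg h]
        exact ⟨fun h' => absurd rfl h', fun h' => absurd (Fin.ext h') h⟩
  | succ k ih =>
    refine ⟨fun i j => ?_, fun i j => ?_⟩
    · rw [pow_succ, Matrix.mul_apply]
      by_cases hj : 1 ≤ (j : ℕ)
      · rw [Finset.sum_eq_single ⟨(j : ℕ) - 1, by have := j.2; omega⟩]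
        · rw [ih.1, Epw_ee_apply, if_pos (show (j : ℕ) = (j : ℕ) - 1 + 1 by omega), mul_one]
          by_cases h : (j : ℕ) = (i : ℕ) + (k + 1)
          · rw [if_pos h, if_pos (show (j : ℕ) - 1 = (i : ℕ) + k by omega)]
          · rw [if_neg h, if_neg (show ¬ (j : ℕ) - 1 = (i : ℕ) + k by omega)]
        · intro l _ hl
          rw [Epw_ee_apply, if_neg, mul_zero]
          intro h
          apply hl
          apply Fin.ext
          simp only
          omega
        · intro h
          exact absurd (Finset.mem_univ _) h
      · rw [Finset.sum_eq_zero, if_neg (by omega)]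
        intro l _
        rw [Epw_ee_apply, if_neg (by omega), mul_zero]
    · rw [pow_succ, Matrix.mul_apply]
      by_cases hj : (j : ℕ) + 1 < m
      · rw [Finset.sum_eq_single ⟨(j : ℕ) + 1, hj⟩]
        · rw [Epw_ff_apply, if_pos rfl, mul_ne_zero_iff, ih.2]
          have h1 : ((((j : ℕ) + 1 : ℕ) : ℂ)) * ((m : ℂ) - (((j : ℕ) + 1 : ℕ) : ℂ)) ≠ 0 := by
            refine mul_ne_zero (Nat.cast_ne_zero.mpr (Nat.succ_ne_zero _)) ?_
            rw [sub_ne_zero]
            exact_mod_cast (by omega : m ≠ (j : ℕ) + 1)
          constructor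
          · rintro ⟨h, -⟩
            simp only at h
            omega
          · intro h
            refine ⟨?_, h1⟩
            simp only
            omega
        · intro l _ hl
          rw [Epw_ff_apply, if_neg, mul_zero]
          intro h
          exact hl (Fin.ext h)
        · intro h
          exact absurd (Finset.mem_univ _) h
      · rw [Finset.sum_eq_zero]
        · refine ⟨fun h => absurd rfl h, fun h => ?_⟩
          have := i.2
          omega
        · intro l _
          rw [Epw_ff_apply, if_neg, mul_zero]
          intro h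
          have := l.2
          omega

end MP3b
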