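import Pool.Agent.Lib.MP_3b3418_ag.SpecB

/-!
# The element `(f, f')`
-/

set_option autoImplicit false

namespace MP3b

open Matrix

theorem Fff_RW_RW (hJpr : JprStmt) {m j : ℕ} (y z : Gl m) (Ψ : Wm m j) :
    RW y (RW z Ψ) - RW z (RW y Ψ) = RW (y * z - z * y) Ψ := by
  refine MultilinearMap.ext fun x => ?_
  exact (hJpr m).1 y z (Ψ x)

theorem Fff_RW_smul {m j : ℕ} (c : ℂ) (y : Gl m) (Ψ : Wm m j) : RW (c • y) Ψ = c • RW y Ψ := by
  refine MultilinearMap.ext fun x => ?_
  exact Rd_smul c y (Ψ x)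

/-- Commutators of the operators `RW y - act A`. -/
theorem Fff_comm (hJpr : JprStmt) (hAct : ActStmt) {m j : ℕ} (y z : Gl m)
    (A B : Module.End ℂ (Gl m)) (Ψ : Wm m j) :
    (RW y - act A : Module.End ℂ (Wm m j)) ((RW z - act B : Module.End ℂ (Wm m j)) Ψ) -
      (RW z - act B : Module.End ℂ (Wm m j)) ((RW y - act A : Module.End ℂ (Wm m j)) Ψ) =
      RW (y * z - z * y) Ψ + act (B * A - A * B) Ψ := by
  have h1 := Fff_RW_RW hJpr y z Ψ
  have h2 := (hAct m j).1 A B Ψ
  have h3 := (hAct m j).2.1 y B Ψ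
  have h4 := (hAct m j).2.1 z A Ψ
  rw [← h1, ← h2, LinearMap.sub_apply, LinearMap.sub_apply, LinearMap.sub_apply,
    LinearMap.sub_apply, map_sub, map_sub, map_sub, map_sub, h3, h4]
  abel

/-- The operators `RW y - act A` preserve the multilinear maps vanishing on `SL_m`. -/
theorem Fff_JJ (hJpr : JprStmt) (hAct : ActStmt) {m j : ℕ} (y : Gl m) (hy : y.trace = 0)
    (A : Module.End ℂ (Gl m)) (Ψ : Wm m j) (hΨ : Ψ ∈ JJ m j) :
    (RW y - act A : Module.End ℂ (Wm m j)) Ψ ∈ JJ m j := by
  rw [LinearMap.sub_apply]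
  refine (JJ m j).sub_mem (fun x g => ?_) ((hAct m j).2.2.1 A Ψ hΨ)
  exact (hJpr m).2 y hy (Ψ x) (hΨ x) g

/-- Linear maps which agree on the basis. -/
theorem Fff_ext (hBas : BasStmt) {m : ℕ} {A B : Module.End ℂ (Gl m)}
    (h : ∀ d, d < m → ∀ i, i ≤ 2 * d → A (vv m d i) = B (vv m d i)) : A = B := by
  refine LinearMap.ext fun x => ?_
  have hx : x ∈ Submodule.span ℂ (Set.range fun p : Ix m => vv m (p.1 : ℕ) (p.2 : ℕ)) := by
    rw [(hBas m).2]
    exact Submodule.mem_top
  induction hx using Submodule.span_induction with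
  | mem x hx =>
    obtain ⟨p, rfl⟩ := hx
    have h2 := p.2.2
    exact h p.1 p.1.2 p.2 (by omega)
  | zero => rw [map_zero, map_zero]
  | add x y _ _ hx hy => rw [map_add, map_add, hx, hy]
  | smul c x _ hx => rw [map_smul, map_smul, hx]

theorem Fff_adm_brk {m : ℕ} (x y z : Gl m) :
    adm x (adm y z) - adm y (adm x z) = adm (adm x y) z := by
  simp only [adm_apply]
  noncomm_ring

/-- The element `(f, f')`. -/
theorem tFff (hTri : TriStmt) (hStr : StrStmt) (hVan : VanStmt) (hBas : BasStmt)
    (hCen : CenStmt) (hJpr : JprStmt) (hAct : ActStmt) (hPow : PowStmt) (hTor : TorStmt)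
    (hNlp : NlpStmt) (hSlt : SltStmt) : FffStmt := by
  intro m j Φ hΦ D hD
  obtain ⟨hef, hhe, hhf, -⟩ := hTri m
  -- traces
  have tr_adm : ∀ x y : Gl m, (adm x y).trace = 0 := by
    intro x y
    rw [adm_apply, trace_sub, trace_mul_comm, sub_self]
  have tr_e : (ee m).trace = 0 := by
    have h := tr_adm (hh m) (ee m)
    rw [hhe, trace_smul, smul_eq_zero] at h
    exact h.resolve_left two_ne_zero
  have tr_f : (ff m).trace = 0 := by
    have h := tr_adm (hh m) (ff m)
    rw [hhf, trace_smul, smul_eq_zero] at h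
    exact h.resolve_left (neg_ne_zero.2 two_ne_zero)
  have tr_h : (hh m).trace = 0 := by
    rw [← hef]
    exact tr_adm _ _
  -- `D` on the basis
  have hDtop : ∀ d, D (vv m d (2 * d)) = 0 := by
    intro d
    refine (hCen m).2.1 D hD _ ?_
    have h := hVan m d
    rw [vv_succ, adm_apply, sub_eq_zero] at h
    exact h
  have hDi : ∀ d, d < m → ∀ i, i ≤ 2 * d → adm (ee m) (D (vv m d i)) =
      ((i : ℂ) * (2 * (d : ℂ) - (i : ℂ))) • vv m d i := by
    intro d hd i hi
    rcases i with _ | i
    · rw [hD.zero d hd, map_zero, Nat.cast_zero, zero_mul, zero_smul]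
    · rw [hD.succ d hd i (by omega), map_smul, ← vv_succ]
      push_cast
      rfl
  -- the operator of the difference
  have hB0 : ∀ x : Gl m, ee m *
      (D * adm (ee m) - adm (ee m) * D + adm (hh m) + 1 : Module.End ℂ (Gl m)) x =
      (D * adm (ee m) - adm (ee m) * D + adm (hh m) + 1 : Module.End ℂ (Gl m)) x * ee m := by
    have h1 : adm (ee m) * (D * adm (ee m) - adm (ee m) * D + adm (hh m) + 1) = 0 := by
      refine Fff_ext hBas fun d hd i hi => ?_
      rw [Module.End.mul_apply, LinearMap.zero_apply, LinearMap.add_apply, LinearMap.add_apply,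
        LinearMap.sub_apply, Module.End.mul_apply, Module.End.mul_apply, Module.End.one_apply,
        hDi d hd i hi, (hStr m d i).1, ← vv_succ]
      rcases Nat.lt_or_ge i (2 * d) with h | h
      · rw [hD.succ d hd i h]
        have h2 : (((i : ℂ) + 1) * (2 * (d : ℂ) - ((i : ℂ) + 1))) • vv m d i -
            ((i : ℂ) * (2 * (d : ℂ) - (i : ℂ))) • vv m d i +
            (2 * (i : ℂ) - 2 * (d : ℂ)) • vv m d i + vv m d i = 0 := by
          have h3 : (((i : ℂ) + 1) * (2 * (d : ℂ) - ((i : ℂ) + 1)) -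
            ((i : ℂ) * (2 * (d : ℂ) - (i : ℂ))) + (2 * (i : ℂ) - 2 * (d : ℂ)) + 1) = 0 := by ring
          rw [← sub_smul, ← add_smul]
          nth_rewrite 2 [← one_smul ℂ (vv m d i)]
          rw [← add_smul, h3, zero_smul]
        rw [h2, map_zero]
      · have h2 : i = 2 * d := le_antisymm hi h
        subst h2
        have h3 : adm (ee m) (vv m d (2 * d)) = 0 := by rw [← vv_succ, hVan]
        rw [hVan, map_zero, map_add, map_add, map_sub, map_smul, map_smul, h3, map_zero,
          smul_zero, smul_zero, sub_zero, zero_add, add_zero]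
    intro x
    have h2 := LinearMap.congr_fun h1 x
    rw [Module.End.mul_apply, adm_apply, LinearMap.zero_apply, sub_eq_zero] at h2
    exact h2
  -- the commutator of `D` and `adm h`
  have hDh : D * adm (hh m) - adm (hh m) * D = (2 : ℂ) • D := by
    refine Fff_ext hBas fun d hd i hi => ?_
    rw [LinearMap.sub_apply, Module.End.mul_apply, Module.End.mul_apply, LinearMap.smul_apply,
      (hStr m d i).1, map_smul]
    rcases i with _ | i
    · rw [hD.zero d hd, map_zero, smul_zero, smul_zero, sub_zero]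
    · rw [hD.succ d hd i (by omega), map_smul, (hStr m d i).1, smul_smul, smul_smul, smul_smul,
        ← sub_smul]
      congr 1
      push_cast
      ring
  -- the conditions
  have hW : Φ.toMultilinearMap ∈ W0 m j := by
    intro x g k hk
    have h1 : Φ.toMultilinearMap x = 0 := hΦ.cen x k hk
    rw [h1, map_zero]
  have hE := hPow m j Φ hΦ 1 le_rfl
  have hH := hTor m j Φ hΦ
  obtain ⟨N, hN⟩ := hNlp m j D hD Φ.toMultilinearMap
  have key := hSlt (Wm m j) (W0 m j) (JJ m j)
    (RW (ee m) - act (adm (ee m)) : Module.End ℂ (Wm m j))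
    (RW (hh m) - act (adm (hh m) + 1) : Module.End ℂ (Wm m j))
    (RW (ff m) - act D : Module.End ℂ (Wm m j))
    (fun v hv => Fff_JJ hJpr hAct _ tr_e _ v hv) (fun v hv => Fff_JJ hJpr hAct _ tr_h _ v hv)
    (fun v hv => Fff_JJ hJpr hAct _ tr_f _ v hv)
    (fun v hv => by
      rw [LinearMap.sub_apply]
      refine (W0 m j).sub_mem (fun x g k hk => ?_) ((hAct m j).2.2.2.1 D (fun x hx => ?_) v hv)
      · exact (hJpr m).2 _ tr_f (v x) (fun g => hv x g k hk) g
      · rw [(hCen m).2.1 D hD x hx, mul_zero, zero_mul])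
    (fun v hv => by
      have h1 := Fff_comm hJpr hAct (ee m) (ff m) (adm (ee m)) D v
      have h2 : ee m * ff m - ff m * ee m = hh m := by rw [← adm_apply, hef]
      have h3 := (hAct m j).2.2.2.2 _ hB0 v hv
      have h4 : act (D * adm (ee m) - adm (ee m) * D + adm (hh m) + 1) v =
          act (D * adm (ee m) - adm (ee m) * D) v + act (adm (hh m) + 1) v := by
        rw [← act_add, add_assoc]
      rw [h4] at h3
      rw [h1, h2, LinearMap.sub_apply]
      have h5 : RW (hh m) v + act (D * adm (ee m) - adm (ee m) * D) v -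
          (RW (hh m) v - act (adm (hh m) + 1) v) =
          act (D * adm (ee m) - adm (ee m) * D) v + act (adm (hh m) + 1) v := by abel
      rw [h5]
      exact h3)
    (fun v => by
      have h1 := Fff_comm hJpr hAct (hh m) (ff m) (adm (hh m) + 1) D v
      have h2 : hh m * ff m - ff m * hh m = (-2 : ℂ) • ff m := by rw [← adm_apply, hhf]
      have h3 : D * (adm (hh m) + 1) - (adm (hh m) + 1) * D = (2 : ℂ) • D := by
        rw [← hDh]
        noncomm_ring
      rw [h1, h2, h3, Fff_RW_smul, act_smul, LinearMap.sub_apply]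
      module)
    Φ.toMultilinearMap hW
    (by
      have h1 := hE.2
      simp only [pow_one] at h1
      exact h1)
    hH.2 ⟨N, by rw [hN]; exact (JJ m j).zero_mem⟩
  exact ⟨tr_f, key⟩

end MP3b
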