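import Pool.Agent.Lib.MP_3b3418_ag.SpecA

/-!
# `e^k` and `f` generate `sl_m`
-/

set_option autoImplicit false

namespace MP3b

open Matrix

/-- **Gen.** `e^k` and `f` generate `sl_m`. -/
theorem tGen (hStr : StrStmt) (hBas : BasStmt) (hTau : TauStmt) (hCen : CenStmt) : GenStmt := by
  intro m hm S hbrk hpow hf y hy
  let L : Submodule ℂ (Gl m) := S.comap (LinearMap.inl ℂ (Gl m) (Module.End ℂ (Gl m)))
  have hL : ∀ x : Gl m, x ∈ L ↔ (x, (0 : Module.End ℂ (Gl m))) ∈ S := fun x => Iff.rfl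
  have hadm : ∀ x ∈ L, adm (ff m) x ∈ L := by
    intro x hx
    rw [hL] at hx ⊢
    have h := hbrk _ hf _ hx
    simp only [mul_zero, sub_self] at h
    exact h
  have htop : ∀ d, 1 ≤ d → d < m → vv m d (2 * d) ∈ L := by
    intro d hd hdm
    obtain ⟨c, hc, he⟩ := (hCen m).2.2.1 d hdm
    have h1 : ee m ^ d ∈ L := hpow d hd
    have h2 : vv m d (2 * d) = c⁻¹ • ee m ^ d := by
      rw [he, smul_smul, inv_mul_cancel₀ hc, one_smul]
    rw [h2]
    exact L.smul_mem _ h1
  have hall : ∀ d, 1 ≤ d → d < m → ∀ k i, i + k = 2 * d → vv m d i ∈ L := by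
    intro d hd hdm k
    induction k with
    | zero =>
      intro i hi
      rw [show i = 2 * d by omega]
      exact htop d hd hdm
    | succ k ih =>
      intro i hi
      have h1 := hadm _ (ih (i + 1) (by omega))
      rw [(hStr m d i).2.1] at h1
      have hc : (((i : ℂ) + 1) * (2 * (d : ℂ) - (i : ℂ))) ≠ 0 := by
        refine mul_ne_zero (Nat.cast_add_one_ne_zero i) ?_
        have e1 : (2 * (d : ℂ) - (i : ℂ)) = ((k + 1 : ℕ) : ℂ) := by
          have : ((i + (k + 1) : ℕ) : ℂ) = ((2 * d : ℕ) : ℂ) := by rw [hi]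
          push_cast at this ⊢
          linear_combination -this
        rw [e1]
        exact Nat.cast_ne_zero.2 (Nat.succ_ne_zero k)
      have h2 := L.smul_mem (((i : ℂ) + 1) * (2 * (d : ℂ) - (i : ℂ)))⁻¹ h1
      rw [smul_smul, inv_mul_cancel₀ hc, one_smul] at h2
      exact h2
  have htr : ∀ d, 1 ≤ d → d < m → ∀ i, i ≤ 2 * d → (vv m d i).trace = 0 := by
    intro d hd hdm i hi
    by_contra hne
    have h1 := (hTau m d i 0 0 hdm (by omega) hi (le_refl _)).1
    rw [vv_zero, pow_zero, mul_one] at h1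
    have := (h1 hne).1
    omega
  let K : Submodule ℂ (Gl m) := L ⊓ LinearMap.ker (Matrix.traceLinearMap (Fin m) ℂ ℂ)
  have hsup : (⊤ : Submodule ℂ (Gl m)) ≤ K ⊔ Submodule.span ℂ {(1 : Gl m)} := by
    rw [← (hBas m).2, Submodule.span_le]
    rintro _ ⟨⟨d, i⟩, rfl⟩
    have hi : (i : ℕ) ≤ 2 * (d : ℕ) := by
      have := i.2
      omega
    by_cases hd : (d : ℕ) = 0
    · refine Submodule.mem_sup_right ?_
      have e2 : (i : ℕ) = 0 := by omega
      change vv m (d : ℕ) (i : ℕ) ∈ _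
      rw [e2, vv_zero, hd, pow_zero]
      exact Submodule.mem_span_singleton_self _
    · refine Submodule.mem_sup_left ⟨hall d (by omega) d.2 (2 * d - i) i (by omega), ?_⟩
      exact htr d (by omega) d.2 i hi
  obtain ⟨l, hl, z, hz, rfl⟩ := Submodule.mem_sup.1 (hsup (Submodule.mem_top (x := y)))
  obtain ⟨c, rfl⟩ := Submodule.mem_span_singleton.1 hz
  have hl2 : l.trace = 0 := hl.2
  have hc : c = 0 := by
    rw [trace_add, hl2, zero_add, trace_smul, trace_one, smul_eq_mul] at hy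
    rcases mul_eq_zero.1 hy with h | h
    · exact h
    · exfalso
      rw [Fintype.card_fin] at h
      have := Nat.cast_eq_zero.1 h
      omega
  rw [hc, zero_smul, add_zero]
  exact hl.1

end MP3b
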