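import Pool.Agent.Lib.MP_3b3418_ag.SpecB

/-!
# The derivations `Rd y`: bracket, and the ideal of `SL_m`
-/

set_option autoImplicit false

namespace MP3b

open Matrix

theorem Jpr_RR {m : ℕ} (y z : Gl m) (q : Fin m × Fin m) :
    Rd y (Rd z (MvPolynomial.X q)) = ∑ k, (y * z) k q.2 • MvPolynomial.X (q.1, k) := by
  rw [Rd_X, map_sum]
  have h1 : ∀ k, Rd y (z k q.2 • MvPolynomial.X (q.1, k)) =
      ∑ l, (y l k * z k q.2) • MvPolynomial.X (q.1, l) := by
    intro k
    rw [Derivation.map_smul, Rd_X, Finset.smul_sum]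
    refine Finset.sum_congr rfl fun l _ => ?_
    rw [smul_smul, mul_comm]
  rw [Finset.sum_congr rfl fun k _ => h1 k, Finset.sum_comm]
  refine Finset.sum_congr rfl fun l _ => ?_
  rw [← Finset.sum_smul, Matrix.mul_apply]

theorem Jpr_brk {m : ℕ} (y z : Gl m) (P : Pl m) :
    Rd y (Rd z P) - Rd z (Rd y P) = Rd (y * z - z * y) P := by
  have h : ⁅Rd y, Rd z⁆ = Rd (y * z - z * y) := by
    refine MvPolynomial.derivation_ext fun q => ?_
    rw [Derivation.commutator_apply, Jpr_RR, Jpr_RR, Rd_X, ← Finset.sum_sub_distrib]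
    refine Finset.sum_congr rfl fun k _ => ?_
    rw [Matrix.sub_apply, sub_smul]
  rw [← h, Derivation.commutator_apply]

/-- the derivations which preserve the ideal of `SL_m` -/
noncomputable def Jpr_I (m : ℕ) : Submodule ℂ (Gl m) where
  carrier := {y | ∀ P : Pl m, (∀ g : SLm m, evm (g : Gl m) P = 0) →
    ∀ g : SLm m, evm (g : Gl m) (Rd y P) = 0}
  add_mem' := by
    intro a b ha hb P hP g
    rw [Rd_add, map_add, ha P hP g, hb P hP g, add_zero]
  zero_mem' := by
    intro P _ g
    rw [Rd_zero, map_zero]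
  smul_mem' := by
    intro c a ha P hP g
    rw [Rd_smul, map_smul, ha P hP g, smul_zero]

theorem Jpr_brk_mem {m : ℕ} {y z : Gl m} (hy : y ∈ Jpr_I m) (hz : z ∈ Jpr_I m) :
    y * z - z * y ∈ Jpr_I m := by
  intro P hP g
  rw [← Jpr_brk, map_sub, hy _ (fun g => hz P hP g) g, hz _ (fun g => hy P hP g) g, sub_zero]

theorem Jpr_single {m : ℕ} (hDev : DevStmt) {i j : Fin m} (hij : i ≠ j) (c : ℂ) :
    Matrix.single i j c ∈ Jpr_I m := by
  intro P hP g
  have hγ : ∀ t : ℂ, ((g : Gl m) * (1 + Matrix.single i j (t * c)) : Gl m) =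
      (g : Gl m) + t • ((g : Gl m) * Matrix.single i j c) := by
    intro t
    rw [mul_add, mul_one]
    congr 1
    rw [← Matrix.mul_smul, Matrix.smul_single, smul_eq_mul]
  have h0 : ((g : Gl m) * (1 + Matrix.single i j ((0 : ℂ) * c)) : Gl m) = (g : Gl m) := by
    rw [hγ, zero_smul, add_zero]
  have h1 : HasDerivAt (fun t : ℂ => evm ((g : Gl m) * (1 + Matrix.single i j (t * c)) : Gl m) P)
      (evm ((g : Gl m) * (1 + Matrix.single i j ((0 : ℂ) * c)) : Gl m)
        (Rd (Matrix.single i j c) P)) 0 := by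
    apply hDev m P (fun t => (g : Gl m) * (1 + Matrix.single i j (t * c))) (Matrix.single i j c) 0
    intro a b
    rw [h0]
    have h2 : (fun t : ℂ => ((g : Gl m) * (1 + Matrix.single i j (t * c)) : Gl m) a b) =
        fun t => (g : Gl m) a b + t * ((g : Gl m) * Matrix.single i j c : Gl m) a b := by
      funext t
      rw [hγ, Matrix.add_apply, Matrix.smul_apply, smul_eq_mul]
    rw [h2]
    have h3 := ((hasDerivAt_id (0 : ℂ)).mul_const
      (((g : Gl m) * Matrix.single i j c : Gl m) a b)).const_add ((g : Gl m) a b)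
    rw [one_mul] at h3
    exact h3
  have h4 : (fun t : ℂ => evm ((g : Gl m) * (1 + Matrix.single i j (t * c)) : Gl m) P) =
      fun _ => 0 := by
    funext t
    let x : SLm m := ⟨Matrix.transvection i j (t * c), Matrix.det_transvection_of_ne i j hij _⟩
    have h6 : ((g * x : SLm m) : Gl m) = (g : Gl m) * (1 + Matrix.single i j (t * c)) :=
      Matrix.SpecialLinearGroup.coe_mul g x
    have h5 := hP (g * x)
    rw [h6] at h5
    exact h5
  rw [h4, h0] at h1
  exact h1.unique (hasDerivAt_const (0 : ℂ) (0 : ℂ))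

theorem tJpr (hDev : DevStmt) : JprStmt := by
  classical
  intro m
  refine ⟨Jpr_brk, ?_⟩
  intro y hy
  change y ∈ Jpr_I m
  rcases isEmpty_or_nonempty (Fin m) with hE | ⟨⟨i₀⟩⟩
  · have : y = 0 := Subsingleton.elim _ _
    rw [this]
    exact (Jpr_I m).zero_mem
  have hdiag : ∀ (i : Fin m) (c : ℂ), Matrix.single i i c - Matrix.single i₀ i₀ c ∈ Jpr_I m := by
    intro i c
    by_cases h : i = i₀
    · rw [h, sub_self]
      exact (Jpr_I m).zero_mem
    · have h1 := Jpr_brk_mem (Jpr_single hDev h c) (Jpr_single hDev (Ne.symm h) (1 : ℂ))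
      rw [Matrix.single_mul_single_same, Matrix.single_mul_single_same, mul_one, one_mul] at h1
      exact h1
  have h1 : y = ∑ i, ∑ j, if i = j then Matrix.single i j (y i j) - Matrix.single i₀ i₀ (y i j)
      else Matrix.single i j (y i j) := by
    have h2 : (∑ i, ∑ j, if i = j then Matrix.single i j (y i j) - Matrix.single i₀ i₀ (y i j)
        else Matrix.single i j (y i j)) = ∑ i, ∑ j, Matrix.single i j (y i j) -
          ∑ i, ∑ j, if i = j then Matrix.single i₀ i₀ (y i j) else 0 := by
      rw [← Finset.sum_sub_distrib]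
      refine Finset.sum_congr rfl fun i _ => ?_
      rw [← Finset.sum_sub_distrib]
      refine Finset.sum_congr rfl fun j _ => ?_
      split_ifs
      · rfl
      · rw [sub_zero]
    have h3 : (∑ i, ∑ j, if i = j then Matrix.single i₀ i₀ (y i j) else (0 : Gl m)) = 0 := by
      have h4 : (∑ i, ∑ j, if i = j then Matrix.single i₀ i₀ (y i j) else (0 : Gl m)) =
          ∑ i, Matrix.single i₀ i₀ (y i i) := by
        refine Finset.sum_congr rfl fun i _ => ?_
        rw [Finset.sum_ite_eq]
        simp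
      rw [h4]
      ext a b
      rw [Matrix.sum_apply, Matrix.zero_apply]
      simp only [Matrix.single_apply]
      split_ifs
      · exact hy
      · exact Finset.sum_const_zero
    rw [h2, h3, sub_zero]
    exact Matrix.matrix_eq_sum_single y
  rw [h1]
  refine (Jpr_I m).sum_mem fun i _ => (Jpr_I m).sum_mem fun j _ => ?_
  split_ifs with hij
  · subst hij
    exact hdiag i _
  · exact Jpr_single hDev hij _

end MP3b
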