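import Pool.Agent.Lib.MP_3b3418_ag.SpecB

/-!
# `SS Φ` is a Lie algebra
-/

set_option autoImplicit false

namespace MP3b

open Matrix

theorem tLia (hJpr : JprStmt) (hAct : ActStmt) : LiaStmt := by
  intro m j Φ p hp q hq
  obtain ⟨hp1, hp2⟩ := hp
  obtain ⟨hq1, hq2⟩ := hq
  obtain ⟨hJ1, hJ2⟩ := hJpr m
  obtain ⟨hA1, hA2, hA3, -, -⟩ := hAct m j
  refine ⟨?_, ?_⟩
  · change (p.1 * q.1 - q.1 * p.1).trace = 0
    rw [trace_sub, trace_mul_comm, sub_self]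
  have hRJ : ∀ y : Gl m, y.trace = 0 → ∀ Ψ ∈ JJ m j, RW y Ψ ∈ JJ m j := by
    intro y hy Ψ hΨ x g
    rw [RW_apply]
    exact hJ2 y hy _ (hΨ x) g
  have h1 : RW p.1 (RW q.1 Φ - act q.2 Φ) - act p.2 (RW q.1 Φ - act q.2 Φ) ∈ JJ m j :=
    (JJ m j).sub_mem (hRJ _ hp1 _ hq2) (hA3 _ _ hq2)
  have h2 : RW q.1 (RW p.1 Φ - act p.2 Φ) - act q.2 (RW p.1 Φ - act p.2 Φ) ∈ JJ m j :=
    (JJ m j).sub_mem (hRJ _ hq1 _ hp2) (hA3 _ _ hp2)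
  have h3 : RW (p.1 * q.1 - q.1 * p.1) Φ = RW p.1 (RW q.1 Φ) - RW q.1 (RW p.1 Φ) := by
    refine MultilinearMap.ext fun x => ?_
    rw [_root_.sub_apply, RW_apply, RW_apply, RW_apply, RW_apply, RW_apply]
    exact (hJ1 _ _ _).symm
  have h4 : act (p.2 * q.2 - q.2 * p.2) Φ = act q.2 (act p.2 Φ) - act p.2 (act q.2 Φ) :=
    (hA1 _ _ _).symm
  change RW (p.1 * q.1 - q.1 * p.1) Φ - act (p.2 * q.2 - q.2 * p.2) Φ ∈ JJ m j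
  have h5 := (JJ m j).sub_mem h1 h2
  convert h5 using 1
  rw [h3, h4, map_sub, map_sub, map_sub, map_sub, hA2, hA2]
  abel

end MP3b
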