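import Pool.Agent.Lib.MP_3b3418_ag.SpecA

/-!
# From one operator `tw w w` to the whole string
-/

set_option autoImplicit false

namespace MP3b

open Finset

/-- **Lme.** -/
theorem tLme (hTwa : TwaStmt) : LmeStmt := by
  intro V _ _ B hB I hI D hD hDI w n hn hβ hlow hw
  obtain ⟨hsym, hcomm, -, h4, -, -⟩ := hTwa V B hB
  have hW : ∀ k, D ((D ^ k) w) = (D ^ (k + 1)) w := by
    intro k
    rw [pow_succ', Module.End.mul_apply]
  have hzero : ∀ k, n < k → (D ^ k) w = 0 := by
    intro k hk
    obtain ⟨t, rfl⟩ := Nat.exists_eq_add_of_lt hk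
    rw [show n + t + 1 = t + (n + 1) by omega, pow_add, Module.End.mul_apply, hn, map_zero]
  have hval : ∀ k, k ≠ n → B w ((D ^ k) w) = 0 := by
    intro k hk
    rcases lt_or_gt_of_ne hk with h | h
    · exact hlow k h
    · rw [hzero k h, map_zero]
  have hstep : ∀ k l, D * tw B ((D ^ k) w) ((D ^ l) w) - tw B ((D ^ k) w) ((D ^ l) w) * D =
      tw B ((D ^ (k + 1)) w) ((D ^ l) w) + tw B ((D ^ k) w) ((D ^ (l + 1)) w) := by
    intro k l
    rw [hcomm D hD, hW, hW]
  obtain ⟨Q, hQ⟩ : ∃ Q : ℕ → Module.End ℂ V, ∀ N, Q N =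
      ∑ p ∈ antidiagonal N, N.choose p.1 • tw B ((D ^ p.1) w) ((D ^ p.2) w) := ⟨_, fun N => rfl⟩
  have hQs : ∀ N, Q (N + 1) = D * Q N - Q N * D := by
    intro N
    rw [hQ, hQ, Finset.sum_antidiagonal_choose_succ_nsmul
      (fun i j => tw B ((D ^ i) w) ((D ^ j) w)) N, Finset.mul_sum, Finset.sum_mul,
      ← Finset.sum_sub_distrib, ← Finset.sum_add_distrib]
    refine Finset.sum_congr rfl fun p hp => ?_
    have hc : N.choose p.2 = N.choose p.1 :=
      (Nat.choose_symm_of_eq_add (mem_antidiagonal.1 hp).symm).symm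
    rw [mul_smul_comm, smul_mul_assoc, ← smul_sub, hstep, smul_add, add_comm, hc]
  have hQI : ∀ N, Q N ∈ I := by
    intro N
    induction N with
    | zero =>
      rw [hQ]
      simpa using hw
    | succ N ih =>
      rw [hQs]
      exact hDI _ ih
  have hcw : ∀ k l, tw B w w * tw B ((D ^ k) w) ((D ^ l) w) -
      tw B ((D ^ k) w) ((D ^ l) w) * tw B w w =
      (2 * B w ((D ^ k) w)) • tw B w ((D ^ l) w) + (2 * B w ((D ^ l) w)) • tw B w ((D ^ k) w) := by
    intro k l
    rw [h4, two_mul, two_mul, add_smul, add_smul]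
    abel
  have h3 : ∀ N, tw B w ((D ^ N) w) ∈ I := by
    intro N
    have h := hI _ hw _ (hQI (N + n))
    have e : tw B w w * Q (N + n) - Q (N + n) * tw B w w =
        (((N + n).choose n : ℂ) * (4 * B w ((D ^ n) w))) • tw B w ((D ^ N) w) := by
      rw [hQ, Finset.mul_sum, Finset.sum_mul, ← Finset.sum_sub_distrib]
      have e1 : ∀ p ∈ antidiagonal (N + n),
          tw B w w * ((N + n).choose p.1 • tw B ((D ^ p.1) w) ((D ^ p.2) w)) -
          (N + n).choose p.1 • tw B ((D ^ p.1) w) ((D ^ p.2) w) * tw B w w =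
          ((N + n).choose p.1 • ((2 * B w ((D ^ p.1) w)) • tw B w ((D ^ p.2) w))) +
          ((N + n).choose p.1 • ((2 * B w ((D ^ p.2) w)) • tw B w ((D ^ p.1) w))) := by
        intro p hp
        rw [mul_smul_comm, smul_mul_assoc, ← smul_sub, hcw, smul_add]
      rw [Finset.sum_congr rfl e1, Finset.sum_add_distrib,
        Finset.sum_eq_single (n, N), Finset.sum_eq_single (N, n)]
      · dsimp only
        rw [Nat.choose_symm_add, ← Nat.cast_smul_eq_nsmul ℂ, smul_smul, ← add_smul]
        congr 1
        ring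
      · intro p hp hne
        have : p.2 ≠ n := by
          intro h2
          apply hne
          have := mem_antidiagonal.1 hp
          exact Prod.ext (by dsimp only; omega) h2
        rw [hval _ this, mul_zero, zero_smul, smul_zero]
      · intro hp
        exact absurd (mem_antidiagonal.2 (show N + n = N + n from rfl)) hp
      · intro p hp hne
        have : p.1 ≠ n := by
          intro h2
          apply hne
          have := mem_antidiagonal.1 hp
          exact Prod.ext h2 (by dsimp only; omega)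
        rw [hval _ this, mul_zero, zero_smul, smul_zero]
      · intro hp
        exact absurd (mem_antidiagonal.2 (add_comm n N)) hp
    rw [e] at h
    refine (I.smul_mem_iff ?_).1 h
    refine mul_ne_zero ?_ (mul_ne_zero (by norm_num) hβ)
    exact_mod_cast (Nat.choose_pos (Nat.le_add_left n N)).ne'
  intro k
  induction k with
  | zero =>
    intro l
    simpa using h3 l
  | succ k ih =>
    intro l
    have h := hstep k l
    have h5 : tw B ((D ^ (k + 1)) w) ((D ^ l) w) =
        (D * tw B ((D ^ k) w) ((D ^ l) w) - tw B ((D ^ k) w) ((D ^ l) w) * D) -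
        tw B ((D ^ k) w) ((D ^ (l + 1)) w) := by
      rw [h]
      abel
    rw [h5]
    exact I.sub_mem (hDI _ (ih l)) (ih (l + 1))

end MP3b
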