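import Pool.Agent.Lib.MP_3b3418_ag.SpecB

/-!
# The main statement follows
-/

set_option autoImplicit false

namespace MP3b

open Matrix

theorem tMai : MaiStmt := by
  intro hPdd hPhi hDns hCst m j hm s hs x g ν
  obtain ⟨Q, hQ, hfin⟩ := hPdd m j s (-(j : ℤ)) hs
  have hΦ := (hPhi m j Q hQ).1
  refine hfin _ _ ν fun ξ hξ => ?_
  exact hDns m j (by omega) Q hQ (fun x g g' => hCst m j hm (phi Q) hΦ x g g') _ _ ν ξ hξ

end MP3b
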