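import Pool.Agent.Lib.MP_3b3418_ag.SpecB

/-!
# The case `m = 2`
-/

set_option autoImplicit false

namespace MP3b

open Matrix

theorem Mtw_ee : ee 2 = !![0, 1; 0, 0] := by
  ext i j
  fin_cases i <;> fin_cases j <;> simp [ee]

theorem Mtw_ff : ff 2 = !![0, 0; 1, 0] := by
  ext i j
  fin_cases i <;> fin_cases j <;> norm_num [ff]

theorem Mtw_v11 : vv 2 1 1 = !![1, 0; 0, -1] := by
  rw [vv_succ, vv_zero, pow_one, adm_apply, Mtw_ee, Mtw_ff]
  ext i j
  fin_cases i <;> fin_cases j <;> simp

theorem Mtw_v12 : vv 2 1 2 = !![0, -2; 0, 0] := by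
  rw [vv_succ, Mtw_v11, adm_apply, Mtw_ee]
  ext i j
  fin_cases i <;> fin_cases j <;> norm_num

theorem Mtw_cen12 : ee 2 * vv 2 1 2 = vv 2 1 2 * ee 2 := by
  rw [Mtw_v12, Mtw_ee]
  ext i j
  fin_cases i <;> fin_cases j <;> simp

theorem Mtw_cen00 : ee 2 * vv 2 0 0 = vv 2 0 0 * ee 2 := by
  rw [vv_zero, pow_zero, mul_one, one_mul]

/-- The even case. -/
theorem Mtw_core (hBas : BasStmt) {j : ℕ} (Φ : (Gl 2) [⋀^Fin j]→ₗ[ℂ] Pl 2) (hΦ : IsPhi Φ)
    (hj : Even j) (A : Module.End ℂ (Gl 2)) (h00 : A (vv 2 0 0) = 0) (h12 : A (vv 2 1 2) = 0)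
    (h : (A (vv 2 1 0) = vv 2 1 1 ∧ A (vv 2 1 1) = vv 2 1 2) ∨
      (A (vv 2 1 0) = 0 ∧ A (vv 2 1 1) = vv 2 1 0)) : act A Φ.toMultilinearMap = 0 := by
  classical
  let b : Module.Basis (Ix 2) ℂ (Gl 2) :=
    Module.Basis.mk (hBas 2).1 (top_le_iff.2 (hBas 2).2)
  refine Module.Basis.ext_multilinear (fun _ => b) fun v => ?_
  have hx : ∀ i, b (v i) = vv 2 0 0 ∨ b (v i) = vv 2 1 0 ∨ b (v i) = vv 2 1 1 ∨
      b (v i) = vv 2 1 2 := by
    intro i
    rw [Module.Basis.mk_apply]
    generalize v i = p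
    obtain ⟨⟨d, hd⟩, ⟨n, hn⟩⟩ := p
    change n < 2 * d + 1 at hn
    change vv 2 d n = _ ∨ vv 2 d n = _ ∨ vv 2 d n = _ ∨ vv 2 d n = _
    have h1 : d = 0 ∨ d = 1 := by omega
    rcases h1 with rfl | rfl
    · have h2 : n = 0 := by omega
      subst h2
      exact Or.inl rfl
    · have h2 : n = 0 ∨ n = 1 ∨ n = 2 := by omega
      rcases h2 with rfl | rfl | rfl
      · exact Or.inr (Or.inl rfl)
      · exact Or.inr (Or.inr (Or.inl rfl))
      · exact Or.inr (Or.inr (Or.inr rfl))
  set x : Fin j → Gl 2 := fun i => b (v i) with hxd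
  change ∀ i, x i = vv 2 0 0 ∨ x i = vv 2 1 0 ∨ x i = vv 2 1 1 ∨ x i = vv 2 1 2 at hx
  rw [act_apply, _root_.zero_apply]
  change ∑ k, Φ (Function.update x k (A (x k))) = 0
  by_cases hc : ∃ l, x l = vv 2 0 0 ∨ x l = vv 2 1 2
  · obtain ⟨l, hl⟩ := hc
    refine Finset.sum_eq_zero fun k _ => ?_
    by_cases hk : k = l
    · subst hk
      have h0 : A (x k) = 0 := by
        rcases hl with hl | hl
        · rw [hl, h00]
        · rw [hl, h12]
      rw [h0]
      exact Φ.toMultilinearMap.map_update_zero x k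
    · refine hΦ.cen _ l ?_
      rw [Function.update_of_ne (Ne.symm hk)]
      rcases hl with hl | hl
      · rw [hl, Mtw_cen00]
      · rw [hl, Mtw_cen12]
  · have hy : ∀ i, x i = vv 2 1 0 ∨ x i = vv 2 1 1 := by
      intro i
      rcases hx i with h1 | h1 | h1 | h1
      · exact absurd ⟨i, Or.inl h1⟩ hc
      · exact Or.inl h1
      · exact Or.inr h1
      · exact absurd ⟨i, Or.inr h1⟩ hc
    clear hx hc
    clear_value x
    rcases j with _ | _ | _ | j
    · rw [Finset.univ_eq_empty, Finset.sum_empty]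
    · exact absurd hj (by decide)
    · -- two arguments
      rw [Fin.sum_univ_two]
      by_cases he : x 0 = x 1
      · have h1 : Function.update x 1 (A (x 1)) =
            (Function.update x 0 (A (x 0))) ∘ Equiv.swap (0 : Fin 2) 1 := by
          funext i
          fin_cases i
          · change Function.update x 1 (A (x 1)) 0 =
              Function.update x 0 (A (x 0)) (Equiv.swap (0 : Fin 2) 1 0)
            rw [Equiv.swap_apply_left, Function.update_of_ne (by decide),
              Function.update_of_ne (by decide)]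
            exact he
          · change Function.update x 1 (A (x 1)) 1 =
              Function.update x 0 (A (x 0)) (Equiv.swap (0 : Fin 2) 1 1)
            rw [Equiv.swap_apply_right, Function.update_self, Function.update_self, he]
        rw [h1, AlternatingMap.map_swap _ _ (by decide), add_neg_cancel]
      · have key : ∀ k l : Fin 2, k ≠ l → (x k = vv 2 1 0 → x l = vv 2 1 1 →
            Φ (Function.update x k (A (x k))) = 0) ∧ (x k = vv 2 1 1 → x l = vv 2 1 0 →
            Φ (Function.update x k (A (x k))) = 0) := by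
          intro k l hkl
          constructor
          · intro hk hl
            rcases h with ⟨h1, h2⟩ | ⟨h1, h2⟩
            · rw [hk, h1]
              refine Φ.map_eq_zero_of_eq _ (i := k) (j := l) ?_ hkl
              rw [Function.update_self, Function.update_of_ne (Ne.symm hkl), hl]
            · rw [hk, h1]
              exact Φ.toMultilinearMap.map_update_zero x k
          · intro hk hl
            rcases h with ⟨h1, h2⟩ | ⟨h1, h2⟩
            · rw [hk, h2]
              refine hΦ.cen _ k ?_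
              rw [Function.update_self, Mtw_cen12]
            · rw [hk, h2]
              refine Φ.map_eq_zero_of_eq _ (i := k) (j := l) ?_ hkl
              rw [Function.update_self, Function.update_of_ne (Ne.symm hkl), hl]
        have h01 : (0 : Fin 2) ≠ 1 := by decide
        rcases hy 0 with h0 | h0 <;> rcases hy 1 with h1 | h1
        · exact absurd (h0.trans h1.symm) he
        · rw [(key 0 1 h01).1 h0 h1, (key 1 0 h01.symm).2 h1 h0, add_zero]
        · rw [(key 0 1 h01).2 h0 h1, (key 1 0 h01.symm).1 h1 h0, add_zero]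
        · exact absurd (h0.trans h1.symm) he
    · -- at least three arguments
      have key : ∀ y : Fin (j + 3) → Gl 2, (∀ i, y i = vv 2 1 0 ∨ y i = vv 2 1 1) → Φ y = 0 := by
        intro y hy
        have h01 : (⟨0, by omega⟩ : Fin (j + 3)) ≠ ⟨1, by omega⟩ := fun h =>
          absurd (congrArg Fin.val h) Nat.zero_ne_one
        have h02 : (⟨0, by omega⟩ : Fin (j + 3)) ≠ ⟨2, by omega⟩ := fun h =>
          absurd (congrArg Fin.val h) (by norm_num)
        have h12' : (⟨1, by omega⟩ : Fin (j + 3)) ≠ ⟨2, by omega⟩ := fun h =>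
          absurd (congrArg Fin.val h) (by norm_num)
        rcases hy ⟨0, by omega⟩ with h0 | h0 <;> rcases hy ⟨1, by omega⟩ with h1 | h1 <;>
          rcases hy ⟨2, by omega⟩ with h2 | h2
        · exact Φ.map_eq_zero_of_eq y (h0.trans h1.symm) h01
        · exact Φ.map_eq_zero_of_eq y (h0.trans h1.symm) h01
        · exact Φ.map_eq_zero_of_eq y (h0.trans h2.symm) h02
        · exact Φ.map_eq_zero_of_eq y (h1.trans h2.symm) h12'
        · exact Φ.map_eq_zero_of_eq y (h1.trans h2.symm) h12'
        · exact Φ.map_eq_zero_of_eq y (h0.trans h2.symm) h02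
        · exact Φ.map_eq_zero_of_eq y (h0.trans h1.symm) h01
        · exact Φ.map_eq_zero_of_eq y (h0.trans h1.symm) h01
      have key2 : ∀ (k : Fin (j + 3)) (z : Gl 2), (z = vv 2 1 0 ∨ z = vv 2 1 1) →
          Φ (Function.update x k z) = 0 := by
        intro k z hz
        refine key _ fun i => ?_
        by_cases hi : i = k
        · subst hi
          rw [Function.update_self]
          exact hz
        · rw [Function.update_of_ne hi]
          exact hy i
      refine Finset.sum_eq_zero fun k _ => ?_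
      rcases h with ⟨h1, h2⟩ | ⟨h1, h2⟩
      · rcases hy k with hk | hk
        · rw [hk, h1]
          exact key2 k _ (Or.inr rfl)
        · rw [hk, h2]
          refine hΦ.cen _ k ?_
          rw [Function.update_self, Mtw_cen12]
      · rcases hy k with hk | hk
        · rw [hk, h1]
          exact Φ.toMultilinearMap.map_update_zero x k
        · rw [hk, h2]
          exact key2 k _ (Or.inl rfl)

/-- The element `-1` of `SL_2`. -/
def Mtw_neg : SLm 2 := ⟨-1, by
  rw [Matrix.det_neg, Matrix.det_one, Fintype.card_fin]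
  norm_num⟩

theorem Mtw_cj (y : Gl 2) : cj Mtw_neg⁻¹ y = y := by
  have h1 : Mtw_neg * Mtw_neg = 1 := by
    apply Subtype.ext
    change (-1 : Gl 2) * (-1) = 1
    rw [neg_mul_neg, one_mul]
  have h2 : Mtw_neg⁻¹ = Mtw_neg := inv_eq_of_mul_eq_one_left h1
  rw [cj_apply, inv_inv, h2]
  change (-1 : Gl 2) * (y * (-1)) = y
  rw [mul_neg, mul_one, neg_mul_neg, one_mul]

/-- The odd case. -/
theorem Mtw_odd {j : ℕ} (Φ : (Gl 2) [⋀^Fin j]→ₗ[ℂ] Pl 2) (hΦ : IsPhi Φ) (hj : ¬ Even j) :
    Φ.toMultilinearMap ∈ JJ 2 j := by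
  intro x g
  change evm (g : Gl 2) (Φ x) = 0
  have hb := hΦ.bor Mtw_neg (fun i k hik => by
    change (-1 : Gl 2) i k = 0
    rw [Matrix.neg_apply, Matrix.one_apply_ne (ne_of_gt hik), neg_zero]) (by
    change ee 2 * (-1 : Gl 2) = (-1 : Gl 2) * ee 2
    rw [mul_neg, mul_one, neg_mul, one_mul]) g x
  have ht := hΦ.tor (-1) (by norm_num) Mtw_neg (by
    change (-1 : Gl 2) = _
    ext i k
    fin_cases i <;> fin_cases k <;> simp) g x
  simp only [Mtw_cj] at hb ht
  rw [hb] at ht
  have h1 : Φ (fun k => (-1 : ℂ) • x k) = (-1 : ℂ) ^ j • Φ x := by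
    have h2 := Φ.toMultilinearMap.map_smul_univ (fun _ : Fin j => (-1 : ℂ)) x
    rw [Finset.prod_const, Finset.card_univ, Fintype.card_fin] at h2
    exact h2
  rw [h1, (Nat.not_even_iff_odd.1 hj).neg_one_pow, map_smul, neg_one_smul] at ht
  exact self_eq_neg.1 ht

/-- The case `m = 2`. -/
theorem tMtw (hBas : BasStmt) (hAct : ActStmt) : MtwStmt := by
  intro j Φ hΦ D hD
  by_cases hj : Even j
  · have h1 : act (adm (ee 2)) Φ.toMultilinearMap = 0 := by
      refine Mtw_core hBas Φ hΦ hj _ ?_ ?_ (Or.inl ⟨?_, ?_⟩)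
      · rw [adm_apply, Mtw_cen00, sub_self]
      · rw [adm_apply, Mtw_cen12, sub_self]
      · rw [vv_succ 2 1 0]
      · rw [vv_succ 2 1 1]
    have h2 : act D Φ.toMultilinearMap = 0 := by
      refine Mtw_core hBas Φ hΦ hj _ (hD.zero 0 (by norm_num)) ?_
        (Or.inr ⟨hD.zero 1 (by norm_num), ?_⟩)
      · have h3 := hD.succ 1 (by norm_num) 1 (by norm_num)
        rw [h3]
        norm_num
      · have h3 := hD.succ 1 (by norm_num) 0 (by norm_num)
        rw [h3]
        norm_num
    rw [h1, h2]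
    exact ⟨(JJ 2 j).zero_mem, (JJ 2 j).zero_mem⟩
  · have h1 := Mtw_odd Φ hΦ hj
    exact ⟨(hAct 2 j).2.2.1 _ _ h1, (hAct 2 j).2.2.1 _ _ h1⟩

end MP3b
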