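import Pool.Agent.Lib.MP_3b3418_ag.SpecB

/-!
# Local nilpotency
-/

set_option autoImplicit false

namespace MP3b

open Matrix

/-- Powers of an endomorphism. -/
theorem Nlp_le {V : Type} [AddCommGroup V] [Module ℂ V] {A : Module.End ℂ V} {n N : ℕ} {v : V}
    (h : (A ^ n) v = 0) (hn : n ≤ N) : (A ^ N) v = 0 := by
  obtain ⟨k, rfl⟩ := Nat.exists_eq_add_of_le hn
  rw [add_comm, pow_add, Module.End.mul_apply, h, map_zero]

/-- Commuting locally nilpotent operators. -/
theorem Nlp_sub {V : Type} [AddCommGroup V] [Module ℂ V] {A B : Module.End ℂ V}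
    (hAB : ∀ v, A (B v) = B (A v)) : ∀ (N n k : ℕ) (v : V), n + k = N → (A ^ n) v = 0 →
    (B ^ k) v = 0 → ((A - B) ^ N) v = 0 := by
  have hA : ∀ (n : ℕ) (v : V), (A ^ n) (B v) = B ((A ^ n) v) := by
    intro n
    induction n with
    | zero => intro v; rfl
    | succ n ih => intro v; rw [pow_succ, Module.End.mul_apply, Module.End.mul_apply, hAB, ih]
  have hB : ∀ (n : ℕ) (v : V), (B ^ n) (A v) = A ((B ^ n) v) := by
    intro n
    induction n with
    | zero => intro v; rfl
    | succ n ih => intro v; rw [pow_succ, Module.End.mul_apply, Module.End.mul_apply, ← hAB, ih]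
  intro N
  induction N with
  | zero =>
    intro n k v h1 h2 _
    have h0 : n = 0 := by omega
    subst h0
    exact h2
  | succ N ih =>
    intro n k v h1 h2 h3
    rcases n with _ | n
    · have h4 : v = 0 := h2
      rw [h4, map_zero]
    · rcases k with _ | k
      · have h4 : v = 0 := h3
        rw [h4, map_zero]
      · rw [pow_succ, Module.End.mul_apply, LinearMap.sub_apply, map_sub]
        rw [pow_succ, Module.End.mul_apply] at h2 h3
        have h5 : ((A - B) ^ N) (A v) = 0 := by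
          refine ih n (k + 1) (A v) (by omega) h2 ?_
          rw [hB, pow_succ, Module.End.mul_apply, h3, map_zero]
        have h6 : ((A - B) ^ N) (B v) = 0 := by
          refine ih (n + 1) k (B v) (by omega) ?_ h3
          rw [hA, pow_succ, Module.End.mul_apply, h2, map_zero]
        rw [h5, h6, sub_zero]

/-- Derivations and products. -/
theorem Nlp_mul {A : Type} [CommRing A] [Algebra ℂ A] (L : Derivation ℂ A A) :
    ∀ (N n k : ℕ) (a b : A), n + k = N → ((L : A →ₗ[ℂ] A) ^ n) a = 0 →
    ((L : A →ₗ[ℂ] A) ^ k) b = 0 → ((L : A →ₗ[ℂ] A) ^ N) (a * b) = 0 := by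
  intro N
  induction N with
  | zero =>
    intro n k a b h1 h2 _
    have h0 : n = 0 := by omega
    subst h0
    have h4 : a = 0 := h2
    rw [h4, zero_mul, map_zero]
  | succ N ih =>
    intro n k a b h1 h2 h3
    rcases n with _ | n
    · have h4 : a = 0 := h2
      rw [h4, zero_mul, map_zero]
    · rcases k with _ | k
      · have h4 : b = 0 := h3
        rw [h4, mul_zero, map_zero]
      · have h5 : (L : A →ₗ[ℂ] A) (a * b) = a * L b + L a * b := by
          change L (a * b) = _
          rw [Derivation.leibniz, smul_eq_mul, smul_eq_mul, mul_comm b]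
        rw [pow_succ, Module.End.mul_apply, h5, map_add]
        rw [pow_succ, Module.End.mul_apply] at h2 h3
        rw [ih (n + 1) k a (L b) (by omega) (by rw [pow_succ, Module.End.mul_apply]; exact h2) h3,
          ih n (k + 1) (L a) b (by omega) h2 (by rw [pow_succ, Module.End.mul_apply]; exact h3),
          add_zero]

/-- Powers of `Rd y` on the variables. -/
theorem Nlp_X {m : ℕ} (y : Gl m) (n : ℕ) (q : Fin m × Fin m) :
    ((Rd y : Pl m →ₗ[ℂ] Pl m) ^ n) (MvPolynomial.X q) =
      ∑ k, (y ^ n) k q.2 • MvPolynomial.X (q.1, k) := by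
  induction n with
  | zero =>
    rw [pow_zero, pow_zero, Module.End.one_apply, Finset.sum_eq_single q.2]
    · rw [Matrix.one_apply_eq, one_smul]
    · intro k _ hk
      rw [Matrix.one_apply_ne hk, zero_smul]
    · intro h
      exact absurd (Finset.mem_univ _) h
  | succ n ih =>
    rw [pow_succ', Module.End.mul_apply, ih, map_sum]
    have h1 : ∀ k : Fin m, (Rd y : Pl m →ₗ[ℂ] Pl m) ((y ^ n) k q.2 • MvPolynomial.X (q.1, k)) =
        ∑ l, ((y ^ n) k q.2 * y l k) • MvPolynomial.X (q.1, l) := by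
      intro k
      rw [map_smul]
      change (y ^ n) k q.2 • Rd y (MvPolynomial.X (q.1, k)) = _
      rw [Rd_X, Finset.smul_sum]
      refine Finset.sum_congr rfl fun l _ => ?_
      rw [smul_smul]
    rw [Finset.sum_congr rfl fun k _ => h1 k, Finset.sum_comm]
    refine Finset.sum_congr rfl fun l _ => ?_
    rw [← Finset.sum_smul, pow_succ', Matrix.mul_apply]
    congr 1
    refine Finset.sum_congr rfl fun k _ => ?_
    rw [mul_comm]

/-- `Rd y` is locally nilpotent for nilpotent `y`. -/
theorem Nlp_Rd {m : ℕ} {y : Gl m} {r : ℕ} (hy : y ^ r = 0) (P : Pl m) :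
    ∃ n : ℕ, ((Rd y : Pl m →ₗ[ℂ] Pl m) ^ n) P = 0 := by
  induction P using MvPolynomial.induction_on with
  | C a =>
    refine ⟨1, ?_⟩
    rw [pow_one]
    change Rd y (MvPolynomial.C a) = 0
    exact MvPolynomial.derivation_C _ a
  | add P Q hP hQ =>
    obtain ⟨n, hn⟩ := hP
    obtain ⟨k, hk⟩ := hQ
    refine ⟨n + k, ?_⟩
    rw [map_add, Nlp_le hn (Nat.le_add_right n k), Nlp_le hk (Nat.le_add_left k n), add_zero]
  | mul_X P q hP =>
    obtain ⟨n, hn⟩ := hP
    refine ⟨n + r, Nlp_mul (Rd y) (n + r) n r P _ rfl hn ?_⟩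
    rw [Nlp_X, hy]
    refine Finset.sum_eq_zero fun k _ => ?_
    rw [Matrix.zero_apply, zero_smul]

/-- Powers of `RW y`. -/
theorem Nlp_RW {m j : ℕ} (y : Gl m) (n : ℕ) (Ψ : Wm m j) (x : Fin j → Gl m) :
    ((RW y : Module.End ℂ (Wm m j)) ^ n) Ψ x = ((Rd y : Pl m →ₗ[ℂ] Pl m) ^ n) (Ψ x) := by
  induction n generalizing Ψ with
  | zero => rfl
  | succ n ih =>
    rw [pow_succ, Module.End.mul_apply, ih, pow_succ, Module.End.mul_apply]
    rfl

/-- `RW y` is locally nilpotent for nilpotent `y`. -/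
theorem Nlp_RW' {m j : ℕ} {y : Gl m} {r : ℕ} (hy : y ^ r = 0) (Ψ : Wm m j) :
    ∃ n : ℕ, ((RW y : Module.End ℂ (Wm m j)) ^ n) Ψ = 0 := by
  let b := Matrix.stdBasis ℂ (Fin m) (Fin m)
  choose n hn using fun v : Fin j → Fin m × Fin m => Nlp_Rd hy (Ψ fun i => b (v i))
  refine ⟨Finset.univ.sup n, ?_⟩
  refine Module.Basis.ext_multilinear (fun _ => b) fun v => ?_
  rw [Nlp_RW]
  exact Nlp_le (hn v) (Finset.le_sup (Finset.mem_univ v))

/-- The operator `D` in the argument number `k`. -/
noncomputable def Nlp_k {m j : ℕ} (D : Module.End ℂ (Gl m)) (k : Fin j) :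
    Module.End ℂ (Wm m j) :=
  MultilinearMap.compLinearMapₗ fun l => if l = k then D else LinearMap.id

theorem Nlp_k_apply {m j : ℕ} (D : Module.End ℂ (Gl m)) (k : Fin j) (Ψ : Wm m j)
    (x : Fin j → Gl m) :
    Nlp_k D k Ψ x = Ψ fun l => (if l = k then D else LinearMap.id) (x l) := rfl

theorem Nlp_act {m j : ℕ} (D : Module.End ℂ (Gl m)) :
    (act D : Module.End ℂ (Wm m j)) = ∑ k : Fin j, Nlp_k D k := rfl

theorem Nlp_k_pow {m j : ℕ} (D : Module.End ℂ (Gl m)) (k : Fin j) (n : ℕ) (Ψ : Wm m j)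
    (x : Fin j → Gl m) :
    (Nlp_k D k ^ n) Ψ x = Ψ fun l => (if l = k then D ^ n else LinearMap.id) (x l) := by
  induction n generalizing Ψ with
  | zero =>
    rw [pow_zero, Module.End.one_apply]
    congr 1
    funext l
    split_ifs with h
    · rw [pow_zero]
      rfl
    · rfl
  | succ n ih =>
    rw [pow_succ, Module.End.mul_apply, ih, Nlp_k_apply]
    congr 1
    funext l
    split_ifs with h
    · rw [pow_succ', Module.End.mul_apply]
    · rfl

/-- `act D` is nilpotent for nilpotent `D`. -/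
theorem Nlp_act_nil {m j : ℕ} {D : Module.End ℂ (Gl m)} {r : ℕ} (hD : D ^ r = 0) :
    IsNilpotent (act D : Module.End ℂ (Wm m j)) := by
  rw [Nlp_act]
  refine Commute.isNilpotent_sum (fun k _ => ⟨r, ?_⟩) fun k l _ _ => ?_
  · refine LinearMap.ext fun Ψ => MultilinearMap.ext fun x => ?_
    rw [Nlp_k_pow]
    refine Ψ.map_coord_zero k ?_
    rw [if_pos rfl, hD]
    rfl
  · refine LinearMap.ext fun Ψ => MultilinearMap.ext fun x => ?_
    rw [Module.End.mul_apply, Module.End.mul_apply, Nlp_k_apply, Nlp_k_apply, Nlp_k_apply,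
      Nlp_k_apply]
    congr 1
    funext i
    by_cases h1 : i = k
    · by_cases h2 : i = l
      · rw [if_pos h1, if_pos h2]
      · rw [if_pos h1, if_neg h2]
        rfl
    · by_cases h2 : i = l
      · rw [if_neg h1, if_pos h2]
        rfl
      · rw [if_neg h1, if_neg h2]

/-- Local nilpotency. -/
theorem tNlp (hEpw : EpwStmt) (hBas : BasStmt) (hAct : ActStmt) : NlpStmt := by
  intro m j D hD Ψ
  have hf : ff m ^ m = 0 := by
    ext a b
    rw [Matrix.zero_apply]
    by_contra h
    have h1 := ((hEpw m m).2 a b).1 h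
    omega
  -- `D` is nilpotent
  have hDv : ∀ d, d < m → ∀ i, i ≤ 2 * d → (D ^ (i + 1)) (vv m d i) = 0 := by
    intro d hd i
    induction i with
    | zero =>
      intro _
      rw [zero_add, pow_one]
      exact hD.zero d hd
    | succ i ih =>
      intro hi
      rw [pow_succ, Module.End.mul_apply, hD.succ d hd i (by omega), map_smul, ih (by omega),
        smul_zero]
  have hDn : D ^ (2 * m) = 0 := by
    refine LinearMap.ext fun x => ?_
    have hx : x ∈ Submodule.span ℂ (Set.range fun p : Ix m => vv m (p.1 : ℕ) (p.2 : ℕ)) := by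
      rw [(hBas m).2]
      exact Submodule.mem_top
    induction hx using Submodule.span_induction with
    | mem x hx =>
      obtain ⟨p, rfl⟩ := hx
      have h1 := p.1.2
      have h2 := p.2.2
      exact Nlp_le (hDv p.1 h1 p.2 (by omega)) (by omega)
    | zero => rw [map_zero, map_zero]
    | add x y _ _ hx hy => rw [map_add, hx, hy, map_add]
    | smul c x _ hx => rw [map_smul, hx, map_smul]
  obtain ⟨n, hn⟩ := Nlp_RW' (j := j) hf Ψ
  obtain ⟨k, hk⟩ := Nlp_act_nil (j := j) hDn
  refine ⟨n + k, ?_⟩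
  refine Nlp_sub (A := (RW (ff m) : Module.End ℂ (Wm m j))) (B := act D)
    (fun v => (hAct m j).2.1 (ff m) D v) (n + k) n k Ψ rfl hn ?_
  rw [hk, LinearMap.zero_apply]

end MP3b
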