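import Pool.Agent.Lib.MP_3b3418_ag.SpecA

/-!
# MP_3b3418_ag, task Nz: `v d i ≠ 0` for `d < m`, `i ≤ 2 d`
-/

set_option autoImplicit false

namespace MP3b

open Matrix

theorem tNz (hEpw : EpwStmt) (hStr : StrStmt) : NzStmt := by
  intro m d i hd
  induction i with
  | zero =>
    intro _ h0
    have h1 := ((hEpw m d).2 ⟨d, hd⟩ ⟨0, by omega⟩).2 (by simp)
    rw [vv_zero] at h0
    rw [h0] at h1
    exact h1 rfl
  | succ i ih =>
    intro hi h0
    have h1 := (hStr m d i).2.1
    rw [h0, map_zero] at h1
    have h3 := h1.symm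
    rw [smul_eq_zero] at h3
    rcases h3 with h3 | h3
    · rw [mul_eq_zero] at h3
      rcases h3 with h3 | h3
      · have h4 : ((i + 1 : ℕ) : ℂ) = 0 := by
          push_cast
          exact h3
        rw [Nat.cast_eq_zero] at h4
        omega
      · have h4 : ((2 * d : ℕ) : ℂ) = ((i : ℕ) : ℂ) := by
          push_cast
          linear_combination h3
        rw [Nat.cast_inj] at h4
        omega
    · exact ih (by omega) h3

end MP3b
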