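import Pool.Agent.Lib.MP_3b3418_ag.SpecB

/-!
# The pairing of exterior powers
-/

set_option autoImplicit false

namespace MP3b

open Matrix exteriorPower

/-- **Pai.** The pairing of exterior powers: naturality and nondegeneracy. -/
theorem tPai : PaiStmt := by
  intro V V' _ _ _ _ j
  refine ⟨?_, ?_⟩
  · intro f φ ω
    have h : pairingDual ℂ V j (ιMulti ℂ j fun k => (φ k) ∘ₗ f) =
        (pairingDual ℂ V' j (ιMulti ℂ j φ)) ∘ₗ (exteriorPower.map j f) := by
      apply exteriorPower.linearMap_ext
      ext v
      simp only [LinearMap.compAlternatingMap_apply, LinearMap.comp_apply,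
        exteriorPower.map_apply_ιMulti, pairingDual_ιMulti_ιMulti, Function.comp_apply]
    rw [h]; rfl
  · intro hfd ω hω
    let b := Module.finBasis ℂ V
    have h : (b.exteriorPower j).repr ω = 0 := by
      ext s
      rw [exteriorPower.basis_repr_apply]
      exact hω _
    exact (b.exteriorPower j).repr.map_eq_zero_iff.1 h

end MP3b
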