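import Pool.Agent.Lib.MP_3b3418_ag.SpecB

/-!
# From a polyvector field to a polynomial alternating form
-/

set_option autoImplicit false

namespace MP3b

open Matrix exteriorPower

/-- The linear map `θ ↦ ∑_a pairingDual θ (b a) • P a`. -/
private noncomputable def Pdd_L {m j : ℕ} {ι : Type} [Fintype ι]
    (b : Module.Basis ι ℂ (⋀[ℂ]^j (slm m × nil m))) (P : ι → Pl2 m) :
    ⋀[ℂ]^j (Module.Dual ℂ (slm m × nil m)) →ₗ[ℂ] Pl2 m :=
  ∑ a, ((pairingDual ℂ (slm m × nil m) j).flip (b a)).smulRight (P a)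

private theorem Pdd_L_apply {m j : ℕ} {ι : Type} [Fintype ι]
    (b : Module.Basis ι ℂ (⋀[ℂ]^j (slm m × nil m))) (P : ι → Pl2 m)
    (θ : ⋀[ℂ]^j (Module.Dual ℂ (slm m × nil m))) :
    Pdd_L b P θ = ∑ a, pairingDual ℂ (slm m × nil m) j θ (b a) • P a := by
  unfold Pdd_L
  rw [LinearMap.sum_apply]
  rfl

private theorem Pdd_ev {m j : ℕ} {ι : Type} [Fintype ι]
    (b : Module.Basis ι ℂ (⋀[ℂ]^j (slm m × nil m))) (P : ι → Pl2 m)
    (g ν : Gl m) (w : ⋀[ℂ]^j (slm m × nil m)) (hw : ∀ a, ev2 g ν (P a) = b.coord a w)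
    (θ : ⋀[ℂ]^j (Module.Dual ℂ (slm m × nil m))) :
    ev2 g ν (Pdd_L b P θ) = pairingDual ℂ (slm m × nil m) j θ w := by
  rw [Pdd_L_apply, map_sum]
  conv_rhs => rw [← b.sum_repr w, map_sum]
  refine Finset.sum_congr rfl fun a _ => ?_
  rw [map_smul, map_smul, hw a, smul_eq_mul, smul_eq_mul, mul_comm]
  rfl

/-- The alternating form attached to coordinate polynomials. -/
private noncomputable def Pdd_Q {m j : ℕ} {ι : Type} [Fintype ι]
    (b : Module.Basis ι ℂ (⋀[ℂ]^j (slm m × nil m))) (P : ι → Pl2 m) :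
    (Gl m × Gl m) [⋀^Fin j]→ₗ[ℂ] Pl2 m :=
  (Pdd_L b P).compAlternatingMap
    ((ιMulti ℂ j (M := Module.Dual ℂ (slm m × nil m))).compLinearMap cov)

private theorem Pdd_Q_apply {m j : ℕ} {ι : Type} [Fintype ι]
    (b : Module.Basis ι ℂ (⋀[ℂ]^j (slm m × nil m))) (P : ι → Pl2 m)
    (ξ : Fin j → Gl m × Gl m) :
    Pdd_Q b P ξ = Pdd_L b P (ιMulti ℂ j fun i => cov (ξ i)) := rfl

theorem tPdd (hPai : PaiStmt) (hCov : CovStmt) : PddStmt := by
  classical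
  intro m j s k hk
  obtain ⟨p, hp, hs⟩ := s.regular
  let b := Module.finBasis ℂ (⋀[ℂ]^j (slm m × nil m))
  choose P hP using fun a => hp (b.coord a)
  have hA : ∀ (g : SLm m) (ν : nil m) (ξ : Fin j → Gl m × Gl m),
      ev2 (g : Gl m) (ν : Gl m) (Pdd_Q b P ξ) =
        pairingDual ℂ (slm m × nil m) j (ιMulti ℂ j fun i => cov (ξ i)) (p g ν) := by
    intro g ν ξ
    rw [Pdd_Q_apply]
    refine Pdd_ev b P _ _ _ (fun a => ?_) _
    rw [hP a g ν]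
    rfl
  have hB : ∀ (g : SLm m) (ν : nil m) (ξ : Fin j → Gl m × Gl m)
      (φ : Fin j → Module.Dual ℂ (TS m ν)), (∀ i, cov (ξ i) = (φ i) ∘ₗ (orb m ν).mkQ) →
      ev2 (g : Gl m) (ν : Gl m) (Pdd_Q b P ξ) =
        pairingDual ℂ (TS m ν) j (ιMulti ℂ j φ) (s.val g ν) := by
    intro g ν ξ φ hφ
    rw [hA, hs, ← (hPai (slm m × nil m) (TS m ν) j).1]
    simp only [hφ]
  have hV : ∀ (ν : nil m) (ξ : Gl m × Gl m) (φ : Module.Dual ℂ (TS m ν)),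
      cov ξ = φ ∘ₗ (orb m ν).mkQ → Van ν ξ := by
    intro ν ξ φ h q hq
    rw [h, LinearMap.comp_apply]
    have : (orb m ν).mkQ q = 0 := by
      rw [Submodule.mkQ_apply]
      exact (Submodule.Quotient.mk_eq_zero _).2 hq
    rw [this, map_zero]
  have hL : ∀ (ν : nil m) (ξ : Fin j → Gl m × Gl m), (∀ i, Van ν (ξ i)) →
      ∃ φ : Fin j → Module.Dual ℂ (TS m ν), ∀ i, cov (ξ i) = (φ i) ∘ₗ (orb m ν).mkQ := by
    intro ν ξ h
    refine ⟨fun i => (orb m ν).liftQ (cov (ξ i)) (fun q hq => h i q hq), fun i => ?_⟩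
    rw [Submodule.liftQ_mkQ]
  refine ⟨Pdd_Q b P, ⟨?_, ?_, ?_⟩, ?_⟩
  · intro ξ i hi
    rw [Pdd_Q_apply]
    have : ιMulti ℂ j (fun i => cov (ξ i)) = 0 :=
      (ιMulti ℂ j (M := Module.Dual ℂ (slm m × nil m))).map_coord_zero i hi
    rw [this, map_zero]
  · intro c hc g ν ξ hξ
    obtain ⟨φ, hφ⟩ := hL _ ξ hξ
    have h1 := hB (g * c) (cjN c hc ν) ξ φ hφ
    rw [coe_cjN] at h1
    rw [h1, s.equivariant c hc g ν, ← (hPai (TS m ν) (TS m (cjN c hc ν)) j).1]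
    symm
    refine hB g ν _ _ fun i => ?_
    refine LinearMap.ext fun q => ?_
    rw [(hCov m).2.1 c hc (ξ i) q, hφ i]
    rfl
  · intro c hc g ν ξ hξ
    obtain ⟨φ, hφ⟩ := hL _ ξ hξ
    have h1 := hB g (c ^ 2 • ν) ξ φ hφ
    rw [Submodule.coe_smul] at h1
    rw [h1, hk c hc g ν, map_smul, smul_eq_mul, ← (hPai (TS m ν) (TS m (c ^ 2 • ν)) j).1]
    congr 1
    symm
    refine hB g ν _ _ fun i => ?_
    refine LinearMap.ext fun q => ?_
    rw [(hCov m).2.2 (c ^ 2) (ξ i) q, hφ i]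
    rfl
  · intro g g' ν h
    rw [← sub_eq_zero]
    refine (hPai (TS m ν) (TS m ν) j).2 inferInstance _ fun φ => ?_
    have h2 : ∀ i, ∃ ξ : Gl m × Gl m, cov ξ = (φ i) ∘ₗ (orb m ν).mkQ := fun i => (hCov m).1 _
    choose ξ hξ using h2
    rw [map_sub, ← hB g ν ξ φ hξ, ← hB g' ν ξ φ hξ, sub_eq_zero]
    exact h ξ fun i => hV ν (ξ i) (φ i) (hξ i)

end MP3b
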