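import Pool.Agent.Lib.MP_3b3418_ag.SpecB

/-!
# The form `phi Q`
-/

set_option autoImplicit false

namespace MP3b

open Matrix

private theorem Phi_cj_cj {m : ℕ} (b : SLm m) (y : Gl m) : cj b (cj b⁻¹ y) = y := by
  rw [cj_apply, cj_apply, inv_inv]
  calc ((b⁻¹ : SLm m) : Gl m) * ((b : Gl m) * (y * ((b⁻¹ : SLm m) : Gl m)) * (b : Gl m))
      = (((b⁻¹ : SLm m) : Gl m) * (b : Gl m)) * y * (((b⁻¹ : SLm m) : Gl m) * (b : Gl m)) := by
        simp only [mul_assoc]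
    _ = y := by rw [inv_mul_coe, one_mul, mul_one]

private theorem Phi_ee (m : ℕ) : ee m ∈ nil m := by
  intro i j hij
  unfold ee
  rw [Matrix.of_apply, if_neg]
  have h1 : (j : ℕ) ≤ (i : ℕ) := hij
  omega

private theorem Phi_sube {m : ℕ} (g : Gl m) (P : Pl2 m) :
    evm g (sube m P) = ev2 g (ee m) P := by
  have h : (evm g).comp (sube m) = ev2 g (ee m) := by
    refine MvPolynomial.algHom_ext fun q => ?_
    rw [AlgHom.comp_apply]
    unfold sube ev2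
    rw [MvPolynomial.aeval_X, MvPolynomial.aeval_X]
    rcases q with q | q
    · change evm g (MvPolynomial.X q) = g q.1 q.2
      unfold evm
      rw [MvPolynomial.aeval_X]
    · change evm g (MvPolynomial.C (ee m q.1 q.2)) = ee m q.1 q.2
      unfold evm
      rw [MvPolynomial.aeval_C]
      rfl
  exact DFunLike.congr_fun h P

private theorem Phi_formula {m j : ℕ} (Q : (Gl m × Gl m) [⋀^Fin j]→ₗ[ℂ] Pl2 m) (g : Gl m)
    (x : Fin j → Gl m) :
    evm g (phi Q x) = ev2 g (ee m) (Q fun k => (adm (ee m) (x k), x k)) :=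
  Phi_sube g _

private theorem Phi_trace_nil {m : ℕ} {y : Gl m} (hy : y ∈ nil m) : y.trace = 0 :=
  Finset.sum_eq_zero fun i _ => hy i i le_rfl

private theorem Phi_van {m : ℕ} (ν : nil m) (x : Gl m) : Van ν (adm (ν : Gl m) x, x) := by
  rintro ⟨y, μ⟩ ⟨hy, hμ⟩
  change (μ : Gl m) = (ν : Gl m) * (y : Gl m) - (y : Gl m) * (ν : Gl m) at hμ
  rw [cov_apply]
  change (((ν : Gl m) * x - x * (ν : Gl m)) * (y : Gl m)).trace + (x * (μ : Gl m)).trace = 0
  rw [hμ, sub_mul, mul_sub, trace_sub, trace_sub]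
  have e1 : (x * ((y : Gl m) * (ν : Gl m))).trace = ((ν : Gl m) * x * (y : Gl m)).trace := by
    rw [← mul_assoc, Matrix.trace_mul_comm, mul_assoc]
  rw [e1, mul_assoc x]
  ring

private theorem Phi_adm {m : ℕ} (b : SLm m) (a x : Gl m) :
    cj b (adm a x) = adm (cj b a) (cj b x) := by
  rw [adm_apply, adm_apply, map_sub, cj_mul, cj_mul]

private theorem Phi_smul {m j : ℕ} (Q : (Gl m × Gl m) [⋀^Fin j]→ₗ[ℂ] Pl2 m) (c : ℂ)
    (ξ : Fin j → Gl m × Gl m) : Q (fun i => c • ξ i) = c ^ j • Q ξ := by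
  have h := MultilinearMap.map_smul_univ Q.toMultilinearMap (fun _ => c) ξ
  rw [Finset.prod_const, Finset.card_univ, Fintype.card_fin] at h
  exact h

private theorem Phi_bor {m j : ℕ} {Q : (Gl m × Gl m) [⋀^Fin j]→ₗ[ℂ] Pl2 m} {k : ℤ}
    (hQ : IsPD k Q) (b : SLm m) (hb : Upper (b : Gl m))
    (hbe : ee m * (b : Gl m) = (b : Gl m) * ee m) (g : SLm m) (x : Fin j → Gl m) :
    evm ((g * b : SLm m) : Gl m) (phi Q x) = evm (g : Gl m) (phi Q fun k => cj b⁻¹ (x k)) := by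
  have h1 : cj b (ee m) = ee m := by
    rw [cj_apply, hbe, ← mul_assoc, inv_mul_coe, one_mul]
  have h2 : cj b⁻¹ (ee m) = ee m := by
    rw [cj_apply, inv_inv, ← mul_assoc, ← hbe, mul_assoc, mul_inv_coe, mul_one]
  have h3 : cjN b hb ⟨ee m, Phi_ee m⟩ = ⟨ee m, Phi_ee m⟩ := Subtype.ext h1
  have h4 := hQ.equi b hb g ⟨ee m, Phi_ee m⟩ (fun k => (adm (ee m) (x k), x k)) (fun i => by
    rw [h3]
    exact Phi_van _ _)
  change ev2 ((g * b : SLm m) : Gl m) (cj b (ee m)) (Q fun k => (adm (ee m) (x k), x k)) =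
    ev2 (g : Gl m) (ee m) (Q fun k => (cj b⁻¹ (adm (ee m) (x k)), cj b⁻¹ (x k))) at h4
  rw [h1] at h4
  simp only [Phi_adm, h2] at h4
  rw [Phi_formula, Phi_formula, h4]

private theorem Phi_tor {m j : ℕ} {Q : (Gl m × Gl m) [⋀^Fin j]→ₗ[ℂ] Pl2 m}
    (hQ : IsPD (-(j : ℤ)) Q) (c : ℂ) (hc : c ≠ 0) (t : SLm m)
    (ht : (t : Gl m) =
      Matrix.diagonal (fun i : Fin m => c ^ ((m : ℤ) - 1 - 2 * ((i : ℕ) : ℤ))))
    (g : SLm m) (x : Fin j → Gl m) :
    evm ((g * t : SLm m) : Gl m) (phi Q x) =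
      evm (g : Gl m) (phi Q fun k => c • cj t⁻¹ (x k)) := by
  have htu : Upper (t : Gl m) := by
    intro i j hij
    rw [ht, Matrix.diagonal_apply_ne]
    exact hij.ne'
  have hti : ((t⁻¹ : SLm m) : Gl m) =
      Matrix.diagonal (fun i : Fin m => (c ^ ((m : ℤ) - 1 - 2 * ((i : ℕ) : ℤ)))⁻¹) := by
    have h1 : (t : Gl m) *
        Matrix.diagonal (fun i : Fin m => (c ^ ((m : ℤ) - 1 - 2 * ((i : ℕ) : ℤ)))⁻¹) = 1 := by
      rw [ht, Matrix.diagonal_mul_diagonal, ← Matrix.diagonal_one]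
      congr 1
      funext i
      exact mul_inv_cancel₀ (zpow_ne_zero _ hc)
    calc ((t⁻¹ : SLm m) : Gl m) = ((t⁻¹ : SLm m) : Gl m) * ((t : Gl m) *
          Matrix.diagonal (fun i : Fin m => (c ^ ((m : ℤ) - 1 - 2 * ((i : ℕ) : ℤ)))⁻¹)) := by
          rw [h1, mul_one]
      _ = _ := by rw [← mul_assoc, inv_mul_coe, one_mul]
  have h1 : cj t⁻¹ (ee m) = c ^ 2 • ee m := by
    rw [cj_apply, inv_inv, ht, hti]
    ext a b
    rw [Matrix.diagonal_mul, Matrix.mul_diagonal, Matrix.smul_apply, smul_eq_mul]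
    by_cases hab : (b : ℕ) = (a : ℕ) + 1
    · have h2 : ee m a b = 1 := by
        unfold ee
        rw [Matrix.of_apply, if_pos hab]
      rw [h2, one_mul, mul_one, hab, ← _root_.zpow_neg, ← zpow_add₀ hc, ← zpow_natCast]
      congr 1
      push_cast
      ring
    · have h2 : ee m a b = 0 := by
        unfold ee
        rw [Matrix.of_apply, if_neg hab]
      rw [h2, zero_mul, mul_zero, mul_zero]
  have h2 : cj t (c ^ 2 • ee m) = ee m := by
    rw [← h1, Phi_cj_cj]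
  have h3 : cjN t htu (c ^ 2 • (⟨ee m, Phi_ee m⟩ : nil m)) = ⟨ee m, Phi_ee m⟩ := Subtype.ext h2
  have h4 := hQ.equi t htu g (c ^ 2 • (⟨ee m, Phi_ee m⟩ : nil m))
    (fun k => (adm (ee m) (x k), x k)) (fun i => by
      rw [h3]
      exact Phi_van _ _)
  change ev2 ((g * t : SLm m) : Gl m) (cj t (c ^ 2 • ee m)) (Q fun k => (adm (ee m) (x k), x k)) =
    ev2 (g : Gl m) (c ^ 2 • ee m) (Q fun k => (cj t⁻¹ (adm (ee m) (x k)), cj t⁻¹ (x k))) at h4
  rw [h2] at h4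
  simp only [Phi_adm, h1] at h4
  have h5 := hQ.wt c hc g ⟨ee m, Phi_ee m⟩
    (fun k => (adm (c ^ 2 • ee m) (cj t⁻¹ (x k)), cj t⁻¹ (x k))) (fun i => Phi_van _ _)
  change ev2 (g : Gl m) (c ^ 2 • ee m)
      (Q fun k => (adm (c ^ 2 • ee m) (cj t⁻¹ (x k)), cj t⁻¹ (x k))) =
    c ^ (-(j : ℤ)) * ev2 (g : Gl m) (ee m)
      (Q fun k => (adm (c ^ 2 • ee m) (cj t⁻¹ (x k)), c ^ 2 • cj t⁻¹ (x k))) at h5
  have h6 : (fun k => (adm (c ^ 2 • ee m) (cj t⁻¹ (x k)), c ^ 2 • cj t⁻¹ (x k))) =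
      fun k => c ^ 2 • (adm (ee m) (cj t⁻¹ (x k)), cj t⁻¹ (x k)) := by
    funext k
    rw [Prod.smul_mk, adm_apply, adm_apply, smul_mul_assoc, mul_smul_comm, smul_sub]
  have h7 : (fun k => (adm (ee m) (c • cj t⁻¹ (x k)), c • cj t⁻¹ (x k))) =
      fun k => c • (adm (ee m) (cj t⁻¹ (x k)), cj t⁻¹ (x k)) := by
    funext k
    rw [Prod.smul_mk, map_smul]
  rw [Phi_formula, Phi_formula, h4, h5, h6, h7, Phi_smul, Phi_smul, map_smul, map_smul,
    smul_eq_mul, smul_eq_mul, ← mul_assoc]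
  congr 1
  rw [_root_.zpow_neg, zpow_natCast, ← pow_mul, mul_comm 2 j, pow_mul, pow_two, ← mul_assoc,
    inv_mul_cancel₀ (pow_ne_zero _ hc), one_mul]

theorem tPhi (hCen : CenStmt) : PhiStmt := by
  intro m j Q hQ
  refine ⟨⟨fun x k hk => ?_, fun b hb hbe g x => Phi_bor hQ b hb hbe g x,
    fun c hc t ht g x => Phi_tor hQ c hc t ht g x⟩, fun g x => Phi_formula Q g x⟩
  have h1 : Q (fun k => (adm (ee m) (x k), x k)) = 0 := by
    refine hQ.zero _ k ?_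
    refine LinearMap.ext fun p => ?_
    rw [cov_apply, adm_apply, hk, sub_self, zero_mul, trace_zero, zero_add]
    exact Phi_trace_nil (upper_mul_nil p.2.2 ((hCen m).2.2.2 _ hk))
  change sube m (Q (fun k => (adm (ee m) (x k), x k))) = 0
  rw [h1, map_zero]

end MP3b
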