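import Pool.Agent.Lib.MP_3b3418_ag.SpecB

/-!
# `(e^k, ad e^k)` belongs to the Lie algebra of the form
-/

set_option autoImplicit false

namespace MP3b

open Matrix

theorem Pow_mul {m : ℕ} {A B : ℂ → Gl m} {A' B' : Gl m} {t₀ : ℂ}
    (hA : ∀ i j, HasDerivAt (fun t => A t i j) (A' i j) t₀)
    (hB : ∀ i j, HasDerivAt (fun t => B t i j) (B' i j) t₀) (i j : Fin m) :
    HasDerivAt (fun t => (A t * B t) i j) ((A' * B t₀ + A t₀ * B') i j) t₀ := by
  have h1 : (fun t => (A t * B t) i j) = fun t => ∑ k, A t i k * B t k j := by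
    funext t
    rw [Matrix.mul_apply]
  have h2 : (A' * B t₀ + A t₀ * B') i j = ∑ k, (A' i k * B t₀ k j + A t₀ i k * B' k j) := by
    rw [Matrix.add_apply, Matrix.mul_apply, Matrix.mul_apply, Finset.sum_add_distrib]
  rw [h1, h2]
  exact HasDerivAt.fun_sum fun k _ => (hA i k).mul (hB k j)

/-- the curve and its inverse -/
theorem Pow_inv {m : ℕ} (N : Gl m) (hN : N ^ m = 0) (t : ℂ) :
    (1 + t • N) * ∑ i ∈ Finset.range m, (-t) ^ i • N ^ i = 1 := by
  have h1 := mul_neg_geom_sum (-(t • N)) m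
  rw [sub_neg_eq_add] at h1
  have h2 : ∀ i : ℕ, (-(t • N)) ^ i = (-t) ^ i • N ^ i := by
    intro i
    rw [← neg_smul, smul_pow]
  simp only [h2] at h1
  rw [h1, hN, smul_zero, sub_zero]

theorem Pow_inv_deriv {m : ℕ} (N : Gl m) (hN1 : m ≤ 1 → N = 0) (a b : Fin m) :
    HasDerivAt (fun t : ℂ => (∑ i ∈ Finset.range m, (-t) ^ i • N ^ i : Gl m) a b) ((-N) a b) 0 := by
  have h1 : (fun t : ℂ => (∑ i ∈ Finset.range m, (-t) ^ i • N ^ i : Gl m) a b) =
      fun t => ∑ i ∈ Finset.range m, (-t) ^ i * (N ^ i) a b := by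
    funext t
    rw [Matrix.sum_apply]
    rfl
  have h2 : (-N) a b = ∑ i ∈ Finset.range m,
      ((i : ℂ) * (-(0 : ℂ)) ^ (i - 1) * (-1)) * (N ^ i) a b := by
    rw [Finset.sum_eq_single 1]
    · rw [pow_one, Matrix.neg_apply]
      simp
    · intro i _ hi
      rcases Nat.eq_zero_or_pos i with h | h
      · rw [h]
        simp
      · have h3 : i - 1 ≠ 0 := by omega
        rw [neg_zero, zero_pow h3]
        simp
    · intro h
      rw [Finset.mem_range, not_lt] at h
      rw [hN1 h, pow_one, Matrix.zero_apply, mul_zero]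
  rw [h1, h2]
  refine HasDerivAt.fun_sum fun i _ => HasDerivAt.mul_const ?_ _
  have h3 := (hasDerivAt_id (0 : ℂ)).neg
  exact h3.fun_pow i

theorem tPow (hEpw : EpwStmt) (hDev : DevStmt) (hDml : DmlStmt) : PowStmt := by
  classical
  intro m j Φ hΦ k hk
  set N : Gl m := ee m ^ k with hNdef
  have hNij : ∀ a b : Fin m, N a b = if (b : ℕ) = (a : ℕ) + k then 1 else 0 := (hEpw m k).1
  have hNm : N ^ m = 0 := by
    ext a b
    rw [hNdef, ← pow_mul, (hEpw m (k * m)).1, Matrix.zero_apply, if_neg]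
    have h1 := b.2
    have h2 : m ≤ k * m := Nat.le_mul_of_pos_left m hk
    omega
  have hN1 : m ≤ 1 → N = 0 := by
    intro h
    ext a b
    rw [hNij, Matrix.zero_apply, if_neg]
    have h1 := b.2
    omega
  have hdiag : ∀ a : Fin m, N a a = 0 := by
    intro a
    rw [hNij, if_neg]
    omega
  have hup : ∀ t : ℂ, Upper (1 + t • N) := by
    intro t a b hab
    rw [Matrix.add_apply, Matrix.smul_apply, hNij, Matrix.one_apply_ne (ne_of_gt hab), if_neg,
      smul_zero, add_zero]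
    have h1 : (b : ℕ) < (a : ℕ) := hab
    omega
  have hdet : ∀ t : ℂ, (1 + t • N).det = 1 := by
    intro t
    rw [Matrix.det_of_upperTriangular (hup t).blockTriangular]
    refine Finset.prod_eq_one fun a _ => ?_
    rw [Matrix.add_apply, Matrix.smul_apply, hdiag, Matrix.one_apply_eq, smul_zero, add_zero]
  let b : ℂ → SLm m := fun t => ⟨1 + t • N, hdet t⟩
  have hb : ∀ t, ((b t : SLm m) : Gl m) = 1 + t • N := fun _ => rfl
  have hbi : ∀ t, (((b t)⁻¹ : SLm m) : Gl m) = ∑ i ∈ Finset.range m, (-t) ^ i • N ^ i := by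
    intro t
    have h1 := Pow_inv N hNm t
    rw [← hb] at h1
    calc (((b t)⁻¹ : SLm m) : Gl m)
        = (((b t)⁻¹ : SLm m) : Gl m) * (((b t : SLm m) : Gl m) *
          ∑ i ∈ Finset.range m, (-t) ^ i • N ^ i) := by rw [h1, mul_one]
      _ = ∑ i ∈ Finset.range m, (-t) ^ i • N ^ i := by
          rw [← mul_assoc, inv_mul_coe, one_mul]
  have hcom : ∀ t, ee m * ((b t : SLm m) : Gl m) = ((b t : SLm m) : Gl m) * ee m := by
    intro t
    rw [hb, mul_add, add_mul, mul_one, one_mul, mul_smul_comm, smul_mul_assoc, hNdef,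
      ← pow_succ', ← pow_succ]
  refine ⟨?_, fun x g => ?_⟩
  · change N.trace = 0
    rw [Matrix.trace]
    exact Finset.sum_eq_zero fun a _ => hdiag a
  -- the two derivatives
  have hleft : HasDerivAt (fun t : ℂ => evm ((g : Gl m) * (1 + t • N)) (Φ x))
      (evm ((g : Gl m) * (1 + (0 : ℂ) • N)) (Rd N (Φ x))) 0 := by
    apply hDev m (Φ x) (fun t => (g : Gl m) * (1 + t • N)) N 0
    intro a c
    have h1 : ∀ t : ℂ, ((g : Gl m) * (1 + t • N) : Gl m) a c =
        (g : Gl m) a c + t * ((g : Gl m) * N : Gl m) a c := by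
      intro t
      rw [mul_add, mul_one, Matrix.add_apply, mul_smul_comm, Matrix.smul_apply, smul_eq_mul]
    have h2 : ((g : Gl m) * (1 + (0 : ℂ) • N) * N : Gl m) a c = ((g : Gl m) * N : Gl m) a c := by
      rw [zero_smul, add_zero, mul_one]
    rw [h2]
    simp only [h1]
    have h3 := ((hasDerivAt_id (0 : ℂ)).mul_const (((g : Gl m) * N : Gl m) a c)).const_add
      ((g : Gl m) a c)
    rw [one_mul] at h3
    exact h3
  let Bi : ℂ → Gl m := fun t => ∑ i ∈ Finset.range m, (-t) ^ i • N ^ i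
  have hBi0 : Bi 0 = 1 := by
    have h1 := Pow_inv N hNm 0
    rw [zero_smul, add_zero, one_mul] at h1
    exact h1
  let M : MultilinearMap ℂ (fun _ : Fin j => Gl m) ℂ :=
    (evm (g : Gl m)).toLinearMap.compMultilinearMap Φ.toMultilinearMap
  have hM : ∀ y : Fin j → Gl m, M y = evm (g : Gl m) (Φ y) := fun _ => rfl
  let γ : Fin j → ℂ → Gl m := fun l t => (1 + t • N) * x l * Bi t
  have hγ0 : ∀ l, γ l 0 = x l := by
    intro l
    change (1 + (0 : ℂ) • N) * x l * Bi 0 = x l
    rw [zero_smul, add_zero, one_mul, hBi0, mul_one]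
  have hright := hDml m j M γ (fun l => adm N (x l)) 0 (by
    intro l a c
    have h1 : ∀ a c, HasDerivAt (fun t : ℂ => (1 + t • N : Gl m) a c) (N a c) 0 := by
      intro a c
      have h3 := ((hasDerivAt_id (0 : ℂ)).mul_const (N a c)).const_add ((1 : Gl m) a c)
      rw [one_mul] at h3
      exact h3
    have h2 : ∀ a c, HasDerivAt (fun _ : ℂ => x l a c) ((0 : Gl m) a c) 0 := fun a c =>
      hasDerivAt_const _ _
    have h4 := Pow_mul (A := fun t => (1 + t • N) * x l) (B := Bi) (t₀ := 0)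
      (Pow_mul (A := fun t => 1 + t • N) (B := fun _ => x l) (t₀ := 0) h1 h2)
      (Pow_inv_deriv N hN1) a c
    have h5 : (N * x l + (1 + (0 : ℂ) • N) * 0) * Bi 0 + (1 + (0 : ℂ) • N) * x l * (-N) =
        adm N (x l) := by
      rw [zero_smul, add_zero, mul_zero, add_zero, one_mul, hBi0, mul_one, adm_apply, mul_neg,
        sub_eq_add_neg]
    rw [h5] at h4
    exact h4)
  have hEq : (fun t : ℂ => evm ((g : Gl m) * (1 + t • N)) (Φ x)) = fun t => M fun l => γ l t := by
    funext t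
    have h1 := hΦ.bor (b t) (hup t) (hcom t) g x
    have h2 : ((g * b t : SLm m) : Gl m) = (g : Gl m) * (1 + t • N) :=
      Matrix.SpecialLinearGroup.coe_mul g (b t)
    rw [h2] at h1
    rw [h1, hM]
    congr 2
    funext l
    change cj (b t)⁻¹ (x l) = (1 + t • N) * x l * Bi t
    rw [cj_apply, inv_inv, hbi, hb, mul_assoc]
  rw [hEq, zero_smul, add_zero, mul_one] at hleft
  have h1 := hleft.unique hright
  have h2 : (RW N Φ.toMultilinearMap - act (adm N) Φ.toMultilinearMap) x =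
      Rd N (Φ x) - ∑ k, Φ (Function.update x k (adm N (x k))) := by
    rw [_root_.sub_apply, RW_apply, act_apply]
    rfl
  change evm (g : Gl m) ((RW N Φ.toMultilinearMap - act (adm N) Φ.toMultilinearMap) x) = 0
  rw [h2, map_sub, h1, map_sum, sub_eq_zero]
  refine Finset.sum_congr rfl fun l _ => ?_
  rw [hM]
  congr 3
  funext i
  exact hγ0 i

end MP3b
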