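import Pool.Agent.Lib.MP_3b3418_ag.SpecB

/-!
# Reg: every cotangent vector at `(g, e)` is given by a matrix
-/

set_option autoImplicit false

namespace MP3b

open Matrix

/-- The recursion for the solution of `e u - u e = n`. -/
def Reg_U (n : ℕ → ℕ → ℂ) : ℕ → ℕ → ℂ
  | 0, _ => 0
  | i + 1, 0 => n i 0
  | i + 1, j + 1 => n i (j + 1) + Reg_U n i j

theorem Reg_U_lt (n : ℕ → ℕ → ℂ) (hn : ∀ i j, j ≤ i → n i j = 0) :
    ∀ i j, j < i → Reg_U n i j = 0 := by
  intro i
  induction i with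
  | zero => intro j hj; exact absurd hj (Nat.not_lt_zero _)
  | succ i ih =>
    intro j hj
    cases j with
    | zero =>
      change n i 0 = 0
      exact hn i 0 (Nat.zero_le _)
    | succ j =>
      change n i (j + 1) + Reg_U n i j = 0
      rw [hn i (j + 1) (by omega), ih j (by omega), add_zero]

theorem Reg_ee_mul {m : ℕ} (u : ℕ → ℕ → ℂ) (hu : ∀ i j, j < i → u i j = 0) (i j : Fin m) :
    (ee m * (Matrix.of fun a b : Fin m => u a b)) i j = u ((i : ℕ) + 1) j := by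
  rw [Matrix.mul_apply]
  by_cases h : (i : ℕ) + 1 < m
  · rw [Finset.sum_eq_single (⟨(i : ℕ) + 1, h⟩ : Fin m)]
    · simp [ee]
    · intro k _ hk
      have hk' : ¬ ((k : ℕ) = (i : ℕ) + 1) := fun h' => hk (Fin.ext h')
      simp [ee, hk']
    · intro h'
      exact absurd (Finset.mem_univ _) h'
  · rw [hu _ _ (by have := j.2; omega)]
    refine Finset.sum_eq_zero fun k _ => ?_
    have hk' : ¬ ((k : ℕ) = (i : ℕ) + 1) := by have := k.2; omega
    simp [ee, hk']

theorem Reg_mul_ee {m : ℕ} (u : ℕ → ℕ → ℂ) (i j : Fin m) :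
    ((Matrix.of fun a b : Fin m => u a b) * ee m) i j =
      if (j : ℕ) = 0 then 0 else u i ((j : ℕ) - 1) := by
  rw [Matrix.mul_apply]
  by_cases h : (j : ℕ) = 0
  · rw [if_pos h]
    refine Finset.sum_eq_zero fun k _ => ?_
    have hk' : ¬ ((j : ℕ) = (k : ℕ) + 1) := by omega
    simp [ee, hk']
  · rw [if_neg h]
    rw [Finset.sum_eq_single (⟨(j : ℕ) - 1, by have := j.2; omega⟩ : Fin m)]
    · have h1 : (j : ℕ) = (j : ℕ) - 1 + 1 := by omega
      simp [ee, ← h1]
    · intro k _ hk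
      have hk' : ¬ ((j : ℕ) = (k : ℕ) + 1) := fun h' => hk (Fin.ext (by
        change (k : ℕ) = (j : ℕ) - 1
        omega))
      simp [ee, hk']
    · intro h'
      exact absurd (Finset.mem_univ _) h'

/-- Every strictly upper triangular matrix is `e u - u e` with `u` upper triangular. -/
theorem Reg_solve {m : ℕ} (ν₀ : Gl m) (h : ν₀ ∈ nil m) :
    ∃ u : Gl m, Upper u ∧ ee m * u - u * ee m = ν₀ := by
  let n : ℕ → ℕ → ℂ := fun i j => if h : i < m ∧ j < m then ν₀ ⟨i, h.1⟩ ⟨j, h.2⟩ else 0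
  have hn : ∀ i j, j ≤ i → n i j = 0 := by
    intro i j hij
    change (if h : i < m ∧ j < m then ν₀ ⟨i, h.1⟩ ⟨j, h.2⟩ else 0) = 0
    by_cases h' : i < m ∧ j < m
    · rw [dif_pos h']
      exact h _ _ hij
    · rw [dif_neg h']
  have hn' : ∀ i j : Fin m, n i j = ν₀ i j := by
    intro i j
    change (if h : (i : ℕ) < m ∧ (j : ℕ) < m then ν₀ ⟨i, h.1⟩ ⟨j, h.2⟩ else 0) = _
    rw [dif_pos ⟨i.2, j.2⟩]
  have hU := Reg_U_lt n hn
  refine ⟨Matrix.of fun a b : Fin m => Reg_U n a b, fun i j hij => hU _ _ hij, ?_⟩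
  ext i j
  rw [Matrix.sub_apply, Reg_ee_mul _ hU, Reg_mul_ee, ← hn']
  rcases hj : (j : ℕ) with _ | j'
  · rw [if_pos rfl, sub_zero]
    rfl
  · rw [if_neg (Nat.succ_ne_zero _)]
    change n i (j' + 1) + Reg_U n i j' - Reg_U n i j' = _
    ring

theorem Reg_trace_nil {m : ℕ} (y : Gl m) (h : y ∈ nil m) : y.trace = 0 := by
  rw [Matrix.trace]
  exact Finset.sum_eq_zero fun i _ => h i i le_rfl

theorem Reg_van {m : ℕ} (ν : nil m) (hν : (ν : Gl m) = ee m) (ξ : Gl m × Gl m) (hξ : Van ν ξ)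
    (y : Gl m) (hy : Upper y) (ht : y.trace = 0) :
    ((ξ.1 + (ξ.2 * ee m - ee m * ξ.2)) * y).trace = 0 := by
  have hmu : (ν : Gl m) * y - y * (ν : Gl m) ∈ nil m :=
    (nil m).sub_mem (nil_mul_upper ν.2 hy) (upper_mul_nil ν.2 hy)
  have h := hξ (⟨y, ht⟩, ⟨_, hmu⟩) ⟨hy, rfl⟩
  rw [cov_apply] at h
  change (ξ.1 * y).trace + (ξ.2 * ((ν : Gl m) * y - y * (ν : Gl m))).trace = 0 at h
  rw [hν] at h
  rw [← h, add_mul, trace_add, sub_mul, mul_sub, trace_sub, trace_sub, mul_assoc, mul_assoc,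
    Matrix.trace_mul_comm (ee m) (ξ.2 * y), mul_assoc]

theorem tReg : RegStmt := by
  intro m ν hν ξ hξ
  rcases Nat.eq_zero_or_pos m with h0 | hm
  · subst h0
    refine ⟨ξ.2, ?_⟩
    have h : ξ = (adm (ee 0) ξ.2, ξ.2) := Subsingleton.elim _ _
    exact congrArg cov h
  let γ : Gl m := ξ.1 + (ξ.2 * ee m - ee m * ξ.2)
  have hγ : ∀ y : Gl m, Upper y → y.trace = 0 → (γ * y).trace = 0 := Reg_van ν hν ξ hξ
  have hlow : ∀ i j : Fin m, i < j → γ j i = 0 := by
    intro i j hij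
    have h := hγ (Matrix.single i j 1) (by
      intro a b hab
      rw [Matrix.single_apply]
      refine if_neg ?_
      rintro ⟨rfl, rfl⟩
      exact absurd hab (not_lt.2 hij.le)) (by
      rw [Matrix.trace_single_eq_of_ne _ _ _ hij.ne])
    rw [Matrix.trace_mul_single] at h
    simpa using h
  have hdiag : ∀ i j : Fin m, γ i i = γ j j := by
    intro i j
    have h := hγ (Matrix.single i i 1 - Matrix.single j j 1) (by
      intro a b hab
      rw [Matrix.sub_apply, Matrix.single_apply, Matrix.single_apply, if_neg, if_neg, sub_zero]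
      · rintro ⟨rfl, rfl⟩
        exact lt_irrefl _ hab
      · rintro ⟨rfl, rfl⟩
        exact lt_irrefl _ hab) (by
      rw [trace_sub, Matrix.trace_single_eq_same, Matrix.trace_single_eq_same, sub_self])
    rw [mul_sub, trace_sub, Matrix.trace_mul_single, Matrix.trace_mul_single] at h
    simpa [sub_eq_zero] using h
  let c : ℂ := γ ⟨0, hm⟩ ⟨0, hm⟩
  have hnil : γ - c • (1 : Gl m) ∈ nil m := by
    intro i j hij
    rw [Matrix.sub_apply, Matrix.smul_apply]
    rcases hij.lt_or_eq with h | h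
    · rw [hlow j i h, Matrix.one_apply_ne h.ne', smul_zero, sub_zero]
    · subst h
      rw [Matrix.one_apply_eq, smul_eq_mul, mul_one, hdiag j ⟨0, hm⟩]
      exact sub_self _
  obtain ⟨u, hu, heu⟩ := Reg_solve _ hnil
  refine ⟨ξ.2 + u, ?_⟩
  have hadm : adm (ee m) (ξ.2 + u) = ξ.1 - c • (1 : Gl m) := by
    rw [adm_apply, mul_add, add_mul]
    have h1 : ee m * ξ.2 + ee m * u - (ξ.2 * ee m + u * ee m) =
        (ee m * ξ.2 - ξ.2 * ee m) + (ee m * u - u * ee m) := by abel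
    rw [h1, heu]
    change ee m * ξ.2 - ξ.2 * ee m + (ξ.1 + (ξ.2 * ee m - ee m * ξ.2) - c • (1 : Gl m)) = _
    abel
  refine LinearMap.ext fun p => ?_
  rw [cov_apply, cov_apply]
  change _ = (adm (ee m) (ξ.2 + u) * (p.1 : Gl m)).trace + ((ξ.2 + u) * (p.2 : Gl m)).trace
  have hp1 : (p.1 : Gl m).trace = 0 := p.1.2
  have hp2 : (u * (p.2 : Gl m)).trace = 0 := Reg_trace_nil _ (upper_mul_nil p.2.2 hu)
  rw [hadm, sub_mul, trace_sub, smul_mul_assoc, one_mul, trace_smul, hp1, smul_zero, sub_zero,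
    add_mul, trace_add, hp2, add_zero]

end MP3b
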