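import Pool.Agent.Lib.MP_3b3418_ag.SpecB

/-!
# The abstract `sl_2` lemma
-/

set_option autoImplicit false

namespace MP3b

theorem tSlt : SltStmt := by
  intro V _ _ W J E H F hE _ hF hW hEF hHF v hv hEv hHv hN
  have hs : ∀ n : ℕ, (F ^ (n + 1)) v = F ((F ^ n) v) := fun n => by
    rw [pow_succ', Module.End.mul_apply]
  have h0 : (F ^ 0) v = v := rfl
  have ha : ∀ n : ℕ, (F ^ n) v ∈ W := by
    intro n
    induction n with
    | zero => exact hv
    | succ n ih => rw [hs]; exact hW _ ih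
  have hb : ∀ n : ℕ, H ((F ^ n) v) + (2 * (n : ℂ)) • (F ^ n) v ∈ J := by
    intro n
    induction n with
    | zero =>
      rw [h0, Nat.cast_zero, mul_zero, zero_smul, add_zero]
      exact hHv
    | succ n ih =>
      have h1 := hF _ ih
      have h2 : H (F ((F ^ n) v)) = F (H ((F ^ n) v)) + (-2 : ℂ) • F ((F ^ n) v) := by
        rw [← hHF, add_sub_cancel]
      have h3 : H ((F ^ (n + 1)) v) + (2 * ((n + 1 : ℕ) : ℂ)) • (F ^ (n + 1)) v =
          F (H ((F ^ n) v) + (2 * (n : ℂ)) • (F ^ n) v) := by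
        rw [hs, h2, map_add, map_smul, add_assoc, ← add_smul]
        congr 2
        push_cast
        ring
      rw [h3]
      exact h1
  have hc : ∀ n : ℕ, E ((F ^ (n + 1)) v) + ((n : ℂ) * ((n : ℂ) + 1)) • (F ^ n) v ∈ J := by
    intro n
    induction n with
    | zero =>
      have h1 := J.add_mem (J.add_mem (hEF v hv) (hF _ hEv)) hHv
      rw [hs, h0, Nat.cast_zero, zero_mul, zero_smul, add_zero]
      have h2 : E (F v) - F (E v) - H v + F (E v) + H v = E (F v) := by abel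
      rwa [h2] at h1
    | succ n ih =>
      have h1 := J.add_mem (J.add_mem (hEF _ (ha (n + 1))) (hF _ ih)) (hb (n + 1))
      rw [hs (n + 1)]
      have h2 : E (F ((F ^ (n + 1)) v)) - F (E ((F ^ (n + 1)) v)) - H ((F ^ (n + 1)) v) +
          F (E ((F ^ (n + 1)) v) + ((n : ℂ) * ((n : ℂ) + 1)) • (F ^ n) v) +
          (H ((F ^ (n + 1)) v) + (2 * ((n + 1 : ℕ) : ℂ)) • (F ^ (n + 1)) v) =
          E (F ((F ^ (n + 1)) v)) +
            (((n + 1 : ℕ) : ℂ) * (((n + 1 : ℕ) : ℂ) + 1)) • (F ^ (n + 1)) v := by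
        rw [map_add, map_smul, ← hs n]
        have h3 : (((n + 1 : ℕ) : ℂ) * (((n + 1 : ℕ) : ℂ) + 1)) • (F ^ (n + 1)) v =
            ((n : ℂ) * ((n : ℂ) + 1)) • (F ^ (n + 1)) v +
              (2 * ((n + 1 : ℕ) : ℂ)) • (F ^ (n + 1)) v := by
          rw [← add_smul]
          congr 1
          push_cast
          ring
        rw [h3]
        abel
      rwa [h2] at h1
  classical
  have hf := Nat.find_spec hN
  rcases hk : Nat.find hN with _ | _ | n
  · rw [hk] at hf
    exact hF _ hf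
  · rw [hk] at hf
    have h1 := hs 0
    rw [h0] at h1
    rwa [zero_add, ← zero_add 1, h1] at hf
  · exfalso
    rw [hk] at hf
    have h1 := hc (n + 1)
    have h2 := J.sub_mem h1 (hE _ hf)
    have h3 : E ((F ^ (n + 1 + 1)) v) +
        (((n + 1 : ℕ) : ℂ) * (((n + 1 : ℕ) : ℂ) + 1)) • (F ^ (n + 1)) v -
        E ((F ^ (n + 1 + 1)) v) =
        (((n + 1 : ℕ) : ℂ) * (((n + 1 : ℕ) : ℂ) + 1)) • (F ^ (n + 1)) v := by abel
    rw [h3] at h2
    have h4 : (((n + 1 : ℕ) : ℂ) * (((n + 1 : ℕ) : ℂ) + 1)) ≠ 0 := by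
      have h5 : (((n + 1 : ℕ) : ℂ) * (((n + 1 : ℕ) : ℂ) + 1)) = (((n + 1) * (n + 1 + 1) : ℕ) : ℂ) := by
        push_cast
        ring
      rw [h5, Nat.cast_ne_zero]
      positivity
    have h6 := (J.smul_mem_iff h4).1 h2
    exact Nat.find_min hN (by rw [hk]; omega) h6

end MP3b
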