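import Pool.Agent.Lib.MP_3b3418_ag.SpecA

/-!
# MP_3b3418_ag, task Tau: the trace form on the basis
-/

set_option autoImplicit false

namespace MP3b

open Matrix

theorem Tau_inv {m : ℕ} (x a b : Gl m) : (adm x a * b).trace = -(a * adm x b).trace := by
  rw [adm_apply, adm_apply, sub_mul, mul_sub, trace_sub, trace_sub, ← mul_assoc, ← mul_assoc,
    mul_assoc x a b, Matrix.trace_mul_comm x (a * b)]
  ring

theorem Tau_ef (hStr : StrStmt) (m d i : ℕ) : adm (ee m) (adm (ff m) (vv m d i)) =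
    ((i : ℂ) * (2 * (d : ℂ) + 1 - (i : ℂ))) • vv m d i := by
  cases i with
  | zero => rw [(hStr m d 0).2.2, map_zero, Nat.cast_zero, zero_mul, zero_smul]
  | succ k =>
    rw [(hStr m d k).2.1, map_smul, ← vv_succ]
    congr 1
    push_cast
    ring

theorem Tau_fwd (hStr : StrStmt) (m d i d' i' : ℕ)
    (h : (vv m d i * vv m d' i').trace ≠ 0) : d = d' ∧ i + i' = 2 * d := by
  have h1 := Tau_inv (hh m) (vv m d i) (vv m d' i')
  rw [(hStr m d i).1, (hStr m d' i').1, smul_mul_assoc, mul_smul_comm, trace_smul, trace_smul,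
    smul_eq_mul, smul_eq_mul, ← neg_mul] at h1
  have h1' := mul_right_cancel₀ h h1
  have h2 := Tau_inv (ff m) (adm (ee m) (vv m d i)) (vv m d' i')
  rw [Tau_inv (ee m), neg_neg, Tau_ef hStr, ← vv_succ, (hStr m d i).2.1, smul_mul_assoc,
    mul_smul_comm, trace_smul, trace_smul, smul_eq_mul, smul_eq_mul] at h2
  have h2' := mul_right_cancel₀ h h2
  have h3 : (i : ℤ) + i' = d + d' := by
    have : ((i : ℂ)) + i' = d + d' := by linear_combination h1' / 2
    exact_mod_cast this
  have h4 : ((i : ℤ) + 1) * (2 * d - i) = i' * (2 * d' + 1 - i') := by exact_mod_cast h2'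
  have h5 : (i' : ℤ) = d + d' - i := by linarith
  rw [h5] at h4
  have h6 : ((d : ℤ) - d') * (d + d' + 1) = 0 := by linear_combination h4
  rw [mul_eq_zero] at h6
  rcases h6 with h6 | h6
  · omega
  · omega

theorem tTau (hStr : StrStmt) (hNz : NzStmt) (hBas : BasStmt) : TauStmt := by
  intro m d i d' i' hd hd' hi hi'
  refine ⟨Tau_fwd hStr m d i d' i', ?_⟩
  rintro ⟨hdd, hii⟩ h0
  subst hdd
  have hlin : trf m (vv m d i) = 0 := by
    refine LinearMap.ext_on_range (hBas m).2 fun p => ?_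
    change (vv m d i * vv m (p.1 : ℕ) (p.2 : ℕ)).trace = 0
    by_contra hne
    obtain ⟨h1, h2⟩ := Tau_fwd hStr _ _ _ _ _ hne
    have h3 : (p.2 : ℕ) = i' := by omega
    rw [h3, ← h1] at hne
    exact hne h0
  apply hNz m d i hd hi
  ext a b
  have h1 := LinearMap.congr_fun hlin (Matrix.single b a 1)
  change (vv m d i * Matrix.single b a 1).trace = 0 at h1
  rw [Matrix.trace_mul_single] at h1
  simpa using h1

end MP3b
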