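import Pool.Agent.Lib.MP_3b3418_ag.SpecB

/-!
# Tor: `(h, ad h + 1) ∈ 𝔰`
-/

set_option autoImplicit false

namespace MP3b

open Matrix

theorem Tor_sum_range (m : ℕ) :
    ∀ a : ℤ, ∑ i ∈ Finset.range m, (a - 2 * (i : ℤ)) = m * (a + 1 - m) := by
  induction m with
  | zero => intro a; simp
  | succ m ih =>
    intro a
    rw [Finset.sum_range_succ, ih]
    push_cast
    ring

theorem Tor_sum (m : ℕ) : ∑ i : Fin m, ((m : ℤ) - 1 - 2 * ((i : ℕ) : ℤ)) = 0 := by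
  rw [Fin.sum_univ_eq_sum_range (fun i : ℕ => (m : ℤ) - 1 - 2 * (i : ℤ)) m, Tor_sum_range]
  ring

theorem Tor_prod {ι : Type} (s : Finset ι) (a : ι → ℤ) (c : ℂ) (hc : c ≠ 0) :
    ∏ i ∈ s, c ^ a i = c ^ (∑ i ∈ s, a i) := by
  classical
  induction s using Finset.induction_on with
  | empty => simp
  | insert i s hi ih => rw [Finset.prod_insert hi, Finset.sum_insert hi, zpow_add₀ hc, ih]

theorem Tor_trace (m : ℕ) : (hh m).trace = 0 := by
  unfold hh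
  rw [Matrix.trace_diagonal]
  have h := congrArg (fun z : ℤ => (z : ℂ)) (Tor_sum m)
  simpa using h

/-- The element of the torus. -/
noncomputable def Tor_t (m : ℕ) (c : ℂ) (hc : c ≠ 0) : SLm m :=
  ⟨Matrix.diagonal (fun i : Fin m => c ^ ((m : ℤ) - 1 - 2 * ((i : ℕ) : ℤ))), by
    rw [Matrix.det_diagonal, Tor_prod _ _ c hc, Tor_sum, zpow_zero]⟩

theorem Tor_t_coe (m : ℕ) (c : ℂ) (hc : c ≠ 0) : (Tor_t m c hc : Gl m) =
    Matrix.diagonal (fun i : Fin m => c ^ ((m : ℤ) - 1 - 2 * ((i : ℕ) : ℤ))) := rfl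

theorem Tor_t_inv (m : ℕ) (c : ℂ) (hc : c ≠ 0) : (((Tor_t m c hc)⁻¹ : SLm m) : Gl m) =
    Matrix.diagonal (fun i : Fin m => c ^ (-((m : ℤ) - 1 - 2 * ((i : ℕ) : ℤ)))) := by
  have h1 : (Tor_t m c hc : Gl m) *
      Matrix.diagonal (fun i : Fin m => c ^ (-((m : ℤ) - 1 - 2 * ((i : ℕ) : ℤ)))) = 1 := by
    rw [Tor_t_coe, Matrix.diagonal_mul_diagonal, ← Matrix.diagonal_one]
    congr 1
    funext i
    rw [← zpow_add₀ hc, add_neg_cancel, zpow_zero]
  rw [← mul_one (((Tor_t m c hc)⁻¹ : SLm m) : Gl m), ← h1, ← mul_assoc, inv_mul_coe, one_mul]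

/-- The curve `c • t x t⁻¹`. -/
noncomputable def Tor_curve {m : ℕ} (x : Gl m) (c : ℂ) : Gl m :=
  Matrix.of fun a b => c ^ (1 + 2 * (((b : ℕ) : ℤ) - ((a : ℕ) : ℤ))) * x a b

theorem Tor_curve_one {m : ℕ} (x : Gl m) : Tor_curve x 1 = x := by
  ext a b
  change (1 : ℂ) ^ (1 + 2 * (((b : ℕ) : ℤ) - ((a : ℕ) : ℤ))) * x a b = x a b
  rw [_root_.one_zpow, one_mul]

theorem Tor_curve_eq {m : ℕ} (x : Gl m) (c : ℂ) (hc : c ≠ 0) :
    c • cj (Tor_t m c hc)⁻¹ x = Tor_curve x c := by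
  ext a b
  rw [Matrix.smul_apply, cj_apply, inv_inv, Tor_t_inv, Tor_t_coe, Matrix.diagonal_mul,
    Matrix.mul_diagonal]
  change _ = c ^ (1 + 2 * (((b : ℕ) : ℤ) - ((a : ℕ) : ℤ))) * x a b
  have h : c ^ (1 + 2 * (((b : ℕ) : ℤ) - ((a : ℕ) : ℤ))) =
      c * (c ^ ((m : ℤ) - 1 - 2 * ((a : ℕ) : ℤ)) * c ^ (-((m : ℤ) - 1 - 2 * ((b : ℕ) : ℤ)))) := by
    rw [← zpow_add₀ hc]
    nth_rewrite 2 [← zpow_one c]
    rw [← zpow_add₀ hc]
    congr 1
    ring
  rw [h, smul_eq_mul]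
  ring

theorem Tor_deriv (n : ℤ) (a b : ℂ) : HasDerivAt (fun c : ℂ => a * c ^ n * b) (a * (n : ℂ) * b) 1 := by
  have h := ((hasDerivAt_zpow n (1 : ℂ) (Or.inl one_ne_zero)).const_mul a).mul_const b
  simpa using h

theorem tTor (hTri : TriStmt) (hDev : DevStmt) (hDml : DmlStmt) : TorStmt := by
  intro m j Φ hΦ
  refine ⟨Tor_trace m, ?_⟩
  intro x g
  -- the left side
  let γ : ℂ → Gl m := fun c =>
    (g : Gl m) * Matrix.diagonal (fun i : Fin m => c ^ ((m : ℤ) - 1 - 2 * ((i : ℕ) : ℤ)))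
  have hγ1 : γ 1 = (g : Gl m) := by
    change (g : Gl m) * Matrix.diagonal
      (fun i : Fin m => (1 : ℂ) ^ ((m : ℤ) - 1 - 2 * ((i : ℕ) : ℤ))) = g
    have h : (fun i : Fin m => (1 : ℂ) ^ ((m : ℤ) - 1 - 2 * ((i : ℕ) : ℤ))) = fun _ => 1 := by
      funext i
      rw [_root_.one_zpow]
    rw [h, Matrix.diagonal_one, mul_one]
  have hL : HasDerivAt (fun c => evm (γ c) (Φ x)) (evm (γ 1) (Rd (hh m) (Φ x))) 1 := by
    refine hDev m (Φ x) γ (hh m) 1 fun a b => ?_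
    rw [hγ1]
    have h1 : (fun c => γ c a b) =
        fun c => (g : Gl m) a b * c ^ ((m : ℤ) - 1 - 2 * ((b : ℕ) : ℤ)) * 1 := by
      funext c
      change ((g : Gl m) * Matrix.diagonal
        (fun i : Fin m => c ^ ((m : ℤ) - 1 - 2 * ((i : ℕ) : ℤ))) : Gl m) a b = _
      rw [Matrix.mul_diagonal, mul_one]
    have h2 : ((g : Gl m) * hh m) a b =
        (g : Gl m) a b * (((m : ℤ) - 1 - 2 * ((b : ℕ) : ℤ) : ℤ) : ℂ) * 1 := by
      unfold hh
      rw [Matrix.mul_diagonal, mul_one]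
      push_cast
      rfl
    rw [h1, h2]
    exact Tor_deriv _ _ _
  -- the right side
  let M : MultilinearMap ℂ (fun _ : Fin j => Gl m) ℂ :=
    (evm (g : Gl m)).toLinearMap.compMultilinearMap Φ.toMultilinearMap
  have hM : ∀ y : Fin j → Gl m, M y = evm (g : Gl m) (Φ y) := fun _ => rfl
  have hR : HasDerivAt (fun c => M fun k => Tor_curve (x k) c)
      (∑ k, M (Function.update (fun l => Tor_curve (x l) 1) k ((adm (hh m) + 1) (x k)))) 1 := by
    refine hDml m j M (fun k c => Tor_curve (x k) c) (fun k => (adm (hh m) + 1) (x k)) 1 ?_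
    intro k a b
    have h1 : (fun c => Tor_curve (x k) c a b) =
        fun c => 1 * c ^ (1 + 2 * (((b : ℕ) : ℤ) - ((a : ℕ) : ℤ))) * x k a b := by
      funext c
      rw [one_mul]
      rfl
    have h2 : ((adm (hh m) + 1) (x k)) a b =
        1 * ((1 + 2 * (((b : ℕ) : ℤ) - ((a : ℕ) : ℤ)) : ℤ) : ℂ) * x k a b := by
      rw [LinearMap.add_apply, Matrix.add_apply, (hTri m).2.2.2 (x k) a b, Module.End.one_apply]
      push_cast
      ring
    change HasDerivAt (fun c => Tor_curve (x k) c a b) (((adm (hh m) + 1) (x k)) a b) 1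
    rw [h1, h2]
    exact Tor_deriv _ _ _
  have hev : (fun c => evm (γ c) (Φ x)) =ᶠ[nhds (1 : ℂ)] fun c => M fun k => Tor_curve (x k) c := by
    filter_upwards [isOpen_ne.mem_nhds (one_ne_zero : (1 : ℂ) ≠ 0)] with c hc
    have h := hΦ.tor c hc (Tor_t m c hc) rfl g x
    have h1 : ((g * Tor_t m c hc : SLm m) : Gl m) = γ c := by
      rw [Matrix.SpecialLinearGroup.coe_mul, Tor_t_coe]
    rw [h1] at h
    rw [h, hM]
    have h2 : (fun k => c • cj (Tor_t m c hc)⁻¹ (x k)) = fun k => Tor_curve (x k) c := by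
      funext k
      exact Tor_curve_eq _ _ _
    rw [h2]
  have heq := hL.unique (hR.congr_of_eventuallyEq hev)
  rw [hγ1] at heq
  have hx : (fun l => Tor_curve (x l) 1) = x := by
    funext l
    exact Tor_curve_one _
  rw [hx] at heq
  change evm (g : Gl m) ((RW (hh m) Φ.toMultilinearMap -
    act (adm (hh m) + 1) Φ.toMultilinearMap) x) = 0
  rw [_root_.sub_apply, RW_apply, act_apply, map_sub, map_sum]
  rw [sub_eq_zero]
  exact heq

end MP3b
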