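import Pool.Agent.Lib.MP_3b3418_ag.SpecA

/-!
# MP_3b3418_ag, task Tri: the relations of the principal `sl_2`
-/

set_option autoImplicit false

namespace MP3b

open Matrix

theorem Tri_ee_apply {m : ℕ} (i j : Fin m) :
    ee m i j = if (j : ℕ) = (i : ℕ) + 1 then 1 else 0 := rfl

theorem Tri_ff_apply {m : ℕ} (i j : Fin m) :
    ff m i j = if (i : ℕ) = (j : ℕ) + 1 then ((i : ℕ) : ℂ) * ((m : ℂ) - ((i : ℕ) : ℂ)) else 0 := rfl

theorem Tri_h {m : ℕ} (x : Gl m) (i j : Fin m) :
    (adm (hh m) x) i j = (2 * (((j : ℕ) : ℂ) - ((i : ℕ) : ℂ))) * x i j := by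
  rw [adm_apply, Matrix.sub_apply, hh, Matrix.diagonal_mul, Matrix.mul_diagonal]
  ring

theorem tTri : TriStmt := by
  intro m
  refine ⟨?_, ?_, ?_, fun x i j => Tri_h x i j⟩
  · ext i j
    rw [adm_apply, Matrix.sub_apply, Matrix.mul_apply, Matrix.mul_apply]
    have h1 : ∑ k, ee m i k * ff m k j =
        if i = j then (((i : ℕ) : ℂ) + 1) * ((m : ℂ) - (((i : ℕ) : ℂ) + 1)) else 0 := by
      by_cases hi : (i : ℕ) + 1 < m
      · rw [Finset.sum_eq_single ⟨(i : ℕ) + 1, hi⟩]
        · rw [Tri_ee_apply, Tri_ff_apply, if_pos rfl]
          by_cases hij : i = j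
          · subst hij
            rw [if_pos rfl, if_pos rfl]
            push_cast
            ring
          · rw [if_neg hij, if_neg, mul_zero]
            intro h
            exact hij (Fin.ext (by simpa using h))
        · intro k _ hk
          rw [Tri_ee_apply, if_neg, zero_mul]
          intro h
          exact hk (Fin.ext h)
        · intro h
          exact absurd (Finset.mem_univ _) h
      · rw [Finset.sum_eq_zero]
        · by_cases hij : i = j
          · rw [if_pos hij]
            have h2 : (i : ℕ) + 1 = m := by have := i.2; omega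
            have h3 : (((i : ℕ) : ℂ) + 1) = (m : ℂ) := by exact_mod_cast h2
            rw [h3, sub_self, mul_zero]
          · rw [if_neg hij]
        · intro k _
          rw [Tri_ee_apply, if_neg, zero_mul]
          intro h
          have := k.2
          omega
    have h2 : ∑ k, ff m i k * ee m k j =
        if i = j then ((i : ℕ) : ℂ) * ((m : ℂ) - ((i : ℕ) : ℂ)) else 0 := by
      by_cases hi : 1 ≤ (i : ℕ)
      · rw [Finset.sum_eq_single ⟨(i : ℕ) - 1, by have := i.2; omega⟩]
        · rw [Tri_ee_apply, Tri_ff_apply, if_pos (by simp; omega)]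
          by_cases hij : i = j
          · subst hij
            rw [if_pos rfl, if_pos (by simp; omega), mul_one]
          · rw [if_neg hij, if_neg, mul_zero]
            intro h
            apply hij
            apply Fin.ext
            simp only at h
            omega
        · intro k _ hk
          rw [Tri_ff_apply, if_neg, zero_mul]
          intro h
          apply hk
          apply Fin.ext
          simp only
          omega
        · intro h
          exact absurd (Finset.mem_univ _) h
      · rw [Finset.sum_eq_zero]
        · by_cases hij : i = j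
          · rw [if_pos hij]
            have h2 : (i : ℕ) = 0 := by omega
            rw [h2, Nat.cast_zero, zero_mul]
          · rw [if_neg hij]
        · intro k _
          rw [Tri_ff_apply, if_neg, zero_mul]
          intro h
          omega
    rw [h1, h2, hh, Matrix.diagonal_apply]
    by_cases hij : i = j
    · rw [if_pos hij, if_pos hij, if_pos hij]
      ring
    · rw [if_neg hij, if_neg hij, if_neg hij, sub_zero]
  · ext i j
    rw [Tri_h, Matrix.smul_apply, Tri_ee_apply, smul_eq_mul]
    by_cases h : (j : ℕ) = (i : ℕ) + 1
    · rw [if_pos h, h]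
      push_cast
      ring
    · rw [if_neg h, mul_zero, mul_zero]
  · ext i j
    rw [Tri_h, Matrix.smul_apply, Tri_ff_apply, smul_eq_mul]
    by_cases h : (i : ℕ) = (j : ℕ) + 1
    · rw [if_pos h, h]
      push_cast
      ring
    · rw [if_neg h, mul_zero, mul_zero]

end MP3b
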