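import Pool.Agent.Lib.MP_3b3418_ag.SpecA

/-! The operators `tw B a b`. -/

set_option autoImplicit false

namespace MP3b

private theorem Twa_comm {V : Type} [AddCommGroup V] [Module ℂ V] (B : V →ₗ[ℂ] V →ₗ[ℂ] ℂ)
    (a b : V) : tw B a b = tw B b a := by
  ext x
  rw [tw_apply, tw_apply, add_comm]

private theorem Twa_add {V : Type} [AddCommGroup V] [Module ℂ V] (B : V →ₗ[ℂ] V →ₗ[ℂ] ℂ)
    (a a' b : V) : tw B (a + a') b = tw B a b + tw B a' b := by
  ext x
  rw [LinearMap.add_apply, tw_apply, tw_apply, tw_apply, map_add, LinearMap.add_apply]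
  module

private theorem Twa_smul {V : Type} [AddCommGroup V] [Module ℂ V] (B : V →ₗ[ℂ] V →ₗ[ℂ] ℂ)
    (c : ℂ) (a b : V) : tw B (c • a) b = c • tw B a b := by
  ext x
  rw [LinearMap.smul_apply, tw_apply, tw_apply, map_smul, LinearMap.smul_apply, smul_eq_mul]
  module

private theorem Twa_der {V : Type} [AddCommGroup V] [Module ℂ V] (B : V →ₗ[ℂ] V →ₗ[ℂ] ℂ)
    (A : Module.End ℂ V) (hA : Skew B A) (a b : V) :
    A * tw B a b - tw B a b * A = tw B (A a) b + tw B a (A b) := by
  ext x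
  rw [LinearMap.sub_apply, LinearMap.add_apply, Module.End.mul_apply, Module.End.mul_apply,
    tw_apply, tw_apply, tw_apply, tw_apply, map_add, map_smul, map_smul, hA a x, hA b x]
  module

private theorem Twa_skew {V : Type} [AddCommGroup V] [Module ℂ V] (B : V →ₗ[ℂ] V →ₗ[ℂ] ℂ)
    (hB : ∀ x y, B x y = -B y x) (a b : V) : Skew B (tw B a b) := by
  intro x y
  rw [tw_apply, tw_apply, map_add, map_add, map_smul, map_smul, map_smul, map_smul,
    LinearMap.add_apply, LinearMap.smul_apply, LinearMap.smul_apply, smul_eq_mul, smul_eq_mul,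
    smul_eq_mul, smul_eq_mul, hB x b, hB x a]
  ring

theorem tTwa : TwaStmt := by
  intro V _ _ B hB
  refine ⟨Twa_comm B, Twa_der B, Twa_skew B hB, ?_, Twa_add B, Twa_smul B⟩
  intro a b c d
  rw [Twa_der B _ (Twa_skew B hB a b) c d, tw_apply, tw_apply, Twa_add, Twa_smul, Twa_smul,
    Twa_comm B c (_ + _), Twa_add, Twa_smul, Twa_smul, Twa_comm B b c, Twa_comm B a c,
    Twa_comm B b d]
  abel

end MP3b
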