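import Pool.Agent.Lib.MP_3b3418_ag.SpecA

/-!
# MP_3b3418_ag: all transvections of the top component
-/

set_option autoImplicit false

namespace MP3b

open Matrix

/-- the powers of `D` applied to `vv m (m - 1) (2 * m - 3)` -/
theorem Utt_pow {m : ℕ} (hm : 3 ≤ m) {D : Module.End ℂ (Gl m)} (hD : IsFp m D) :
    ∀ k : ℕ, k ≤ 2 * m - 3 → ∃ c : ℂ, c ≠ 0 ∧
      (D ^ k) (vv m (m - 1) (2 * m - 3)) = c • vv m (m - 1) (2 * m - 3 - k) := by
  intro k
  induction k with
  | zero =>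
    intro _
    refine ⟨1, one_ne_zero, ?_⟩
    rw [pow_zero, Module.End.one_apply, one_smul, Nat.sub_zero]
  | succ k ih =>
    intro hk
    obtain ⟨c, hc, h1⟩ := ih (by omega)
    have h2 : 2 * m - 3 - k = (2 * m - 3 - (k + 1)) + 1 := by omega
    have h3 := hD.succ (m - 1) (by omega) (2 * m - 3 - (k + 1)) (by omega)
    have h4 : ((((2 * m - 3 - (k + 1) : ℕ) : ℂ) + 1) *
        (2 * ((m - 1 : ℕ) : ℂ) - (((2 * m - 3 - (k + 1) : ℕ) : ℂ) + 1))) ≠ 0 := by
      obtain ⟨i, hi⟩ : ∃ i, i = 2 * m - 3 - (k + 1) := ⟨_, rfl⟩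
      rw [← hi]
      refine mul_ne_zero ?_ ?_
      · exact_mod_cast Nat.succ_ne_zero i
      · rw [sub_ne_zero]
        intro h
        have h5 : 2 * (m - 1) = i + 1 := by exact_mod_cast h
        omega
    refine ⟨c * _, mul_ne_zero hc h4, ?_⟩
    rw [pow_succ', Module.End.mul_apply, h1, map_smul, h2, h3, smul_smul]

theorem tUtt (hTau : TauStmt) (hBsk : BskStmt) (hTwa : TwaStmt) (hLme : LmeStmt)
    (hZt : ZtStmt) : UttStmt := by
  intro m hm D hD S hS i k hi hk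
  obtain ⟨b1, -, b3, -, -⟩ := hBsk m
  obtain ⟨t1, -, -, -, -, t6⟩ := hTwa (Gl m) (Bf m) b1
  set w := vv m (m - 1) (2 * m - 3) with hw
  have hmem : ∀ A : Module.End ℂ (Gl m),
      A ∈ S.comap (LinearMap.inr ℂ (Gl m) (Module.End ℂ (Gl m))) ↔ ((0 : Gl m), A) ∈ S :=
    fun A => Iff.rfl
  have htr : ∀ i' : ℕ, i' ≤ 2 * (m - 1) → Bf m w (vv m (m - 1) i') =
      (vv m (m - 1) (2 * m - 2) * vv m (m - 1) i').trace := by
    intro i' _
    have h2 : 2 * m - 2 = (2 * m - 3) + 1 := by omega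
    rw [Bf_apply, h2, vv_succ, adm_apply]
  have key := hLme (Gl m) (Bf m) b1 (S.comap (LinearMap.inr ℂ (Gl m) (Module.End ℂ (Gl m))))
    (fun X hX Y hY => by
      rw [hmem] at hX hY ⊢
      have h1 := hS.brk _ hX _ hY
      simpa using h1) D (b3 D hD)
    (fun X hX => by
      rw [hmem] at hX ⊢
      have h1 := hS.brk _ hS.fp _ hX
      simpa using h1) w (2 * m - 3)
    (by
      obtain ⟨c, -, h1⟩ := Utt_pow hm hD (2 * m - 3) le_rfl
      rw [pow_succ', Module.End.mul_apply, h1, map_smul, Nat.sub_self, hD.zero (m - 1) (by omega),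
        smul_zero])
    (by
      obtain ⟨c, hc, h1⟩ := Utt_pow hm hD (2 * m - 3) le_rfl
      rw [h1, map_smul, smul_eq_mul, Nat.sub_self, htr 0 (Nat.zero_le _)]
      refine mul_ne_zero hc ?_
      rw [hTau m (m - 1) (2 * m - 2) (m - 1) 0 (by omega) (by omega) (by omega) (by omega)]
      exact ⟨rfl, by omega⟩)
    (fun k' hk' => by
      obtain ⟨c, -, h1⟩ := Utt_pow hm hD k' hk'.le
      rw [h1, map_smul, smul_eq_mul, htr _ (by omega)]
      have h2 : (vv m (m - 1) (2 * m - 2) * vv m (m - 1) (2 * m - 3 - k')).trace = 0 := by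
        by_contra h3
        rw [← ne_eq, hTau m (m - 1) (2 * m - 2) (m - 1) (2 * m - 3 - k') (by omega) (by omega)
          (by omega) (by omega)] at h3
        omega
      rw [h2, mul_zero])
    ((hmem _).2 (hZt m hm D hD S hS))
  obtain ⟨c, hc, h1⟩ := Utt_pow hm hD (2 * m - 3 - i) (by omega)
  obtain ⟨c', hc', h2⟩ := Utt_pow hm hD (2 * m - 3 - k) (by omega)
  have h3 := key (2 * m - 3 - i) (2 * m - 3 - k)
  rw [h1, h2, t6, t1, t6, t1, smul_smul, show 2 * m - 3 - (2 * m - 3 - i) = i by omega,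
    show 2 * m - 3 - (2 * m - 3 - k) = k by omega] at h3
  rw [← hmem]
  exact (Submodule.smul_mem_iff _ (mul_ne_zero hc hc')).1 h3

end MP3b
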