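import Pool.Agent.Lib.MP_3b3418_ag.SpecA

/-!
# MP_3b3418_ag, task Van: `v d (2d+1) = 0`
-/

set_option autoImplicit false

namespace MP3b

open Matrix

theorem tVan (hTri : TriStmt) (hStr : StrStmt) : VanStmt := by
  intro m d
  by_contra hne
  have hall : ∀ n : ℕ, vv m d (2 * d + 1 + n) ≠ 0 := by
    intro n
    induction n with
    | zero => exact hne
    | succ n ih =>
      intro h0
      have h1 := (hStr m d (2 * d + 1 + n)).2.1
      have h2 : 2 * d + 1 + n + 1 = 2 * d + 1 + (n + 1) := rfl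
      rw [h2, h0, map_zero] at h1
      have h3 := h1.symm
      rw [smul_eq_zero] at h3
      rcases h3 with h3 | h3
      · have h4 : (((2 * d + 1 + n : ℕ) : ℂ) + 1) * (2 * (d : ℂ) - ((2 * d + 1 + n : ℕ) : ℂ)) =
            -(((2 * d + 1 + n + 1) * (n + 1) : ℕ) : ℂ) := by
          push_cast
          ring
        rw [h4, neg_eq_zero, Nat.cast_eq_zero] at h3
        exact absurd h3 (Nat.mul_ne_zero (Nat.succ_ne_zero _) (Nat.succ_ne_zero _))
      · exact ih h3
  apply hall m
  ext i j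
  have h1 := (hStr m d (2 * d + 1 + m)).1
  have h2 := congrFun (congrFun h1 i) j
  rw [(hTri m).2.2.2, Matrix.smul_apply, smul_eq_mul] at h2
  have h3 : ((2 * (((j : ℕ) : ℂ) - ((i : ℕ) : ℂ))) -
      (2 * ((2 * d + 1 + m : ℕ) : ℂ) - 2 * (d : ℂ))) * vv m d (2 * d + 1 + m) i j = 0 := by
    rw [sub_mul, h2, sub_self]
  rw [mul_eq_zero] at h3
  rcases h3 with h3 | h3
  · exfalso
    have h4 : (((j : ℕ) : ℂ)) = ((i + (d + 1 + m) : ℕ) : ℂ) := by
      push_cast
      push_cast at h3
      linear_combination h3 / 2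
    rw [Nat.cast_inj] at h4
    have := j.2
    omega
  · exact h3

end MP3b
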