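import Pool.Agent.Lib.MP_3b3418_ag.SpecA

/-!
# MP_3b3418_ag, task Xd: the elements `X_d`
-/

set_option autoImplicit false

namespace MP3b

open Matrix

/-- The first row of `e^k a`. -/
theorem Xd_em (hEpw : EpwStmt) {m k : ℕ} (hk : k < m) (a : Gl m) (i j : Fin m)
    (hi : (i : ℕ) = 0) : (ee m ^ k * a) i j = a ⟨k, hk⟩ j := by
  rw [Matrix.mul_apply, Finset.sum_eq_single ⟨k, hk⟩]
  · rw [(hEpw m k).1, if_pos, one_mul]
    show k = (i : ℕ) + k
    omega
  · intro l _ hl
    rw [(hEpw m k).1, if_neg, zero_mul]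
    intro h
    apply hl
    apply Fin.ext
    show (l : ℕ) = k
    omega
  · intro h
    exact absurd (Finset.mem_univ _) h

/-- The last column of `a e^k`. -/
theorem Xd_me (hEpw : EpwStmt) {m k : ℕ} (hk : k < m) (a : Gl m) (i j : Fin m)
    (hj : (j : ℕ) = m - 1) : (a * ee m ^ k) i j = a i ⟨m - 1 - k, by omega⟩ := by
  rw [Matrix.mul_apply, Finset.sum_eq_single ⟨m - 1 - k, by omega⟩]
  · rw [(hEpw m k).1, if_pos, mul_one]
    show (j : ℕ) = m - 1 - k + k
    omega
  · intro l _ hl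
    rw [(hEpw m k).1, if_neg, mul_zero]
    intro h
    apply hl
    apply Fin.ext
    show (l : ℕ) = m - 1 - k
    omega
  · intro h
    exact absurd (Finset.mem_univ _) h

theorem Xd_tr {m : ℕ} (a b : Fin m) (M : Gl m) :
    (Matrix.single a b (1 : ℂ) * M).trace = M b a := by
  rw [Matrix.trace, Finset.sum_eq_single a]
  · rw [Matrix.diag_apply, Matrix.single_mul_apply_same, one_mul]
  · intro i _ hi
    rw [Matrix.diag_apply, Matrix.single_mul_apply_of_ne _ _ _ _ _ hi]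
  · intro h
    exact absurd (Finset.mem_univ _) h

/-- The trace of the commutator with `x₀`. -/
theorem Xd_trace {m : ℕ} (E Y : Gl m) (a b : Fin m) :
    (adm E (Matrix.single a b (1 : ℂ)) * Y).trace = (Y * E - E * Y) b a := by
  rw [← Xd_tr a b (Y * E - E * Y), adm_apply, sub_mul, mul_sub, trace_sub, trace_sub]
  congr 1
  · rw [mul_assoc, Matrix.trace_mul_comm, mul_assoc]
  · rw [mul_assoc]

theorem Xd_jac {m : ℕ} (x y z : Gl m) :
    adm x (adm y z) = adm (adm x y) z + adm y (adm x z) := by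
  simp only [adm_apply]
  noncomm_ring

theorem tXd (hTri : TriStmt) (hEpw : EpwStmt) (hStr : StrStmt) (hBas : BasStmt)
    (hTau : TauStmt) (hCen : CenStmt) : XdStmt := by
  classical
  intro m d hd hdm x₀ hx₀
  let i0 : Fin m := ⟨0, by omega⟩
  let il : Fin m := ⟨m - 1, by omega⟩
  have hx : x₀ = Matrix.single il i0 1 := hx₀
  obtain ⟨X, hX⟩ : ∃ X, X = adm (ee m ^ (m - d)) x₀ := ⟨_, rfl⟩
  rw [← hX]
  -- the weight
  have hhX : adm (hh m) X = (-2 * ((d : ℂ) - 1)) • X := by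
    have e1 : adm (hh m) (ee m ^ (m - d)) = (2 * ((m : ℂ) - (d : ℂ))) • ee m ^ (m - d) := by
      ext i j
      rw [(hTri m).2.2.2, Matrix.smul_apply, (hEpw m (m - d)).1, smul_eq_mul]
      by_cases h : (j : ℕ) = (i : ℕ) + (m - d)
      · rw [if_pos h, h]
        push_cast [Nat.cast_sub hdm.le]
        ring
      · rw [if_neg h, mul_zero, mul_zero]
    have e2 : adm (hh m) x₀ = (-2 * ((m : ℂ) - 1)) • x₀ := by
      ext i j
      rw [(hTri m).2.2.2, Matrix.smul_apply, smul_eq_mul, hx]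
      by_cases h : il = i ∧ i0 = j
      · rw [← h.1, ← h.2]
        have e3 : (((il : Fin m) : ℕ) : ℂ) = (m : ℂ) - 1 := by
          show ((m - 1 : ℕ) : ℂ) = (m : ℂ) - 1
          rw [Nat.cast_sub (by omega)]
          norm_num
        have e4 : (((i0 : Fin m) : ℕ) : ℂ) = 0 := by
          show ((0 : ℕ) : ℂ) = 0
          norm_num
        rw [e3, e4]
        ring
      · rw [Matrix.single_apply_of_ne _ _ _ _ _ h, mul_zero, mul_zero]
    rw [hX, Xd_jac, e1, e2, map_smul]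
    have e3 : adm ((2 * ((m : ℂ) - (d : ℂ))) • ee m ^ (m - d)) x₀ =
        (2 * ((m : ℂ) - (d : ℂ))) • adm (ee m ^ (m - d)) x₀ := by
      rw [adm_apply, adm_apply, smul_mul_assoc, mul_smul_comm, smul_sub]
    rw [e3, ← add_smul]
    congr 1
    ring
  -- the coordinates
  obtain ⟨c, hc⟩ : ∃ c : Ix m → ℂ, ∑ p, c p • vv m (p.1 : ℕ) (p.2 : ℕ) = X := by
    have h1 : X ∈ Submodule.span ℂ (Set.range fun p : Ix m => vv m (p.1 : ℕ) (p.2 : ℕ)) := by
      rw [(hBas m).2]
      trivial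
    exact (Submodule.mem_span_range_iff_exists_fun ℂ).1 h1
  have hc0 : ∀ p : Ix m, (p.2 : ℕ) + d ≠ (p.1 : ℕ) + 1 → c p = 0 := by
    intro p hp
    have h1 : ∑ p : Ix m, (c p * ((2 * (((p.2 : ℕ) : ℂ)) - 2 * (((p.1 : ℕ) : ℂ))) +
        2 * ((d : ℂ) - 1))) • vv m (p.1 : ℕ) (p.2 : ℕ) = 0 := by
      have h2 : ∑ p : Ix m, (c p * ((2 * (((p.2 : ℕ) : ℂ)) - 2 * (((p.1 : ℕ) : ℂ))) +
          2 * ((d : ℂ) - 1))) • vv m (p.1 : ℕ) (p.2 : ℕ) =
          adm (hh m) X - (-2 * ((d : ℂ) - 1)) • X := by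
        rw [← hc, map_sum, Finset.smul_sum, ← Finset.sum_sub_distrib]
        refine Finset.sum_congr rfl fun p _ => ?_
        rw [map_smul, (hStr m p.1 p.2).1, smul_smul, smul_smul, ← sub_smul]
        congr 1
        ring
      rw [h2, hhX, sub_self]
    have h2 := Fintype.linearIndependent_iff.1 (hBas m).1 _ h1 p
    rcases mul_eq_zero.1 h2 with h | h
    · exact h
    · exfalso
      apply hp
      have h3 : (((p.2 : ℕ) + d : ℕ) : ℂ) = (((p.1 : ℕ) + 1 : ℕ) : ℂ) := by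
        push_cast
        linear_combination h / 2
      exact_mod_cast h3
  let b : Fin m → ℂ := fun d' => if d ≤ (d' : ℕ) + 1 then
    c ⟨d', ⟨(d' : ℕ) + 1 - d, by omega⟩⟩ else 0
  have hb0 : ∀ d' : Fin m, ¬ d ≤ (d' : ℕ) + 1 → b d' = 0 := fun d' h => if_neg h
  have hb1 : ∀ d' : Fin m, d ≤ (d' : ℕ) + 1 → b d' = c ⟨d', ⟨(d' : ℕ) + 1 - d, by omega⟩⟩ :=
    fun d' h => if_pos h
  have hXb : X = ∑ d' : Fin m, b d' • vv m (d' : ℕ) ((d' : ℕ) + 1 - d) := by
    rw [← hc, Fintype.sum_sigma]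
    refine Finset.sum_congr rfl fun d' _ => ?_
    by_cases h : d ≤ (d' : ℕ) + 1
    · rw [hb1 d' h, Finset.sum_eq_single ⟨(d' : ℕ) + 1 - d, by omega⟩]
      · intro i _ hi
        rw [hc0, zero_smul]
        intro h'
        apply hi
        apply Fin.ext
        show (i : ℕ) = (d' : ℕ) + 1 - d
        have h'' : (i : ℕ) + d = (d' : ℕ) + 1 := h'
        omega
      · intro h'
        exact absurd (Finset.mem_univ _) h'
    · rw [hb0 d' h, zero_smul]
      refine Finset.sum_eq_zero fun i _ => ?_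
      rw [hc0, zero_smul]
      show (i : ℕ) + d ≠ (d' : ℕ) + 1
      omega
  -- traces
  have htr : ∀ (d1 : Fin m) (j : ℕ), j ≤ 2 * (d1 : ℕ) →
      (X * vv m (d1 : ℕ) j).trace =
        b d1 * (vv m (d1 : ℕ) ((d1 : ℕ) + 1 - d) * vv m (d1 : ℕ) j).trace := by
    intro d1 j hj
    rw [hXb, Finset.sum_mul, Matrix.trace_sum, Finset.sum_eq_single d1]
    · rw [smul_mul_assoc, trace_smul, smul_eq_mul]
    · intro d' _ hd'
      rw [smul_mul_assoc, trace_smul, smul_eq_mul]
      have h1 : (vv m (d' : ℕ) ((d' : ℕ) + 1 - d) * vv m (d1 : ℕ) j).trace = 0 := by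
        by_contra h2
        have h3 := (hTau m (d' : ℕ) ((d' : ℕ) + 1 - d) (d1 : ℕ) j d'.2 d1.2 (by omega) hj).1 h2
        exact hd' (Fin.ext h3.1)
      rw [h1, mul_zero]
    · intro h'
      exact absurd (Finset.mem_univ _) h'
  -- the coefficient of `v (d-1) 0`
  have hb2 : b ⟨d - 1, by omega⟩ = 0 := by
    obtain ⟨c1, hc1, hc1'⟩ := (hCen m).2.2.1 (d - 1) (by omega)
    have e1 := htr ⟨d - 1, by omega⟩ (2 * (d - 1)) le_rfl
    have e2 : (X * ee m ^ (d - 1)).trace = 0 := by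
      rw [hX, hx, Xd_trace, ← pow_add, ← pow_add, add_comm, sub_self]
      rfl
    rw [hc1', mul_smul_comm, trace_smul, smul_eq_mul] at e2
    have e3 : (X * vv m (d - 1) (2 * (d - 1))).trace = 0 := (mul_eq_zero.1 e2).resolve_left hc1
    have e4 : (X * vv m (d - 1) (2 * (d - 1))).trace = b ⟨d - 1, by omega⟩ *
        (vv m (d - 1) (d - 1 + 1 - d) * vv m (d - 1) (2 * (d - 1))).trace := e1
    rw [e3] at e4
    refine (mul_eq_zero.1 e4.symm).resolve_right ?_
    exact (hTau m (d - 1) (d - 1 + 1 - d) (d - 1) (2 * (d - 1)) (by omega) (by omega) (by omega)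
      le_rfl).2 ⟨rfl, by omega⟩
  -- the coefficient of `v d 1`
  have hb3 : b ⟨d, hdm⟩ ≠ 0 := by
    intro h0
    obtain ⟨c1, hc1, hc1'⟩ := (hCen m).2.2.1 d hdm
    have e1 := htr ⟨d, hdm⟩ (2 * d - 1) (Nat.sub_le _ _)
    rw [h0, zero_mul] at e1
    have e2 : (X * adm (ff m) (ee m ^ d)).trace = 0 := by
      have e3 : adm (ff m) (vv m d (2 * d - 1 + 1)) = _ := (hStr m d (2 * d - 1)).2.1
      have e4 : 2 * d - 1 + 1 = 2 * d := by omega
      rw [e4] at e3
      rw [hc1', map_smul, e3, mul_smul_comm, mul_smul_comm, trace_smul, trace_smul]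
      have e5 : (X * vv m d (2 * d - 1)).trace = 0 := e1
      rw [e5, smul_zero, smul_zero]
    have hem : ee m ^ m = 0 := by
      ext i j
      rw [(hEpw m m).1, if_neg]
      · rfl
      · have := j.2
        omega
    have e3 : (adm (ff m) (ee m ^ d)) * ee m ^ (m - d) - ee m ^ (m - d) * adm (ff m) (ee m ^ d) =
        -(ee m ^ d * (ff m * ee m ^ (m - d)) + ee m ^ (m - d) * (ff m * ee m ^ d)) := by
      have e4 : ee m ^ d * ee m ^ (m - d) = 0 := by
        rw [← pow_add, Nat.add_sub_cancel' hdm.le, hem]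
      have e5 : ee m ^ (m - d) * ee m ^ d = 0 := by
        rw [← pow_add, Nat.sub_add_cancel hdm.le, hem]
      have e6 : (adm (ff m) (ee m ^ d)) * ee m ^ (m - d) -
          ee m ^ (m - d) * adm (ff m) (ee m ^ d) =
          ff m * (ee m ^ d * ee m ^ (m - d)) + (ee m ^ (m - d) * ee m ^ d) * ff m -
          (ee m ^ d * (ff m * ee m ^ (m - d)) + ee m ^ (m - d) * (ff m * ee m ^ d)) := by
        rw [adm_apply]
        noncomm_ring
      rw [e6, e4, e5, mul_zero, zero_mul, zero_add, zero_sub]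
    rw [hX, hx, Xd_trace, e3, Matrix.neg_apply, Matrix.add_apply,
      Xd_em hEpw hdm _ i0 il rfl, Xd_em hEpw (show m - d < m by omega) _ i0 il rfl,
      Xd_me hEpw (show m - d < m by omega) _ _ il rfl, Xd_me hEpw hdm _ _ il rfl] at e2
    have e7 : (ff m) ⟨d, hdm⟩ ⟨m - 1 - (m - d), by omega⟩ = (d : ℂ) * ((m : ℂ) - (d : ℂ)) := by
      show (if d = m - 1 - (m - d) + 1 then (d : ℂ) * ((m : ℂ) - (d : ℂ)) else 0) = _
      rw [if_pos (by omega)]
    have e8 : (ff m) ⟨m - d, by omega⟩ ⟨m - 1 - d, by omega⟩ = (d : ℂ) * ((m : ℂ) - (d : ℂ)) := by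
      show (if m - d = m - 1 - d + 1 then ((m - d : ℕ) : ℂ) * ((m : ℂ) - ((m - d : ℕ) : ℂ))
        else 0) = _
      rw [if_pos (by omega), Nat.cast_sub hdm.le]
      ring
    rw [e7, e8] at e2
    have e9 : (d : ℂ) * ((m : ℂ) - (d : ℂ)) = 0 := by linear_combination (-1 / 2) * e2
    rcases mul_eq_zero.1 e9 with h | h
    · have h1 : d = 0 := by exact_mod_cast h
      omega
    · have h1 : (m : ℂ) = (d : ℂ) := sub_eq_zero.1 h
      have h2 : m = d := by exact_mod_cast h1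
      omega
  refine ⟨b ⟨d, hdm⟩, b, hb3, ?_⟩
  have hfin : X = ∑ d' : Fin m, ((if d' = ⟨d, hdm⟩ then b ⟨d, hdm⟩ • vv m d 1 else 0) +
      (if d < (d' : ℕ) then b d' • vv m (d' : ℕ) ((d' : ℕ) - d + 1) else 0)) := by
    conv_lhs => rw [hXb]
    refine Finset.sum_congr rfl fun d' _ => ?_
    rcases lt_trichotomy (d' : ℕ) d with h | h | h
    · have h1 : ¬ d' = ⟨d, hdm⟩ := by
        intro h'
        rw [h'] at h
        exact lt_irrefl _ h
      have h2 : b d' = 0 := by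
        by_cases h' : d ≤ (d' : ℕ) + 1
        · have h3 : d' = ⟨d - 1, by omega⟩ := by
            apply Fin.ext
            show (d' : ℕ) = d - 1
            omega
          rw [h3, hb2]
        · exact hb0 d' h'
      rw [if_neg h1, if_neg (by omega), h2, zero_smul, add_zero]
    · have h1 : d' = ⟨d, hdm⟩ := Fin.ext h
      rw [if_pos h1, if_neg (by omega), add_zero, h1]
      show b ⟨d, hdm⟩ • vv m d (d + 1 - d) = _
      rw [Nat.add_sub_cancel_left]
    · have h1 : ¬ d' = ⟨d, hdm⟩ := by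
        intro h'
        rw [h'] at h
        exact lt_irrefl _ h
      rw [if_neg h1, if_pos h, zero_add]
      congr 2
      omega
  rw [Finset.sum_add_distrib, Finset.sum_ite_eq' Finset.univ, if_pos (Finset.mem_univ _)] at hfin
  exact hfin

end MP3b
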