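import Pool.Agent.Lib.MP_3b3418_ag.SpecA

/-!
# Zn: a positivity argument
-/

set_option autoImplicit false

namespace MP3b

open Matrix

/-- The real matrices. -/
private noncomputable def Zn_R (m : ℕ) : Subring (Gl m) :=
  ((Complex.ofRealHom.mapMatrix : Matrix (Fin m) (Fin m) ℝ →+* Gl m)).range

private theorem Zn_mem {m : ℕ} {x : Gl m} (h : ∀ i j, ∃ r : ℝ, x i j = r) : x ∈ Zn_R m := by
  choose r hr using h
  refine ⟨Matrix.of r, ?_⟩
  ext i j
  rw [hr]
  rfl

private theorem Zn_re {m : ℕ} {x : Gl m} (h : x ∈ Zn_R m) (i j : Fin m) : ∃ r : ℝ, x i j = r := by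
  obtain ⟨y, rfl⟩ := h
  exact ⟨y i j, rfl⟩

private theorem Zn_e (m : ℕ) : ee m ∈ Zn_R m := Zn_mem fun i j => by
  unfold ee
  rw [Matrix.of_apply]
  split_ifs
  · exact ⟨1, by simp⟩
  · exact ⟨0, by simp⟩

private theorem Zn_f (m : ℕ) : ff m ∈ Zn_R m := Zn_mem fun i j => by
  unfold ff
  rw [Matrix.of_apply]
  split_ifs
  · exact ⟨((i : ℕ) : ℝ) * ((m : ℝ) - ((i : ℕ) : ℝ)), by simp⟩
  · exact ⟨0, by simp⟩

private theorem Zn_v (m d i : ℕ) : vv m d i ∈ Zn_R m := by
  induction i with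
  | zero =>
    rw [vv_zero]
    exact pow_mem (Zn_f m) d
  | succ i ih =>
    rw [vv_succ, adm_apply]
    exact sub_mem (mul_mem (Zn_e m) ih) (mul_mem ih (Zn_e m))

private theorem Zn_tr {m : ℕ} {x : Gl m} (h : x ∈ Zn_R m) : ∃ r : ℝ, x.trace = r := by
  choose r hr using fun i => Zn_re h i i
  refine ⟨∑ i, r i, ?_⟩
  unfold Matrix.trace
  rw [Complex.ofReal_sum]
  exact Finset.sum_congr rfl fun i _ => hr i

private theorem Zn_skew {m : ℕ} (a b : Gl m) :
    ((adm (ee m) a) * b).trace = -(a * adm (ee m) b).trace := by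
  rw [adm_apply, adm_apply, sub_mul, mul_sub, trace_sub, trace_sub, mul_assoc, trace_mul_comm (ee m),
    mul_assoc, mul_assoc]
  ring

theorem tZn (hTri : TriStmt) (hStr : StrStmt) (hNz : NzStmt) (hBas : BasStmt)
    (hTau : TauStmt) : ZnStmt := by
  intro m hm D hD η hη
  obtain ⟨hli, hsp⟩ := hBas m
  obtain ⟨-, -, -, hh4⟩ := hTri m
  -- diagonal matrices
  have hdiag : ∀ d : ℕ, ∀ i j : Fin m, i ≠ j → vv m d d i j = 0 := by
    intro d i j hij
    have h1 := (hStr m d d).1
    rw [sub_self, zero_smul] at h1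
    have h2 := hh4 (vv m d d) i j
    rw [h1, Matrix.zero_apply] at h2
    have h3 : (2 * (((j : ℕ) : ℂ) - ((i : ℕ) : ℂ))) ≠ 0 := by
      refine mul_ne_zero two_ne_zero (sub_ne_zero.2 ?_)
      intro h
      exact hij (Fin.ext (Nat.cast_injective h)).symm
    rcases mul_eq_zero.1 h2.symm with h | h
    · exact absurd h h3
    · exact h
  -- the numbers `τ d`
  have hτ : ∀ d : Fin m, ∃ θ : ℝ, 0 < θ ∧ (vv m d d * vv m d d).trace = θ := by
    intro d
    choose r hr using Zn_re (Zn_v m d d)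
    refine ⟨∑ i, r i i ^ 2, ?_, ?_⟩
    · refine Finset.sum_pos' (fun i _ => sq_nonneg _) ?_
      by_contra hcon
      push Not at hcon
      apply hNz m d d d.2 (by omega)
      ext i j
      by_cases hij : i = j
      · subst hij
        have h1 := hcon i (Finset.mem_univ _)
        have h2 : r i i = 0 := by
          have := sq_nonneg (r i i)
          exact pow_eq_zero_iff (two_ne_zero) |>.1 (le_antisymm h1 this)
        rw [hr, h2]
        simp
      · rw [hdiag d i j hij]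
        rfl
    · unfold Matrix.trace
      rw [Complex.ofReal_sum]
      refine Finset.sum_congr rfl fun i _ => ?_
      rw [Matrix.diag_apply, Matrix.mul_apply, Finset.sum_eq_single i, hr, Complex.ofReal_pow, sq]
      · intro j _ hj
        rw [hdiag d i j hj.symm, zero_mul]
      · intro h
        exact absurd (Finset.mem_univ _) h
  choose θ hθ hθ' using hτ
  -- the expansion of `η`
  have hηR : η ∈ Zn_R m := by
    rw [hη]
    refine sub_mem (Zn_mem fun i j => ?_) (Zn_mem fun i j => ?_)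
    · rw [Matrix.single_apply]
      split_ifs
      · exact ⟨1, by simp⟩
      · exact ⟨0, by simp⟩
    · rw [Matrix.single_apply]
      split_ifs
      · exact ⟨1, by simp⟩
      · exact ⟨0, by simp⟩
  have hηd : ∀ i j : Fin m, i ≠ j → η i j = 0 := by
    intro i j hij
    rw [hη, Matrix.sub_apply, Matrix.single_apply, Matrix.single_apply, if_neg, if_neg, sub_zero]
    · rintro ⟨h1, h2⟩
      exact hij (h1.symm.trans h2)
    · rintro ⟨h1, h2⟩
      exact hij (h1.symm.trans h2)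
  have hadh : adm (hh m) η = 0 := by
    ext i j
    rw [hh4]
    by_cases hij : i = j
    · rw [hij]
      simp
    · rw [hηd i j hij, mul_zero]
      rfl
  have hmem : η ∈ Submodule.span ℂ (Set.range fun p : Ix m => vv m (p.1 : ℕ) (p.2 : ℕ)) := by
    rw [hsp]
    trivial
  obtain ⟨c, hc⟩ := (Submodule.mem_span_range_iff_exists_fun ℂ).1 hmem
  have hc0 : ∀ p : Ix m, (p.2 : ℕ) ≠ (p.1 : ℕ) → c p = 0 := by
    intro p hp
    have h1 : ∑ p : Ix m, (c p * (2 * ((p.2 : ℕ) : ℂ) - 2 * ((p.1 : ℕ) : ℂ))) •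
        vv m (p.1 : ℕ) (p.2 : ℕ) = 0 := by
      rw [← hadh, ← hc, map_sum]
      refine Finset.sum_congr rfl fun p _ => ?_
      rw [map_smul, (hStr m _ _).1, smul_smul]
    have h2 := (Fintype.linearIndependent_iff.1 hli) _ h1 p
    rcases mul_eq_zero.1 h2 with h | h
    · exact h
    · exfalso
      apply hp
      have h3 : ((p.2 : ℕ) : ℂ) = ((p.1 : ℕ) : ℂ) := by
        have h4 : (2 : ℂ) * ((p.2 : ℕ) : ℂ) = 2 * ((p.1 : ℕ) : ℂ) := sub_eq_zero.1 h
        exact mul_left_cancel₀ two_ne_zero h4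
      exact Nat.cast_injective h3
  obtain ⟨t, ht⟩ : ∃ t : Fin m → ℂ, η = ∑ d : Fin m, t d • vv m (d : ℕ) (d : ℕ) := by
    refine ⟨fun d => c ⟨d, ⟨(d : ℕ), by omega⟩⟩, ?_⟩
    rw [← hc, ← Finset.univ_sigma_univ, Finset.sum_sigma]
    refine Finset.sum_congr rfl fun d _ => ?_
    rw [Finset.sum_eq_single (⟨(d : ℕ), by omega⟩ : Fin (2 * (d : ℕ) + 1))]
    · intro i _ hi
      rw [hc0 ⟨d, i⟩ (fun h => hi (Fin.ext h)), zero_smul]
    · intro h
      exact absurd (Finset.mem_univ _) h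
  -- orthogonality
  have horth : ∀ d d' : Fin m, d ≠ d' → (vv m (d : ℕ) (d : ℕ) * vv m (d' : ℕ) (d' : ℕ)).trace = 0 := by
    intro d d' hdd
    by_contra h
    have := (hTau m d d d' d' d.2 d'.2 (by omega) (by omega)).1 h
    exact hdd (Fin.ext this.1)
  have htd : ∀ d : Fin m, (η * vv m (d : ℕ) (d : ℕ)).trace = t d * θ d := by
    intro d
    rw [ht, Finset.sum_mul, trace_sum, Finset.sum_eq_single d]
    · rw [smul_mul_assoc, trace_smul, hθ', smul_eq_mul]
    · intro d' _ hd'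
      rw [smul_mul_assoc, trace_smul, horth d' d hd', smul_zero]
    · intro h
      exact absurd (Finset.mem_univ _) h
  have htR : ∀ d : Fin m, ∃ r : ℝ, t d = r := by
    intro d
    obtain ⟨r, hr⟩ := Zn_tr (mul_mem hηR (Zn_v m d d))
    rw [htd] at hr
    refine ⟨r / θ d, ?_⟩
    have h1 : ((θ d : ℝ) : ℂ) ≠ 0 := by
      rw [Ne, Complex.ofReal_eq_zero]
      exact (hθ d).ne'
    rw [Complex.ofReal_div, ← hr, mul_div_assoc, div_self h1, mul_one]
  choose T hT using htR
  -- `T 0 = 0`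
  have h00 : T ⟨0, by omega⟩ = 0 := by
    have h1 := htd ⟨0, by omega⟩
    have h2 : vv m 0 0 = 1 := by rw [vv_zero, pow_zero]
    have h3 : η.trace = 0 := by
      rw [hη, trace_sub, Matrix.trace_single_eq_same, Matrix.trace_single_eq_same, sub_self]
    change (η * vv m 0 0).trace = _ at h1
    rw [h2, mul_one, h3, hT] at h1
    rcases mul_eq_zero.1 h1.symm with h | h
    · exact Complex.ofReal_eq_zero.1 h
    · exact absurd (Complex.ofReal_eq_zero.1 h) (hθ _).ne'
  have hex : ∃ d : Fin m, (d : ℕ) ≠ 0 ∧ T d ≠ 0 := by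
    by_contra hcon
    push Not at hcon
    have h1 : η = 0 := by
      rw [ht]
      refine Finset.sum_eq_zero fun d _ => ?_
      by_cases hd : (d : ℕ) = 0
      · have : d = ⟨0, by omega⟩ := Fin.ext hd
        rw [this, hT, h00, Complex.ofReal_zero, zero_smul]
      · rw [hT, hcon d hd, Complex.ofReal_zero, zero_smul]
    have h2 := congrFun (congrFun h1 ⟨0, by omega⟩) ⟨0, by omega⟩
    rw [hη, Matrix.sub_apply, Matrix.single_apply, Matrix.single_apply, if_pos ⟨rfl, rfl⟩,
      if_neg] at h2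
    · simp at h2
    · rintro ⟨h3, -⟩
      have := congrArg Fin.val h3
      simp only at this
      omega
  -- the operator `D`
  have hDu : ∀ d : Fin m, adm (ee m) (D (vv m (d : ℕ) (d : ℕ))) =
      (((d : ℕ) : ℂ) ^ 2) • vv m (d : ℕ) (d : ℕ) := by
    intro d
    rcases Nat.eq_zero_or_pos (d : ℕ) with hd | hd
    · rw [hd, hD.zero 0 (by omega), map_zero]
      simp
    · obtain ⟨i, hi⟩ : ∃ i, (d : ℕ) = i + 1 := ⟨(d : ℕ) - 1, by omega⟩
      have h1 := hD.succ d d.2 i (by omega)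
      rw [← hi] at h1
      rw [h1, map_smul, ← vv_succ, ← hi]
      congr 1
      rw [hi]
      push_cast
      ring
  have hfin : Bf m η (D η) =
      -((∑ d : Fin m, T d ^ 2 * ((d : ℕ) : ℝ) ^ 2 * θ d : ℝ) : ℂ) := by
    have h1 : Bf m η (D η) = -(η * adm (ee m) (D η)).trace := Zn_skew η (D η)
    have h2 : adm (ee m) (D η) = ∑ d : Fin m, (t d * ((d : ℕ) : ℂ) ^ 2) • vv m (d : ℕ) (d : ℕ) := by
      conv_lhs => rw [ht]
      rw [map_sum, map_sum]
      refine Finset.sum_congr rfl fun d _ => ?_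
      rw [map_smul, map_smul, hDu, smul_smul]
    rw [h1, h2, Finset.mul_sum, trace_sum, Complex.ofReal_sum]
    congr 1
    refine Finset.sum_congr rfl fun d _ => ?_
    rw [mul_smul_comm, trace_smul, htd, hT, smul_eq_mul]
    push_cast
    ring
  rw [hfin, neg_ne_zero, Ne, Complex.ofReal_eq_zero]
  refine ne_of_gt (Finset.sum_pos' (fun d _ => ?_) ?_)
  · exact mul_nonneg (mul_nonneg (sq_nonneg _) (sq_nonneg _)) (hθ d).le
  · obtain ⟨d, hd, hTd⟩ := hex
    have h1 : (((d : ℕ) : ℝ)) ≠ 0 := Nat.cast_ne_zero.2 hd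
    exact ⟨d, Finset.mem_univ _, mul_pos (mul_pos (by positivity) (by positivity)) (hθ d)⟩

end MP3b
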