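import Pool.Agent.Lib.MP_3b3418_ag.SpecA

/-!
# MP_3b3418_ag, task Zr: `ad z f' ad z` has rank one modulo the centraliser of `e`
-/

set_option autoImplicit false

namespace MP3b

open Matrix

/-- Multiplication by `e` from the left. -/
theorem Zr_em {m : ℕ} (a : Gl m) (i j : Fin m) :
    (ee m * a) i j = if h : (i : ℕ) + 1 < m then a ⟨(i : ℕ) + 1, h⟩ j else 0 := by
  rw [Matrix.mul_apply]
  by_cases h : (i : ℕ) + 1 < m
  · rw [dif_pos h, Finset.sum_eq_single ⟨(i : ℕ) + 1, h⟩]
    · show (if (i : ℕ) + 1 = (i : ℕ) + 1 then (1 : ℂ) else 0) * _ = _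
      rw [if_pos rfl, one_mul]
    · intro k _ hk
      show (if (k : ℕ) = (i : ℕ) + 1 then (1 : ℂ) else 0) * _ = _
      rw [if_neg fun h' => hk (Fin.ext h'), zero_mul]
    · intro h'
      exact absurd (Finset.mem_univ _) h'
  · rw [dif_neg h]
    refine Finset.sum_eq_zero fun k _ => ?_
    show (if (k : ℕ) = (i : ℕ) + 1 then (1 : ℂ) else 0) * _ = _
    rw [if_neg, zero_mul]
    have := k.2
    omega

/-- Multiplication by `e` from the right. -/
theorem Zr_me {m : ℕ} (a : Gl m) (i j : Fin m) :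
    (a * ee m) i j = if 1 ≤ (j : ℕ) then a i ⟨(j : ℕ) - 1, by have := j.2; omega⟩ else 0 := by
  rw [Matrix.mul_apply]
  by_cases h : 1 ≤ (j : ℕ)
  · rw [if_pos h, Finset.sum_eq_single ⟨(j : ℕ) - 1, by have := j.2; omega⟩]
    · show _ * (if (j : ℕ) = (j : ℕ) - 1 + 1 then (1 : ℂ) else 0) = _
      rw [if_pos (by omega), mul_one]
    · intro k _ hk
      show _ * (if (j : ℕ) = (k : ℕ) + 1 then (1 : ℂ) else 0) = _
      rw [if_neg, mul_zero]
      intro h'
      apply hk
      apply Fin.ext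
      show (k : ℕ) = (j : ℕ) - 1
      omega
    · intro h'
      exact absurd (Finset.mem_univ _) h'
  · rw [if_neg h]
    refine Finset.sum_eq_zero fun k _ => ?_
    show _ * (if (j : ℕ) = (k : ℕ) + 1 then (1 : ℂ) else 0) = _
    rw [if_neg, mul_zero]
    omega

section z

variable {m : ℕ} (hm : 3 ≤ m) {z : Gl m}
  (hz : ∀ i j : Fin m, z i j = if (j : ℕ) = (i : ℕ) + (m - 1) then 1 else 0)

include hz in
theorem Zr_zm (a : Gl m) (i j : Fin m) :
    (z * a) i j = if (i : ℕ) = 0 then a ⟨m - 1, by omega⟩ j else 0 := by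
  rw [Matrix.mul_apply]
  by_cases h : (i : ℕ) = 0
  · rw [if_pos h, Finset.sum_eq_single ⟨m - 1, by omega⟩]
    · rw [hz, if_pos, one_mul]
      show m - 1 = (i : ℕ) + (m - 1)
      omega
    · intro k _ hk
      rw [hz, if_neg, zero_mul]
      intro h'
      apply hk
      apply Fin.ext
      show (k : ℕ) = m - 1
      omega
    · intro h'
      exact absurd (Finset.mem_univ _) h'
  · rw [if_neg h]
    refine Finset.sum_eq_zero fun k _ => ?_
    rw [hz, if_neg, zero_mul]
    have := k.2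
    omega

include hz in
theorem Zr_mz (a : Gl m) (i j : Fin m) :
    (a * z) i j = if (j : ℕ) = m - 1 then a i ⟨0, by omega⟩ else 0 := by
  rw [Matrix.mul_apply]
  by_cases h : (j : ℕ) = m - 1
  · rw [if_pos h, Finset.sum_eq_single ⟨0, by omega⟩]
    · rw [hz, if_pos, mul_one]
      show (j : ℕ) = 0 + (m - 1)
      omega
    · intro k _ hk
      rw [hz, if_neg, mul_zero]
      intro h'
      apply hk
      apply Fin.ext
      show (k : ℕ) = 0
      omega
    · intro h'
      exact absurd (Finset.mem_univ _) h'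
  · rw [if_neg h]
    refine Finset.sum_eq_zero fun k _ => ?_
    rw [hz, if_neg, mul_zero]
    have := j.2
    omega

end z

/-- `D` lowers the weights by `2`. -/
theorem Zr_hD (hStr : StrStmt) (hBas : BasStmt) {m : ℕ} {D : Module.End ℂ (Gl m)}
    (hD : IsFp m D) (x : Gl m) : adm (hh m) (D x) = D (adm (hh m) x) - (2 : ℂ) • D x := by
  have h1 : adm (hh m) * D = D * adm (hh m) - (2 : ℂ) • D := by
    refine LinearMap.ext_on_range (hBas m).2 fun p => ?_
    obtain ⟨d, i⟩ := p
    show adm (hh m) (D (vv m (d : ℕ) (i : ℕ))) =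
      D (adm (hh m) (vv m (d : ℕ) (i : ℕ))) - (2 : ℂ) • D (vv m (d : ℕ) (i : ℕ))
    obtain ⟨i, hi⟩ := i
    show adm (hh m) (D (vv m (d : ℕ) i)) =
      D (adm (hh m) (vv m (d : ℕ) i)) - (2 : ℂ) • D (vv m (d : ℕ) i)
    rw [(hStr m d i).1, map_smul]
    cases i with
    | zero => rw [hD.zero d d.2, map_zero, smul_zero, smul_zero, sub_zero]
    | succ i =>
      rw [hD.succ d d.2 i (by omega), map_smul, (hStr m d i).1, smul_smul, smul_smul, smul_smul,
        ← sub_smul]
      congr 1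
      push_cast
      ring
  exact LinearMap.congr_fun h1 x

/-- `D` of an upper triangular matrix. -/
theorem Zr_up (hTri : TriStmt) (hStr : StrStmt) (hBas : BasStmt) {m : ℕ}
    {D : Module.End ℂ (Gl m)} (hD : IsFp m D) (u : Gl m) (hu : Upper u) (k l : Fin m)
    (hkl : (l : ℕ) + 2 ≤ (k : ℕ)) : (D u) k l = 0 := by
  have h1 : ∀ i j : Fin m, i ≤ j → (D (Matrix.single i j (1 : ℂ))) k l = 0 := by
    intro i j hij
    have e1 := congrFun (congrFun (Zr_hD hStr hBas hD (Matrix.single i j (1 : ℂ))) k) l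
    have e2 : adm (hh m) (Matrix.single i j (1 : ℂ)) =
        (2 * (((j : ℕ) : ℂ) - ((i : ℕ) : ℂ))) • Matrix.single i j (1 : ℂ) := by
      ext a b
      rw [(hTri m).2.2.2, Matrix.smul_apply, smul_eq_mul]
      by_cases h : i = a ∧ j = b
      · rw [h.1, h.2]
      · rw [Matrix.single_apply_of_ne _ _ _ _ _ h, mul_zero, mul_zero]
    rw [(hTri m).2.2.2, e2, map_smul, Matrix.sub_apply, Matrix.smul_apply, Matrix.smul_apply,
      smul_eq_mul, smul_eq_mul] at e1
    have e3 : (2 * ((((l : ℕ) : ℂ) + ((i : ℕ) : ℂ) + 1) - (((k : ℕ) : ℂ) + ((j : ℕ) : ℂ)))) *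
        (D (Matrix.single i j (1 : ℂ))) k l = 0 := by linear_combination e1
    rcases mul_eq_zero.1 e3 with h | h
    · exfalso
      have h2 : (((l : ℕ) : ℂ) + ((i : ℕ) : ℂ) + 1) - (((k : ℕ) : ℂ) + ((j : ℕ) : ℂ)) = 0 := by
        rcases mul_eq_zero.1 h with h' | h'
        · norm_num at h'
        · exact h'
      have h3 : ((((l : ℕ) + (i : ℕ) + 1 : ℕ)) : ℂ) = (((k : ℕ) + (j : ℕ) : ℕ) : ℂ) := by
        push_cast
        exact sub_eq_zero.1 h2
      have h4 : (l : ℕ) + (i : ℕ) + 1 = (k : ℕ) + (j : ℕ) := by exact_mod_cast h3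
      have h5 : (i : ℕ) ≤ (j : ℕ) := hij
      omega
    · exact h
  have h2 : u = ∑ i, ∑ j, u i j • Matrix.single i j (1 : ℂ) := by
    conv_lhs => rw [Matrix.matrix_eq_sum_single u]
    refine Finset.sum_congr rfl fun i _ => Finset.sum_congr rfl fun j _ => ?_
    rw [Matrix.smul_single, smul_eq_mul, mul_one]
  rw [h2, map_sum, Matrix.sum_apply]
  refine Finset.sum_eq_zero fun i _ => ?_
  rw [map_sum, Matrix.sum_apply]
  refine Finset.sum_eq_zero fun j _ => ?_
  rw [map_smul, Matrix.smul_apply, smul_eq_mul]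
  rcases lt_or_ge j i with h | h
  · rw [hu i j h, zero_mul]
  · rw [h1 i j h, mul_zero]

theorem tZr (hTri : TriStmt) (hEpw : EpwStmt) (hStr : StrStmt) (hBas : BasStmt)
    (hCen : CenStmt) : ZrStmt := by
  intro m hm D hD
  obtain ⟨c, -, hc⟩ := (hCen m).2.2.1 (m - 1) (by omega)
  obtain ⟨z, hzd⟩ : ∃ z, z = ee m ^ (m - 1) := ⟨_, rfl⟩
  rw [← hzd] at hc ⊢
  have hz : ∀ i j : Fin m, z i j = if (j : ℕ) = (i : ℕ) + (m - 1) then 1 else 0 := by
    rw [hzd]
    exact (hEpw m (m - 1)).1
  have hem : ee m ^ m = 0 := by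
    ext i j
    rw [(hEpw m m).1, if_neg]
    · rfl
    · have := j.2
      omega
  have hez : ee m * z = 0 := by
    rw [hzd, ← pow_succ', Nat.sub_add_cancel (by omega), hem]
  have hze : z * ee m = 0 := by
    rw [hzd, ← pow_succ, Nat.sub_add_cancel (by omega), hem]
  have hv : adm (ee m) (vv m (m - 1) (2 * m - 3)) = vv m (m - 1) (2 * (m - 1)) := by
    rw [← vv_succ]
    congr 1
    omega
  let i0 : Fin m := ⟨0, by omega⟩
  let i1 : Fin m := ⟨1, by omega⟩
  let il : Fin m := ⟨m - 1, by omega⟩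
  let ik : Fin m := ⟨m - 2, by omega⟩
  let l : Gl m →ₗ[ℂ] ℂ :=
    { toFun := fun x => -c * ((D (adm z x)) il ik + (D (adm z x)) i1 i0)
      map_add' := fun x y => by
        rw [map_add, map_add, Matrix.add_apply, Matrix.add_apply]
        ring
      map_smul' := fun a x => by
        rw [map_smul, map_smul, Matrix.smul_apply, Matrix.smul_apply, smul_eq_mul, smul_eq_mul,
          RingHom.id_apply, smul_eq_mul]
        ring }
  refine ⟨l, fun x => ?_⟩
  have hl : l x = -c * ((D (adm z x)) il ik + (D (adm z x)) i1 i0) := rfl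
  have hup : Upper (adm z x) := by
    intro i j hij
    have hij' : (j : ℕ) < (i : ℕ) := hij
    rw [adm_apply, Matrix.sub_apply, Zr_zm hm hz, Zr_mz hm hz, if_neg (by omega), if_neg, sub_zero]
    have := i.2
    omega
  have hy : ∀ k l : Fin m, (l : ℕ) + 2 ≤ (k : ℕ) → (D (adm z x)) k l = 0 := fun k l h =>
    Zr_up hTri hStr hBas hD _ hup k l h
  obtain ⟨y, hyd⟩ : ∃ y, y = D (adm z x) := ⟨_, rfl⟩
  rw [← hyd] at hl hy
  have e1 : z * y * ee m = y il ik • z := by
    rw [mul_assoc]
    ext i j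
    rw [Zr_zm hm hz, Matrix.smul_apply, hz, smul_eq_mul]
    by_cases hi : (i : ℕ) = 0
    · rw [if_pos hi, Zr_me]
      by_cases hj : (j : ℕ) = m - 1
      · rw [if_pos (by omega), if_pos (by omega), mul_one]
        have h1 : (⟨(j : ℕ) - 1, by have := j.2; omega⟩ : Fin m) = ik := by
          apply Fin.ext
          show (j : ℕ) - 1 = m - 2
          omega
        rw [h1]
      · rw [if_neg (by omega : ¬ (j : ℕ) = (i : ℕ) + (m - 1)), mul_zero]
        by_cases hj1 : 1 ≤ (j : ℕ)
        · rw [if_pos hj1]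
          apply hy
          show (j : ℕ) - 1 + 2 ≤ m - 1
          have := j.2
          omega
        · rw [if_neg hj1]
    · rw [if_neg hi, if_neg, mul_zero]
      have := j.2
      omega
  have e2 : ee m * y * z = y i1 i0 • z := by
    ext i j
    rw [Zr_mz hm hz, Matrix.smul_apply, hz, smul_eq_mul]
    by_cases hj : (j : ℕ) = m - 1
    · rw [if_pos hj, Zr_em]
      by_cases hi : (i : ℕ) = 0
      · rw [dif_pos (by omega), if_pos (by omega), mul_one]
        have h1 : (⟨(i : ℕ) + 1, by omega⟩ : Fin m) = i1 := by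
          apply Fin.ext
          show (i : ℕ) + 1 = 1
          omega
        rw [h1]
      · rw [if_neg (by omega : ¬ (j : ℕ) = (i : ℕ) + (m - 1)), mul_zero]
        by_cases hi1 : (i : ℕ) + 1 < m
        · rw [dif_pos hi1]
          apply hy
          show 0 + 2 ≤ (i : ℕ) + 1
          omega
        · rw [dif_neg hi1]
    · rw [if_neg hj, if_neg, mul_zero]
      have := j.2
      omega
  have e3 : adm (ee m) (adm z y) = -(y il ik + y i1 i0) • z := by
    have e4 : adm (ee m) (adm z y) = ee m * z * y - z * y * ee m - (ee m * y * z) +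
        y * (z * ee m) := by
      rw [adm_apply, adm_apply]
      noncomm_ring
    rw [e4, hez, hze, e1, e2, zero_mul, mul_zero, neg_smul, add_smul]
    abel
  have e5 : (adm z * D * adm z) x = adm z y := by
    rw [hyd]
    rfl
  rw [e5, map_sub, map_smul, hv, e3, hl]
  conv_lhs =>
    arg 1
    rw [hc]
  rw [smul_smul, ← sub_smul]
  have e6 : -(y il ik + y i1 i0) * c - -c * (y il ik + y i1 i0) = 0 := by ring
  rw [e6, zero_smul]

end MP3b
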