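import Pool.Agent.Lib.MP_3b3418_ag.SpecA

/-!
# Zt: the first transvection in `𝔰`
-/

set_option autoImplicit false

namespace MP3b

open Matrix

theorem Zt_top (hEpw : EpwStmt) {m : ℕ} (hm : 1 ≤ m) :
    ee m ^ (m - 1) = Matrix.single (⟨0, by omega⟩ : Fin m) ⟨m - 1, by omega⟩ 1 := by
  ext i j
  rw [(hEpw m (m - 1)).1 i j, Matrix.single_apply]
  have hj := j.2
  by_cases h : (j : ℕ) = (i : ℕ) + (m - 1)
  · rw [if_pos h, if_pos]
    exact ⟨Fin.ext (by change 0 = (i : ℕ); omega), Fin.ext (by change m - 1 = (j : ℕ); omega)⟩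
  · rw [if_neg h, if_neg]
    rintro ⟨rfl, rfl⟩
    exact h (by simp)

theorem tZt (hEpw : EpwStmt) (hNz : NzStmt) (hBsk : BskStmt) (hZz : ZzStmt) (hZr : ZrStmt)
    (hZn : ZnStmt) : ZtStmt := by
  intro m hm D hD S hS
  obtain ⟨b1, b2, b3, b4, b5⟩ := hBsk m
  obtain ⟨l, hl⟩ := hZr m hm D hD
  have hZS := hZz m hm D hD S hS
  obtain ⟨z, hz⟩ : ∃ z, z = ee m ^ (m - 1) := ⟨_, rfl⟩
  obtain ⟨w, hw⟩ : ∃ w, w = vv m (m - 1) (2 * m - 3) := ⟨_, rfl⟩
  rw [← hz] at hl hZS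
  rw [← hw] at hl ⊢
  have hez : ee m * z = z * ee m := by rw [hz, ← pow_succ', ← pow_succ]
  have sz : Skew (Bf m) (adm z) := b2 z hez
  have sD : Skew (Bf m) D := b3 D hD
  have sz' : ∀ x y, Bf m x (adm z y) = -Bf m (adm z x) y := fun x y => by
    rw [sz x y, neg_neg]
  have sD' : ∀ x y, Bf m x (D y) = -Bf m (D x) y := fun x y => by
    rw [sD x y, neg_neg]
  -- the difference commutes with e
  have hcomm : ∀ x, ee m * ((adm z * D * adm z) x - l x • w) =
      ((adm z * D * adm z) x - l x • w) * ee m := by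
    intro x
    have := hl x
    rw [adm_apply, sub_eq_zero] at this
    exact this
  have hZ : ∀ x, (adm z * D * adm z) x = adm z (D (adm z x)) := fun x => rfl
  have hB : ∀ a x, Bf m a (adm z (D (adm z x))) = l x * Bf m a w := by
    intro a x
    have h1 := (b5 _ (hcomm x) a).1
    rw [map_sub, map_smul, hZ, sub_eq_zero, smul_eq_mul] at h1
    exact h1
  have hsymm : ∀ a x, l x * Bf m a w = l a * Bf m x w := by
    intro a x
    rw [← hB a x, ← hB x a, sz' a, sD' (adm z a), neg_neg, ← neg_neg (Bf m (D (adm z a)) (adm z x)),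
      ← sz (D (adm z a)) x, ← b1]
  -- w does not commute with e
  have hwe : adm (ee m) w ≠ 0 := by
    rw [hw, ← vv_succ]
    exact hNz m (m - 1) _ (by omega) (by omega)
  obtain ⟨a₁, ha₁⟩ : ∃ a, Bf m a w ≠ 0 := by
    by_contra hcon
    push Not at hcon
    apply hwe
    rw [adm_apply, sub_eq_zero]
    exact b4 w hcon
  obtain ⟨κ, hκ⟩ : ∃ κ, κ = -(l a₁ / Bf m a₁ w) := ⟨_, rfl⟩
  have hlx : ∀ x, l x = κ * Bf m w x := by
    intro x
    have h1 := hsymm a₁ x
    rw [b1 w x, hκ, mul_neg, neg_mul, neg_neg, div_mul_eq_mul_div, eq_div_iff ha₁]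
    exact h1
  have htw : ∀ x, tw (Bf m) w w x = ((2 : ℂ) * Bf m w x) • w := by
    intro x
    rw [tw_apply, ← add_smul, two_mul]
  have hκ0 : κ ≠ 0 := by
    intro h0
    obtain ⟨x₀, hx₀⟩ : ∃ x₀ : Gl m, x₀ = Matrix.single (⟨m - 1, by omega⟩ : Fin m)
      ⟨0, by omega⟩ 1 := ⟨_, rfl⟩
    have h1 := hB x₀ x₀
    rw [hlx, h0, zero_mul, zero_mul, sz' x₀, neg_eq_zero] at h1
    have h2 : adm z x₀ = Matrix.single (⟨0, by omega⟩ : Fin m) ⟨0, by omega⟩ 1 -
        Matrix.single (⟨m - 1, by omega⟩ : Fin m) ⟨m - 1, by omega⟩ 1 := by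
      rw [adm_apply, hz, Zt_top hEpw (by omega : 1 ≤ m), hx₀, Matrix.single_mul_single_same,
        Matrix.single_mul_single_same, one_mul]
    exact hZn m (by omega) D hD (adm z x₀) h2 h1
  have h3 : ((0 : Gl m), adm z * D * adm z - (κ / 2) • tw (Bf m) w w) ∈ S := by
    refine hS.cen _ fun x => ?_
    have h4 : (adm z * D * adm z - (κ / 2) • tw (Bf m) w w) x =
        (adm z * D * adm z) x - l x • w := by
      rw [LinearMap.sub_apply, LinearMap.smul_apply, htw, smul_smul, hlx]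
      congr 2
      ring
    rw [h4]
    exact hcomm x
  have h5 := S.smul_mem (2 / κ) (S.sub_mem hZS h3)
  have h6 : (2 / κ) • (((0 : Gl m), adm z * D * adm z) -
      ((0 : Gl m), adm z * D * adm z - (κ / 2) • tw (Bf m) w w)) =
      ((0 : Gl m), tw (Bf m) w w) := by
    rw [Prod.mk_sub_mk, sub_zero, sub_sub_cancel, Prod.smul_mk, smul_zero, smul_smul,
      div_mul_div_cancel₀ hκ0, div_self (two_ne_zero), one_smul]
  rwa [h6] at h5

end MP3b
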