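import Pool.Agent.Lib.MP_3b3418_ag.SpecA

/-!
# Zz: the element `(0, ad z f' ad z)`
-/

set_option autoImplicit false

namespace MP3b

open Matrix

theorem Zz_sq (hEpw : EpwStmt) {m : ℕ} (hm : 2 ≤ m) : ee m ^ (m - 1) * ee m ^ (m - 1) = 0 := by
  rw [← pow_add]
  ext i j
  rw [(hEpw m _).1 i j, if_neg (by have := j.2; omega)]
  rfl

theorem Zz_sandwich (hEpw : EpwStmt) {m : ℕ} (hm : 2 ≤ m) (x : Gl m) :
    ee m ^ (m - 1) * x * ee m ^ (m - 1) =
      x ⟨m - 1, by omega⟩ ⟨0, by omega⟩ • ee m ^ (m - 1) := by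
  have h1 := (hEpw m (m - 1)).1
  ext i j
  rw [Matrix.smul_apply, h1 i j, Matrix.mul_apply]
  have h2 : ∀ k : Fin m, (ee m ^ (m - 1) * x) i k * (ee m ^ (m - 1)) k j =
      if (i : ℕ) = 0 ∧ (k : ℕ) = 0 ∧ (j : ℕ) = m - 1 then x ⟨m - 1, by omega⟩ k else 0 := by
    intro k
    rw [h1 k j, Matrix.mul_apply]
    have h3 : ∀ l : Fin m, (ee m ^ (m - 1)) i l * x l k =
        if l = ⟨m - 1, by omega⟩ ∧ (i : ℕ) = 0 then x l k else 0 := by
      intro l
      rw [h1 i l]
      by_cases h : (l : ℕ) = (i : ℕ) + (m - 1)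
      · rw [if_pos h, one_mul, if_pos]
        have := l.2
        refine ⟨Fin.ext ?_, ?_⟩
        · change (l : ℕ) = m - 1
          omega
        · omega
      · rw [if_neg h, zero_mul, if_neg]
        rintro ⟨h4, h5⟩
        apply h
        rw [h4, h5, zero_add]
    rw [Finset.sum_congr rfl fun l _ => h3 l]
    by_cases hi : (i : ℕ) = 0
    · by_cases hk : (k : ℕ) = 0
      · by_cases hj : (j : ℕ) = m - 1
        · rw [if_pos (by omega), if_pos ⟨hi, hk, hj⟩, mul_one,
            Finset.sum_eq_single ⟨m - 1, by omega⟩]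
          · rw [if_pos ⟨rfl, hi⟩]
          · intro l _ hl
            rw [if_neg fun h => hl h.1]
          · intro h
            exact absurd (Finset.mem_univ _) h
        · rw [if_neg (by omega), if_neg fun h => hj h.2.2, mul_zero]
      · rw [if_neg (fun h => hk (by have := j.2; omega)), if_neg fun h => hk h.2.1, mul_zero]
    · rw [if_neg (fun h : (i : ℕ) = 0 ∧ _ => hi h.1), Finset.sum_eq_zero, zero_mul]
      intro l _
      rw [if_neg fun h => hi h.2]
  rw [Finset.sum_congr rfl fun k _ => h2 k, Finset.sum_eq_single ⟨0, by omega⟩]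
  · by_cases hij : (j : ℕ) = (i : ℕ) + (m - 1)
    · have hj := j.2
      rw [if_pos ⟨by omega, rfl, by omega⟩, if_pos hij, smul_eq_mul, mul_one]
    · rw [if_neg hij, smul_zero, if_neg]
      rintro ⟨h3, _, h5⟩
      exact hij (by omega)
  · intro k _ hk
    rw [if_neg]
    rintro ⟨_, h4, _⟩
    exact hk (Fin.ext h4)
  · intro h
    exact absurd (Finset.mem_univ _) h

theorem Zz_comm {m : ℕ} (k : ℕ) : ee m * ee m ^ k = ee m ^ k * ee m := by
  rw [← pow_succ', ← pow_succ]

theorem tZz (hEpw : EpwStmt) (hCen : CenStmt) : ZzStmt := by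
  intro m hm D hD S hS
  obtain ⟨z, hz⟩ : ∃ z, z = ee m ^ (m - 1) := ⟨_, rfl⟩
  have hzz : z * z = 0 := by rw [hz]; exact Zz_sq hEpw (by omega)
  have hzx : ∀ x, z * x * z = x ⟨m - 1, by omega⟩ ⟨0, by omega⟩ • z := by
    intro x
    rw [hz]
    exact Zz_sandwich hEpw (by omega) x
  have hez : ee m * z = z * ee m := by rw [hz]; exact Zz_comm (m - 1)
  have hp : (z, adm z) ∈ S := by rw [hz]; exact hS.pow (m - 1) (by omega)
  have hq := hS.fp
  have h1 := hS.brk _ hq _ hp
  have h2 := hS.brk _ hp _ h1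
  have hf : (ff m) ⟨m - 1, by omega⟩ ⟨0, by omega⟩ = 0 := by
    change (if ((m - 1 : ℕ)) = 0 + 1 then _ else (0 : ℂ)) = 0
    rw [if_neg (by omega)]
  -- the first component
  have hfst : z * (ff m * z - z * ff m) - (ff m * z - z * ff m) * z = 0 := by
    have e1 : z * (ff m * z - z * ff m) - (ff m * z - z * ff m) * z =
        z * ff m * z + z * ff m * z - z * z * ff m - ff m * (z * z) := by
      noncomm_ring
    rw [e1, hzx, hf, hzz, zero_smul, zero_mul, mul_zero]
    simp
  -- the square of ad z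
  have hsq : ∀ x, (adm z * adm z) x = ((-2 : ℂ) * x ⟨m - 1, by omega⟩ ⟨0, by omega⟩) • z := by
    intro x
    rw [Module.End.mul_apply, adm_apply, adm_apply]
    have e1 : z * (z * x - x * z) - (z * x - x * z) * z =
        z * z * x - (z * x * z + z * x * z) + x * (z * z) := by
      noncomm_ring
    rw [e1, hzz, hzx, zero_mul, mul_zero, mul_smul, ← two_smul ℂ (x _ _ • z)]
    simp
  have hcenz : ∀ x, ee m * (adm z * adm z) x = (adm z * adm z) x * ee m := by
    intro x
    rw [hsq, mul_smul_comm, smul_mul_assoc, hez]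
  have h3 : ((0 : Gl m), adm z * adm z * D) ∈ S := hS.cen _ fun x => hcenz (D x)
  have h4 : D * (adm z * adm z) = 0 := by
    refine LinearMap.ext fun x => ?_
    exact (hCen m).2.1 D hD _ (hcenz x)
  have h5 : ((0 : Gl m), adm z * (D * adm z - adm z * D) - (D * adm z - adm z * D) * adm z) ∈ S := by
    have := h2
    change (z * (ff m * z - z * ff m) - (ff m * z - z * ff m) * z,
      adm z * (D * adm z - adm z * D) - (D * adm z - adm z * D) * adm z) ∈ S at this
    rwa [hfst] at this
  have h6 : adm z * (D * adm z - adm z * D) - (D * adm z - adm z * D) * adm z =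
      (2 : ℂ) • (adm z * D * adm z) - adm z * adm z * D := by
    have e1 : adm z * (D * adm z - adm z * D) - (D * adm z - adm z * D) * adm z =
        (adm z * D * adm z + adm z * D * adm z) - adm z * adm z * D - D * (adm z * adm z) := by
      simp only [mul_sub, sub_mul, mul_assoc]
      abel
    rw [e1, h4, sub_zero, two_smul]
  rw [h6] at h5
  have h7 := S.smul_mem (2 : ℂ)⁻¹ (S.add_mem h5 h3)
  rw [← hz]
  have h8 : (2 : ℂ)⁻¹ • (((0 : Gl m), (2 : ℂ) • (adm z * D * adm z) - adm z * adm z * D) +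
      ((0 : Gl m), adm z * adm z * D)) = ((0 : Gl m), adm z * D * adm z) := by
    rw [Prod.mk_add_mk, add_zero, sub_add_cancel, Prod.smul_mk, smul_zero, smul_smul,
      inv_mul_cancel₀ (two_ne_zero), one_smul]
  rwa [h8] at h7

end MP3b
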