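import Pool.Agent.Lib.MP_3b3418_ag.SpecA

/-!
# Part A: conclusion
-/

set_option autoImplicit false

namespace MP3b

open Matrix

theorem AA_comm (m k : ℕ) : ee m * ee m ^ k = ee m ^ k * ee m := by
  rw [← pow_succ', ← pow_succ]

theorem tAA (hBsk : BskStmt) (hAll : AllStmt) (hDua : DuaStmt) (hGen : GenStmt) : AAStmt := by
  intro m hm D hD S hS y hy
  have hsk : ∀ A : Module.End ℂ (Gl m), Skew (Bf m) A → ((0 : Gl m), A) ∈ S :=
    hDua m D hD S hS (hAll m hm D hD S hS)
  have hb := hBsk m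
  refine hGen m (by omega) S hS.brk ?_ ?_ y hy
  · intro k hk
    have h := S.sub_mem (hS.pow k hk) (hsk (adm (ee m ^ k)) (hb.2.1 (ee m ^ k) (AA_comm m k)))
    rw [Prod.mk_sub_mk, sub_zero, sub_self] at h
    exact h
  · have h := S.sub_mem hS.fp (hsk D (hb.2.2.1 D hD))
    rw [Prod.mk_sub_mk, sub_zero, sub_self] at h
    exact h

end MP3b
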