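import Pool.Agent.Lib.MP_3b3418_ag.SpecB

/-!
# Derivative of the value of a polynomial along a curve
-/

set_option autoImplicit false

namespace MP3b

open Matrix

theorem tDev : DevStmt := by
  intro m P γ y t₀ h
  induction P using MvPolynomial.induction_on with
  | C c =>
    have h1 : Rd y (MvPolynomial.C c) = 0 := by
      rw [← MvPolynomial.algebraMap_eq]
      exact (Rd y).map_algebraMap c
    have h2 : (fun t => evm (γ t) (MvPolynomial.C c)) = fun _ => c := by
      funext t
      rw [← MvPolynomial.algebraMap_eq, AlgHom.commutes]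
      rfl
    rw [h1, map_zero, h2]
    exact hasDerivAt_const t₀ c
  | add p q hp hq =>
    have h1 : (fun t => evm (γ t) (p + q)) = fun t => evm (γ t) p + evm (γ t) q := by
      funext t
      rw [map_add]
    rw [h1, map_add, map_add]
    exact hp.add hq
  | mul_X p q hp =>
    have h1 : (fun t => evm (γ t) (p * MvPolynomial.X q)) = fun t => evm (γ t) p * γ t q.1 q.2 := by
      funext t
      rw [map_mul, evm, MvPolynomial.aeval_X]
    have h2 : evm (γ t₀) (Rd y (p * MvPolynomial.X q)) =
        evm (γ t₀) (Rd y p) * γ t₀ q.1 q.2 + evm (γ t₀) p * (γ t₀ * y) q.1 q.2 := by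
      rw [Derivation.leibniz, Rd_X, map_add, smul_eq_mul, smul_eq_mul, map_mul, map_mul, map_sum,
        Matrix.mul_apply]
      have h3 : ∀ k, evm (γ t₀) (y k q.2 • MvPolynomial.X (q.1, k)) = γ t₀ q.1 k * y k q.2 := by
        intro k
        rw [map_smul, evm, MvPolynomial.aeval_X, smul_eq_mul, mul_comm]
      rw [Finset.sum_congr rfl fun k _ => h3 k]
      have h4 : evm (γ t₀) (MvPolynomial.X q) = γ t₀ q.1 q.2 := by
        rw [evm, MvPolynomial.aeval_X]
      rw [h4]
      ring
    rw [h1, h2]
    exact hp.mul (h q.1 q.2)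

end MP3b
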