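import Pool.Agent.Lib.MP_3b3418_ag.SpecA

/-!
# Lmt: the set `T` of the vectors with all transvections
-/

set_option autoImplicit false

namespace MP3b

theorem tLmt (hTwa : TwaStmt) : LmtStmt := by
  intro V _ _ B hB I hI 𝒜 h𝒜 U hU hnd hUU
  obtain ⟨h1, h2, -, h4, h5, h6⟩ := hTwa V B hB
  have h0 : ∀ b, tw B 0 b = 0 := by
    intro b
    have := h6 0 0 b
    rwa [zero_smul, zero_smul] at this
  let T : Submodule ℂ V :=
    { carrier := {a | ∀ w ∈ U, tw B a w ∈ I}
      add_mem' := by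
        intro a b ha hb w hw
        rw [h5]
        exact I.add_mem (ha w hw) (hb w hw)
      zero_mem' := by
        intro w _
        rw [h0]
        exact I.zero_mem
      smul_mem' := by
        intro c a ha w hw
        rw [h6]
        exact I.smul_mem c (ha w hw) }
  have hT : ∀ a, a ∈ T ↔ ∀ w ∈ U, tw B a w ∈ I := fun a => Iff.rfl
  have hUT : U ≤ T := fun u hu w hw => hUU u hu w hw
  have hii : ∀ a ∈ T, ∀ b ∈ T, tw B a b ∈ I := by
    intro a ha b hb
    obtain ⟨w, hw, hw0⟩ := (Submodule.ne_bot_iff U).1 hU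
    obtain ⟨w', hw', hww⟩ := hnd w hw hw0
    have e1 := hI _ (ha w hw) _ (hb w' hw')
    rw [h4] at e1
    have e2 : B a b • tw B w w' ∈ I := I.smul_mem _ (hUU w hw w' hw')
    have e3 : B w b • tw B a w' ∈ I := I.smul_mem _ (ha w' hw')
    have e4 : B a w' • tw B w b ∈ I := by
      rw [h1 w b]
      exact I.smul_mem _ (hb w hw)
    have e5 : B w w' • tw B a b ∈ I :=
      (I.add_mem_iff_right (I.add_mem (I.add_mem e2 e3) e4)).1 e1
    exact (I.smul_mem_iff hww).1 e5
  have hiii : ∀ A ∈ 𝒜, ∀ w ∈ U, A w ∈ T := by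
    intro A hA w hw d hd
    obtain ⟨hsk, hAI⟩ := h𝒜 A hA
    by_cases hw0 : w = 0
    · rw [hw0, map_zero, h0]
      exact I.zero_mem
    have e1 : tw B (A w) w ∈ I := by
      have e2 := hAI _ (hUU w hw w hw)
      rw [h2 A hsk, h1 w (A w), ← two_smul ℂ] at e2
      exact (I.smul_mem_iff two_ne_zero).1 e2
    have key : ∀ c ∈ U, ∀ d ∈ U, B w c • tw B (A w) d + B w d • tw B (A w) c ∈ I := by
      intro c hc d hd
      have e2 := hI _ e1 _ (hUU c hc d hd)
      rw [h4] at e2
      have e3 : B (A w) c • tw B w d ∈ I := I.smul_mem _ (hUU w hw d hd)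
      have e4 : B (A w) d • tw B w c ∈ I := I.smul_mem _ (hUU w hw c hc)
      have e5 : B w c • tw B (A w) d + B w d • tw B (A w) c =
          (B (A w) c • tw B w d + B w c • tw B (A w) d + B (A w) d • tw B w c +
            B w d • tw B (A w) c) - (B (A w) c • tw B w d + B (A w) d • tw B w c) := by
        abel
      rw [e5]
      exact I.sub_mem e2 (I.add_mem e3 e4)
    by_cases hwd : B w d = 0
    · obtain ⟨c, hc, hwc⟩ := hnd w hw hw0
      have e2 := key c hc d hd
      rw [hwd, zero_smul, add_zero] at e2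
      exact (I.smul_mem_iff hwc).1 e2
    · have e2 := key d hd d hd
      rw [← two_smul ℂ] at e2
      exact (I.smul_mem_iff hwd).1 ((I.smul_mem_iff two_ne_zero).1 e2)
  refine ⟨T, hUT, hT, ?_, hii⟩
  intro A hA a ha w hw
  obtain ⟨hsk, hAI⟩ := h𝒜 A hA
  have e1 := hAI _ (ha w hw)
  rw [h2 A hsk] at e1
  exact (I.add_mem_iff_left (hii a ha _ (hiii A hA w hw))).1 e1

end MP3b
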